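import Pool.Agent.Lib.MP_078aef_co_h.Defs
import Pool.Agent.Lib.MP_078aef_co_q.HamConn

/-! Short paths and the filling of a robust set by disjoint paths. -/

namespace Pool.Agent.RamH

open Finset Pool.Agent.RamseyHam Pool.Agent.RamQ

variable {V : Type*} [Fintype V] [DecidableEq V] {G : SimpleGraph V}

omit [Fintype V] [DecidableEq V] in
/-- in a shortest walk two vertices at distance at least two along the walk are not adjacent -/
private theorem fill_far {H : SimpleGraph V} {u v : V} {p : H.Walk u v}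
    (hp : p.length = H.dist u v) {i j : ℕ} (hij : i + 2 ≤ j) (hj : j ≤ p.length) :
    ¬ H.Adj (p.getVert i) (p.getVert j) := by
  intro hadj
  have h1 := SimpleGraph.dist_le ((p.take i).append (SimpleGraph.Walk.cons hadj (p.drop j)))
  rw [SimpleGraph.Walk.length_append, SimpleGraph.Walk.length_cons,
    SimpleGraph.Walk.take_length, SimpleGraph.Walk.drop_length, ← hp,
    min_eq_left (by omega)] at h1
  omega

/-- piece P : a short path -/
theorem short (G : SimpleGraph V) {S : Finset V} {u v : V} (hu : u ∈ S) 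
    (h : ∀ P Q : Finset V, P ∪ Q = S → Disjoint P Q → Non G P Q → u ∈ P → v ∈ Q → False)
    (hv : v ∈ S) :
    ∃ l : List V, Seg G u l v ∧ l.Nodup ∧ (∀ x ∈ l, x ∈ S) ∧ l.length ≤ 2 * al G S := by
  classical
  have hr : (inG G S).Reachable u v := by
    by_contra hno
    obtain ⟨P, hP⟩ : ∃ P : Finset V, P = S.filter (fun x => (inG G S).Reachable u x) := ⟨_, rfl⟩
    refine h P (S \ P) ?_ disjoint_sdiff ?_ ?_ ?_
    · rw [union_sdiff_of_subset]
      rw [hP]
      exact filter_subset _ _
    · intro x hx y hy hadj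
      rw [mem_sdiff] at hy
      apply hy.2
      rw [hP, mem_filter] at hx ⊢
      exact ⟨hy.1, hx.2.trans (SimpleGraph.Adj.reachable ⟨hadj, hx.1, hy.1⟩)⟩
    · rw [hP, mem_filter]
      exact ⟨hu, SimpleGraph.Reachable.refl _⟩
    · rw [mem_sdiff, hP, mem_filter]
      exact ⟨hv, fun h => hno h.2⟩
  obtain ⟨p, hp⟩ := hr.exists_walk_length_eq_dist
  have hpath := p.isPath_of_length_eq_dist hp
  have hmem : ∀ z ∈ p.support, z ∈ S := fun z hz =>
    inG_mem hu ⟨SimpleGraph.Walk.takeUntil _ z hz⟩
  refine ⟨p.support, ⟨?_, ?_, ?_⟩, hpath.support_nodup, hmem, ?_⟩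
  · exact (SimpleGraph.Walk.isChain_adj_support _).imp (fun _ _ h => h.1)
  · rw [List.head?_eq_some_head (SimpleGraph.Walk.support_ne_nil _),
      SimpleGraph.Walk.head_support]
  · rw [List.getLast?_eq_some_getLast (SimpleGraph.Walk.support_ne_nil _),
      SimpleGraph.Walk.getLast_support]
  · rw [SimpleGraph.Walk.length_support]
    have hinj : Set.InjOn (fun i => p.getVert (2 * i))
        ((range (p.length / 2 + 1) : Finset ℕ) : Set ℕ) := by
      intro i hi j hj hij
      rw [mem_coe, mem_range] at hi hj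
      have := hpath.getVert_injOn (by rw [Set.mem_ofPred_eq]; omega)
        (by rw [Set.mem_ofPred_eq]; omega) hij
      omega
    have hind : Ind G ((range (p.length / 2 + 1)).image fun i => p.getVert (2 * i)) := by
      intro x hx y hy hadj
      obtain ⟨i, hi, rfl⟩ := mem_image.mp hx
      obtain ⟨j, hj, rfl⟩ := mem_image.mp hy
      rw [mem_range] at hi hj
      have hxS : p.getVert (2 * i) ∈ S := hmem _ (SimpleGraph.Walk.getVert_mem_support _ _)
      have hyS : p.getVert (2 * j) ∈ S := hmem _ (SimpleGraph.Walk.getVert_mem_support _ _)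
      rcases Nat.lt_trichotomy i j with hij | hij | hij
      · exact fill_far hp (show 2 * i + 2 ≤ 2 * j by omega) (by omega) ⟨hadj, hxS, hyS⟩
      · subst hij
        exact G.loopless.irrefl _ hadj
      · exact fill_far hp (show 2 * j + 2 ≤ 2 * i by omega) (by omega) ⟨hadj.symm, hyS, hxS⟩
    have h1 := hind.card_le_al (D := S) (by
      intro x hx
      obtain ⟨i, hi, rfl⟩ := mem_image.mp hx
      exact hmem _ (SimpleGraph.Walk.getVert_mem_support _ _))
    rw [card_image_of_injOn hinj, card_range] at h1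
    omega

omit [Fintype V] in
/-- removing few vertices keeps robustness -/
theorem Rb.sdiff {D Y : Finset V} {τ τ' : ℕ} (h : Rb G D τ) (hτ : τ' + Y.card ≤ τ) :
    Rb G (D \ Y) τ' := by
  refine ⟨?_, fun X hX P Q hPQ hd hno => ?_⟩
  · have h1 := le_card_sdiff Y D
    have h2 := h.1
    omega
  · refine h.2 (Y ∪ X) ((card_union_le _ _).trans_lt (by omega)) P Q ?_ hd hno
    rw [hPQ, sdiff_sdiff_left]
    rfl

omit [Fintype V] in
private theorem Rb.reg {D : Finset V} {τ A : ℕ} (h : Rb G D τ) (hA : al G D ≤ A)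
    (hτ : A + 1 ≤ τ) : Reg G D :=
  fun W _ hWc P Q hPQ hd hno => h.2 W (by omega) P Q hPQ hd hno

/-- piece F -/
theorem fill {A τ : ℕ} {D : Finset V} (hD : Rb G D τ) (hA : al G D ≤ A) {U : Finset V} (f : V → V)
    (hU : U.Nonempty) (hUD : U ⊆ D) (hfD : ∀ u ∈ U, f u ∈ D) (hfU : ∀ u ∈ U, f u ∉ U)
    (hf : ∀ u ∈ U, ∀ u' ∈ U, f u = f u' → u = u') (hτ : U.card * (2 * A + 2) + A + 1 ≤ τ) :
    ∃ P : V → List V, (∀ u ∈ U, Seg G u (P u) (f u) ∧ (P u).Nodup ∧ ∀ x ∈ P u, x ∈ D) ∧
      (∀ u ∈ U, ∀ u' ∈ U, u ≠ u' → ∀ x ∈ P u, x ∉ P u') ∧ ∀ x ∈ D, ∃ u ∈ U, x ∈ P u := by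
  obtain ⟨n, hn⟩ : ∃ n, U.card = n := ⟨_, rfl⟩
  induction n generalizing U D τ with
  | zero =>
    rw [card_eq_zero] at hn
    subst hn
    simp at hU
  | succ n ih =>
    obtain ⟨u, hu⟩ := hU
    have hne : u ≠ f u := fun h => hfU u hu (h ▸ hu)
    rcases Nat.eq_zero_or_pos n with h0 | hpos
    · -- the last pair
      subst h0
      obtain ⟨w, hw⟩ := card_eq_one.mp hn
      have huw : u = w := by
        rw [hw, mem_singleton] at hu
        exact hu
      subst huw
      subst hw
      obtain ⟨l, hl1, hl2, hl3⟩ := hamConn (hD.reg hA (by omega)) (hUD hu) (hfD u hu) hne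
      refine ⟨fun _ => l, ?_, ?_, ?_⟩
      · intro x hx
        rw [mem_singleton] at hx
        subst hx
        exact ⟨hl1, hl2, fun y hy => (hl3 y).mp hy⟩
      · intro x hx y hy hxy
        rw [mem_singleton] at hx hy
        exact absurd (hx.trans hy.symm) hxy
      · intro x hx
        exact ⟨u, mem_singleton_self _, (hl3 x).mpr hx⟩
    · obtain ⟨Y, hY⟩ : ∃ Y, Y = U.erase u ∪ (U.erase u).image f := ⟨_, rfl⟩
      have hec : (U.erase u).card = n := by
        rw [card_erase_of_mem hu, hn]
        rfl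
      have hYc : Y.card ≤ 2 * n := by
        rw [hY]
        have h1 := card_union_le (U.erase u) ((U.erase u).image f)
        have h2 := card_image_le (s := U.erase u) (f := f)
        omega
      have huY : u ∉ Y := by
        rw [hY, mem_union, mem_image]
        rintro (h | ⟨x, hx, h⟩)
        · exact (mem_erase.mp h).1 rfl
        · exact hfU x (mem_erase.mp hx).2 (h ▸ hu)
      have hfuY : f u ∉ Y := by
        rw [hY, mem_union, mem_image]
        rintro (h | ⟨x, hx, h⟩)
        · exact hfU u hu (mem_erase.mp h).2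
        · exact (mem_erase.mp hx).1 (hf x (mem_erase.mp hx).2 u hu h)
      rw [hn] at hτ
      have hτ1 : (n + 1) * (2 * A + 2) = n * (2 * A + 2) + (2 * A + 2) := by ring
      have hτ2 : 2 * n ≤ n * (2 * A + 2) := by
        rw [Nat.mul_comm n]
        exact Nat.mul_le_mul_right _ (by omega)
      obtain ⟨l, hl1, hl2, hl3, hl4⟩ := short G (S := D \ Y) (u := u) (v := f u)
        (mem_sdiff.mpr ⟨hUD hu, huY⟩) (by
          intro P Q hPQ hd hno hP hQ
          rcases hD.2 Y (by omega) P Q hPQ hd hno with h | h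
          · rw [h] at hP
            simp at hP
          · rw [h] at hQ
            simp at hQ) (mem_sdiff.mpr ⟨hfD u hu, hfuY⟩)
      have hll : l.toFinset.card ≤ 2 * A := by
        refine (List.toFinset_card_le l).trans (hl4.trans ?_)
        have := (al_mono (G := G) (sdiff_subset (s := D) (t := Y))).trans hA
        omega
      have hlY : ∀ x ∈ l, x ∉ Y := fun x hx => (mem_sdiff.mp (hl3 x hx)).2
      obtain ⟨P, hP1, hP2, hP3⟩ := ih (D := D \ l.toFinset) (τ := τ - 2 * A) (U := U.erase u)
        (hD.sdiff (by omega)) ((al_mono sdiff_subset).trans hA)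
        (card_pos.mp (by omega)) (by
          intro x hx
          refine mem_sdiff.mpr ⟨hUD (mem_erase.mp hx).2, fun h => ?_⟩
          rw [List.mem_toFinset] at h
          exact hlY x h (by rw [hY]; exact mem_union_left _ hx)) (by
          intro x hx
          refine mem_sdiff.mpr ⟨hfD x (mem_erase.mp hx).2, fun h => ?_⟩
          rw [List.mem_toFinset] at h
          exact hlY _ h (by rw [hY]; exact mem_union_right _ (mem_image_of_mem _ hx)))
        (fun x hx h => hfU x (mem_erase.mp hx).2 (mem_erase.mp h).2)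
        (fun x hx y hy => hf x (mem_erase.mp hx).2 y (mem_erase.mp hy).2) (by
          rw [hec]
          omega) hec
      refine ⟨Function.update P u l, ?_, ?_, ?_⟩
      · intro x hx
        by_cases hxu : x = u
        · subst hxu
          rw [Function.update_self]
          exact ⟨hl1, hl2, fun y hy => (mem_sdiff.mp (hl3 y hy)).1⟩
        · rw [Function.update_of_ne hxu]
          obtain ⟨h1, h2, h3⟩ := hP1 x (mem_erase.mpr ⟨hxu, hx⟩)
          exact ⟨h1, h2, fun y hy => (mem_sdiff.mp (h3 y hy)).1⟩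
      · intro x hx y hy hxy z hz hz'
        by_cases hxu : x = u
        · subst hxu
          rw [Function.update_self] at hz
          rw [Function.update_of_ne (Ne.symm hxy)] at hz'
          have := (hP1 y (mem_erase.mpr ⟨Ne.symm hxy, hy⟩)).2.2 z hz'
          exact (mem_sdiff.mp this).2 (List.mem_toFinset.mpr hz)
        · rw [Function.update_of_ne hxu] at hz
          have h1 := (hP1 x (mem_erase.mpr ⟨hxu, hx⟩)).2.2 z hz
          by_cases hyu : y = u
          · subst hyu
            rw [Function.update_self] at hz'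
            exact (mem_sdiff.mp h1).2 (List.mem_toFinset.mpr hz')
          · rw [Function.update_of_ne hyu] at hz'
            exact hP2 x (mem_erase.mpr ⟨hxu, hx⟩) y (mem_erase.mpr ⟨hyu, hy⟩) hxy z hz hz'
      · intro x hx
        by_cases hxl : x ∈ l
        · exact ⟨u, hu, by rw [Function.update_self]; exact hxl⟩
        · obtain ⟨y, hy, hxy⟩ := hP3 x (mem_sdiff.mpr ⟨hx, fun h => hxl (List.mem_toFinset.mp h)⟩)
          obtain ⟨hyu, hyU⟩ := mem_erase.mp hy
          exact ⟨y, hyU, by rw [Function.update_of_ne hyu]; exact hxy⟩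

end Pool.Agent.RamH
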