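import Pool.Agent.Lib.MP_078aef_co_h.Euler
import Pool.Agent.Lib.MP_078aef_co_h.Fill

/-! The end: closing a state along an Euler tour. -/

namespace Pool.Agent.RamH

open Finset Pool.Agent.RamseyHam Pool.Agent.RamQ

section lists

variable {V : Type*} {G : SimpleGraph V}

/-- cutting off the last vertex of a segment -/
private theorem asm_cut {a x y : V} {S : List V} (hS : S ≠ []) (h : Seg G a (S ++ [x]) y) :
    ∃ c, Seg G a S c ∧ G.Adj c x := by
  rcases List.eq_nil_or_concat S with h0 | ⟨S', c, h0⟩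
  · exact absurd h0 hS
  · have h1 := List.isChain_append.1 h.chain
    have h2 : S.getLast? = some c := by
      rw [h0]
      simp
    refine ⟨c, ⟨h1.1, ?_, h2⟩, ?_⟩
    · have h3 := h.head
      rw [List.head?_append_of_ne_nil _ hS] at h3
      exact h3
    · exact h1.2.2 c (by rw [h2]; rfl) x (by simp)

private theorem asm_range (n : ℕ) (a c : ℕ → V) (S : ℕ → List V)
    (hS : ∀ i < n, Seg G (a i) (S i) (c i)) (hadj : ∀ i, i + 1 < n → G.Adj (c i) (a (i + 1)))
    (hn : 0 < n) : Seg G (a 0) ((List.range n).flatMap S) (c (n - 1)) := by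
  induction n with
  | zero => omega
  | succ n ih =>
    rw [List.range_succ, List.flatMap_append]
    rcases Nat.eq_zero_or_pos n with h | h
    · subst h
      simpa using hS 0 (by omega)
    · have h1 := ih (fun i hi => hS i (by omega)) (fun i hi => hadj i (by omega)) h
      have h2 := hS n (by omega)
      have h3 := hadj (n - 1) (by omega)
      rw [show n - 1 + 1 = n by omega] at h3
      have h4 := h1.append h2 h3
      simpa using h4

/-- the closing cycle -/
private theorem asm_cycle [Fintype V] [DecidableEq V] {m : ℕ} {h : V → Option (Fin m)} {n : ℕ}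
    (hn : 0 < n) (hV : 3 ≤ Fintype.card V) (nx : ℕ → ℕ) (hsur : ∀ j < n, ∃ i < n, nx i = j)
    (hnx1 : ∀ i, i + 1 < n → nx i = i + 1) (hnx2 : nx (n - 1) = 0)
    (ls w Q : ℕ → List V) (a b : ℕ → V) (hls : ∀ i < n, ls i = a i :: (w i ++ [b i]))
    (hch : ∀ i < n, (ls i).IsChain G.Adj) (hnd : ∀ i < n, (ls i).Nodup)
    (hdis : ∀ i < n, ∀ j < n, i ≠ j → ∀ v ∈ ls i, v ∉ ls j)
    (hw : ∀ i < n, ∀ v ∈ w i, h v = none)
    (hP : ∀ i < n, Seg G (b i) (b i :: (Q i ++ [a (nx i)])) (a (nx i)))
    (hPn : ∀ i < n, (b i :: (Q i ++ [a (nx i)])).Nodup)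
    (hPh : ∀ i < n, ∀ v ∈ Q i, h v ≠ none)
    (hPd : ∀ i < n, ∀ j < n, i ≠ j → ∀ v ∈ b i :: (Q i ++ [a (nx i)]),
      v ∉ b j :: (Q j ++ [a (nx j)]))
    (hcov : ∀ v, (∃ i < n, v ∈ ls i) ∨ ∃ i < n, v ∈ Q i) :
    ∃ l, Cyc G l ∧ l.length = Fintype.card V := by
  have hQm : ∀ i, ∀ v ∈ Q i, v ∈ b i :: (Q i ++ [a (nx i)]) := by
    intro i v hv
    simp [hv]
  have hQb : ∀ i < n, b i ∉ Q i := by
    intro i hi hb
    have h1 := hPn i hi
    rw [List.nodup_cons] at h1
    exact h1.1 (List.mem_append_left _ hb)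
  have hQa : ∀ i < n, a (nx i) ∉ Q i := by
    intro i hi hb
    have h1 := hPn i hi
    rw [List.nodup_cons, List.nodup_append] at h1
    exact h1.2.2.2 _ hb _ (List.mem_singleton_self _) rfl
  have hQn : ∀ i < n, (Q i).Nodup := by
    intro i hi
    have h1 := hPn i hi
    rw [List.nodup_cons, List.nodup_append] at h1
    exact h1.2.1
  have hQls : ∀ i < n, ∀ j < n, ∀ v ∈ Q i, v ∉ ls j := by
    intro i hi j hj v hv hvl
    rw [hls j hj] at hvl
    rcases List.mem_cons.1 hvl with h1 | h1
    · obtain ⟨i', hi', hij⟩ := hsur j hj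
      by_cases hii : i = i'
      · subst hii
        rw [← hij] at h1
        rw [h1] at hv
        exact hQa i hi hv
      · refine hPd i hi i' hi' hii v (hQm i v hv) ?_
        rw [h1, hij]
        simp
    · rcases List.mem_append.1 h1 with h1 | h1
      · exact hPh i hi v hv (hw j hj v h1)
      · rw [List.mem_singleton] at h1
        by_cases hij : i = j
        · subst hij
          rw [h1] at hv
          exact hQb i hi hv
        · refine hPd i hi j hj hij v (hQm i v hv) ?_
          rw [h1]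
          simp
  have hFn : ((List.range n).flatMap (fun i => ls i ++ Q i)).Nodup := by
    rw [List.nodup_flatMap]
    refine ⟨?_, ?_⟩
    · intro i hi
      rw [List.mem_range] at hi
      rw [List.nodup_append]
      refine ⟨hnd i hi, hQn i hi, ?_⟩
      intro x hx y hy hxy
      subst hxy
      exact hQls i hi i hi x hy hx
    · refine List.Pairwise.imp_of_mem ?_ (List.pairwise_lt_range (n := n))
      intro i j hi hj hij
      rw [List.mem_range] at hi hj
      intro v hv1 hv2
      have hne : i ≠ j := by omega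
      rcases List.mem_append.1 hv1 with h1 | h1 <;> rcases List.mem_append.1 hv2 with h2 | h2
      · exact hdis i hi j hj hne v h1 h2
      · exact hQls j hj i hi v h2 h1
      · exact hQls i hi j hj v h1 h2
      · exact hPd i hi j hj hne v (hQm i v h1) (hQm j v h2)
  have hFm : ∀ v, v ∈ (List.range n).flatMap (fun i => ls i ++ Q i) := by
    intro v
    rw [List.mem_flatMap]
    rcases hcov v with ⟨i, hi, h1⟩ | ⟨i, hi, h1⟩
    · exact ⟨i, List.mem_range.2 hi, List.mem_append_left _ h1⟩
    · exact ⟨i, List.mem_range.2 hi, List.mem_append_right _ h1⟩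
  have hlen : ((List.range n).flatMap (fun i => ls i ++ Q i)).length = Fintype.card V := by
    rw [← List.toFinset_card_of_nodup hFn, ← Finset.card_univ]
    congr 1
    ext v
    simp only [List.mem_toFinset, Finset.mem_univ, iff_true]
    exact hFm v
  have key : ∀ i, ∃ c, i < n → Seg G (a i) (ls i ++ Q i) c ∧ G.Adj c (a (nx i)) := by
    intro i
    by_cases hi : i < n
    · have h1 : Seg G (a i) ((ls i ++ Q i) ++ [a (nx i)]) (a (nx i)) := by
        have h2 : (ls i ++ Q i) ++ [a (nx i)] =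
            (a i :: w i) ++ [b i] ++ (Q i ++ [a (nx i)]) := by
          rw [hls i hi]
          simp
        refine ⟨?_, ?_, ?_⟩
        · rw [h2]
          apply List.IsChain.append_overlap
          · have h3 := hch i hi
            rw [hls i hi] at h3
            exact h3
          · exact (hP i hi).chain
          · exact List.cons_ne_nil _ _
        · rw [h2]
          rfl
        · simp
      obtain ⟨c, hc⟩ := asm_cut (by rw [hls i hi]; simp) h1
      exact ⟨c, fun _ => hc⟩
    · exact ⟨a i, fun h1 => absurd h1 hi⟩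
  choose c hc using key
  refine ⟨_, ⟨hFn, by rw [hlen]; exact hV, a 0, c (n - 1), ?_, ?_⟩, hlen⟩
  · apply asm_range n a c
    · intro i hi
      exact (hc i hi).1
    · intro i hi
      have h1 := (hc i (by omega)).2
      rw [hnx1 i hi] at h1
      exact h1
    · exact hn
  · have h1 := (hc (n - 1) (by omega)).2
    rw [hnx2] at h1
    exact h1

end lists

section main

variable {V : Type*} {G : SimpleGraph V}

private theorem asm_split {x y : V} {l : List V} (h : Seg G x l y) (hxy : x ≠ y) :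
    ∃ q, l = x :: (q ++ [y]) := by
  rcases l with _ | ⟨z, l⟩
  · have h1 := h.head
    simp at h1
  · have h1 := h.head
    rw [List.head?_cons, Option.some.injEq] at h1
    rcases List.eq_nil_or_concat l with h0 | ⟨q, y', h0⟩
    · have h2 := h.last
      rw [h0, List.getLast?_singleton, Option.some.injEq] at h2
      exact absurd (h1.symm.trans h2) hxy
    · have h2 := h.last
      have h3 : (z :: l).getLast? = some y' := by
        have h4 : z :: l = (z :: q) ++ [y'] := by
          rw [h0, List.concat_eq_append]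
          rfl
        rw [h4, List.getLast?_append]
        rfl
      rw [h3, Option.some.injEq] at h2
      refine ⟨q, ?_⟩
      rw [h0, h1, h2]
      simp

private theorem asm_rev {m : ℕ} {h : V → Option (Fin m)} {l : List V}
    (hl : IsCn G h l.reverse) : IsCn G h l := by
  obtain ⟨h1, h2, a, w, b, e, ha, hb, hw⟩ := hl
  refine ⟨?_, List.nodup_reverse.1 h2, b, w.reverse, a, ?_, hb, ha, ?_⟩
  · rw [List.isChain_reverse] at h1
    exact h1.imp (fun _ _ h => h.symm)
  · have h3 := congrArg List.reverse e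
    rw [List.reverse_reverse] at h3
    rw [h3]
    simp
  · intro v hv
    exact hw v (List.mem_reverse.1 hv)

private theorem asm_ev {m : ℕ} (h : V → Option (Fin m)) (k : Fin m) (l : List V)
    (h1 : ∀ v ∈ l, h v ≠ some k) : vec h l k = 0 := by
  unfold vec
  induction l with
  | nil => rfl
  | cons x l ih =>
    rw [List.map_cons, List.sum_cons, Pi.add_apply,
      ih (fun v hv => h1 v (List.mem_cons_of_mem _ hv)), add_zero]
    have h2 := h1 x List.mem_cons_self
    unfold ev
    cases hx : h x with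
    | none => rfl
    | some i =>
      show (Pi.single i 1 : Fin m → ZMod 2) k = 0
      rw [Pi.single_eq_of_ne]
      rintro rfl
      exact h2 hx

private theorem asm_hub {m : ℕ} {h : V → Option (Fin m)} {C : Finset (List V)}
    (hC : Sta G h C) (hS : Sp h C) (hne : C.Nonempty) (k : Fin m) :
    ∃ l ∈ C, ∃ v ∈ l, h v = some k := by
  by_contra hcon
  push Not at hcon
  obtain ⟨l0, hl0⟩ := hne
  obtain ⟨-, -, a, w, b, e, ha, -, -⟩ := hC.cn l0 hl0
  have hal : a ∈ l0 := by rw [e]; simp
  obtain ⟨j, hj⟩ := Option.ne_none_iff_exists'.1 ha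
  have hjk : j ≠ k := by
    rintro rfl
    exact hcon l0 hl0 a hal hj
  have hsp : Submodule.span (ZMod 2) (vec h '' (C : Set (List V))) ≤
      LinearMap.ker (LinearMap.proj (R := ZMod 2) (φ := fun _ : Fin m => ZMod 2) k) := by
    rw [Submodule.span_le]
    rintro _ ⟨l, hl, rfl⟩
    exact asm_ev h k l (hcon l hl)
  have h2 : ((Pi.single k 1 + Pi.single j 1 : Fin m → ZMod 2)) k = 0 := hsp (hS k j)
  rw [Pi.add_apply, Pi.single_eq_same, Pi.single_eq_of_ne (Ne.symm hjk), add_zero] at h2
  exact one_ne_zero h2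

variable [Fintype V] [DecidableEq V]

private theorem asm_paths {m : ℕ} {h : V → Option (Fin m)} {A t n : ℕ} (hm : 1 ≤ m)
    (hB : ∀ i, Rb G (Hb h i) t) (hA : al G univ ≤ A) (ht : n * (2 * A + 2) + A + 1 ≤ t)
    (nx : ℕ → ℕ) (a b : ℕ → V) (hbi : ∀ i < n, ∀ j < n, b i = b j → i = j)
    (hab : ∀ i < n, ∀ j < n, a (nx i) ≠ b j)
    (hai : ∀ i < n, ∀ j < n, a (nx i) = a (nx j) → i = j)
    (hbn : ∀ i < n, h (b i) ≠ none) (hjt : ∀ i < n, h (b i) = h (a (nx i)))
    (hhub : ∀ k : Fin m, ∃ i < n, h (b i) = some k) :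
    ∃ P : ℕ → List V,
      (∀ i < n, Seg G (b i) (P i) (a (nx i)) ∧ (P i).Nodup ∧ ∀ x ∈ P i, h x ≠ none) ∧
      (∀ i < n, ∀ j < n, i ≠ j → ∀ x ∈ P i, x ∉ P j) ∧ ∀ x, h x ≠ none → ∃ i < n, x ∈ P i := by
  classical
  let f : V → V := fun v =>
    if hv : ∃ i, i < n ∧ b i = v then a (nx (Classical.choose hv)) else v
  have hf : ∀ i < n, f (b i) = a (nx i) := by
    intro i hi
    have hv : ∃ j, j < n ∧ b j = b i := ⟨i, hi, rfl⟩
    show (if hv : ∃ j, j < n ∧ b j = b i then a (nx (Classical.choose hv)) else b i) = a (nx i)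
    rw [dif_pos hv]
    have h1 := Classical.choose_spec hv
    rw [hbi _ h1.1 i hi h1.2]
  let U : Fin m → Finset V := fun k => univ.filter fun v => h v = some k ∧ ∃ i, i < n ∧ b i = v
  have hU : ∀ k v, v ∈ U k ↔ h v = some k ∧ ∃ i, i < n ∧ b i = v := by
    intro k v
    simp only [U, mem_filter, mem_univ, true_and]
  have hUc : ∀ k, (U k).card ≤ n := by
    intro k
    have h1 : U k ⊆ (range n).image b := by
      intro v hv
      obtain ⟨-, i, hi, rfl⟩ := (hU k v).1 hv
      exact mem_image_of_mem _ (mem_range.2 hi)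
    calc (U k).card ≤ ((range n).image b).card := card_le_card h1
      _ ≤ (range n).card := card_image_le
      _ = n := card_range n
  have hex : ∀ k : Fin m, ∃ P : V → List V,
      (∀ u ∈ U k, Seg G u (P u) (f u) ∧ (P u).Nodup ∧ ∀ x ∈ P u, x ∈ Hb h k) ∧
      (∀ u ∈ U k, ∀ u' ∈ U k, u ≠ u' → ∀ x ∈ P u, x ∉ P u') ∧
      ∀ x ∈ Hb h k, ∃ u ∈ U k, x ∈ P u := by
    intro k
    apply fill (hB k) ((al_mono (subset_univ _)).trans hA) f
    · obtain ⟨i, hi, h1⟩ := hhub k
      exact ⟨b i, (hU k _).2 ⟨h1, i, hi, rfl⟩⟩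
    · intro v hv
      exact mem_Hb.2 ((hU k v).1 hv).1
    · intro v hv
      obtain ⟨h1, i, hi, rfl⟩ := (hU k v).1 hv
      rw [hf i hi, mem_Hb, ← hjt i hi]
      exact h1
    · intro v hv
      obtain ⟨h1, i, hi, rfl⟩ := (hU k v).1 hv
      rw [hf i hi]
      intro h2
      obtain ⟨-, j, hj, h3⟩ := (hU k _).1 h2
      exact hab i hi j hj h3.symm
    · intro v hv v' hv' h2
      obtain ⟨-, i, hi, rfl⟩ := (hU k v).1 hv
      obtain ⟨-, j, hj, rfl⟩ := (hU k v').1 hv'
      rw [hf i hi, hf j hj] at h2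
      rw [hai i hi j hj h2]
    · have := Nat.mul_le_mul_right (2 * A + 2) (hUc k)
      omega
  choose P hP1 hP2 hP3 using hex
  have hk : ∀ i, ∃ k : Fin m, i < n → h (b i) = some k := by
    intro i
    by_cases hi : i < n
    · obtain ⟨k, hk⟩ := Option.ne_none_iff_exists'.1 (hbn i hi)
      exact ⟨k, fun _ => hk⟩
    · exact ⟨⟨0, hm⟩, fun h1 => absurd h1 hi⟩
  choose k hk using hk
  have hbU : ∀ i < n, b i ∈ U (k i) := fun i hi => (hU _ _).2 ⟨hk i hi, i, hi, rfl⟩
  refine ⟨fun i => P (k i) (b i), ?_, ?_, ?_⟩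
  · intro i hi
    obtain ⟨h1, h2, h3⟩ := hP1 (k i) (b i) (hbU i hi)
    rw [hf i hi] at h1
    refine ⟨h1, h2, ?_⟩
    intro x hx hxn
    have h4 := mem_Hb.1 (h3 x hx)
    rw [hxn] at h4
    exact absurd h4 (by simp)
  · intro i hi j hj hij x hx hx'
    by_cases hkk : k i = k j
    · have h1 : b i ≠ b j := fun h2 => hij (hbi i hi j hj h2)
      have h2 := hbU j hj
      rw [← hkk] at h2
      refine hP2 (k i) (b i) (hbU i hi) (b j) h2 h1 x hx ?_
      rw [hkk]
      exact hx'
    · have h1 := mem_Hb.1 ((hP1 (k i) (b i) (hbU i hi)).2.2 x hx)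
      have h2 := mem_Hb.1 ((hP1 (k j) (b j) (hbU j hj)).2.2 x hx')
      rw [h1] at h2
      exact hkk (Option.some.inj h2)
  · intro x hx
    obtain ⟨k', hk'⟩ := Option.ne_none_iff_exists'.1 hx
    obtain ⟨u, hu, hxu⟩ := hP3 k' x (mem_Hb.2 hk')
    obtain ⟨h1, i, hi, rfl⟩ := (hU k' u).1 hu
    refine ⟨i, hi, ?_⟩
    have h2 : k i = k' := by
      have h3 := hk i hi
      rw [h1] at h3
      exact (Option.some.inj h3).symm
    show x ∈ P (k i) (b i)
    rw [h2]
    exact hxu

private theorem asm_main {m : ℕ} {h : V → Option (Fin m)} {A t : ℕ} (hm : 1 ≤ m)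
    (hB : ∀ i, Rb G (Hb h i) t) (hA : al G univ ≤ A) {C : Finset (List V)} (hC : Sta G h C)
    (hS : Sp h C) (hW : ∀ v, h v = none → On C v)
    (ht : (C.card + 1) * (2 * A + 2) + A + 2 ≤ t) (hV : 3 ≤ Fintype.card V)
    (hne : C.Nonempty) : ∃ l, Cyc G l ∧ l.length = Fintype.card V := by
  classical
  obtain ⟨T, hT0, hT1, hT2, hTn, hTch, x0, y0, hx0, hy0, hxy⟩ := euler hC hS hne
  have hTc : ∀ l ∈ T, IsCn G h l := by
    intro l hl
    rcases hT1 l hl with h1 | h1
    · exact hC.cn l h1
    · exact asm_rev (hC.cn _ h1)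
  obtain ⟨n, hn⟩ : ∃ n, T.length = n := ⟨_, rfl⟩
  have hn0 : 0 < n := by
    rw [← hn]
    exact List.length_pos_of_ne_nil hT0
  obtain ⟨ls, hlsg⟩ : ∃ ls : ℕ → List V, ∀ i (hi : i < T.length), T[i] = ls i :=
    ⟨fun i => T.getD i [], fun i hi => (List.getD_eq_getElem _ _ hi).symm⟩
  have hlsT : ∀ i < n, ls i ∈ T := by
    intro i hi
    rw [← hlsg i (by omega)]
    exact List.getElem_mem _
  have hTm : ∀ l ∈ T, ∃ i < n, ls i = l := by
    intro l hl
    obtain ⟨i, hi, h1⟩ := List.mem_iff_getElem.1 hl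
    exact ⟨i, by omega, by rw [← hlsg i hi, h1]⟩
  have key : ∀ i, ∃ (a : V) (w : List V) (b : V), i < n →
      ls i = a :: (w ++ [b]) ∧ h a ≠ none ∧ h b ≠ none ∧ ∀ v ∈ w, h v = none := by
    intro i
    by_cases hi : i < n
    · obtain ⟨a, w, b, h1⟩ := (hTc _ (hlsT i hi)).shape
      exact ⟨a, w, b, fun _ => h1⟩
    · exact ⟨x0, [], x0, fun h1 => absurd h1 hi⟩
  choose a w b hk using key
  have hnd : ∀ i < n, (ls i).Nodup := fun i hi => (hTc _ (hlsT i hi)).nodup
  have hdis : ∀ i < n, ∀ j < n, i ≠ j → ∀ v ∈ ls i, v ∉ ls j := by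
    have h1 := (List.nodup_flatten.1 hTn).2
    rw [List.pairwise_iff_getElem] at h1
    have h2 : ∀ i j, i < j → j < n → ∀ v ∈ ls i, v ∉ ls j := by
      intro i j hij hj v hv hv'
      have h3 := h1 i j (by omega) (by omega) hij
      rw [hlsg, hlsg] at h3
      exact h3 hv hv'
    intro i hi j hj hij v hv hv'
    rcases Nat.lt_or_gt_of_ne hij with h3 | h3
    · exact h2 i j h3 hj v hv hv'
    · exact h2 j i h3 hi v hv' hv
  obtain ⟨nx, hnx⟩ : ∃ nx : ℕ → ℕ, ∀ i, nx i = if i + 1 = n then 0 else i + 1 := ⟨_, fun _ => rfl⟩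
  have hnx1 : ∀ i, i + 1 < n → nx i = i + 1 := fun i hi => by
    rw [hnx, if_neg (by omega)]
  have hnx2 : nx (n - 1) = 0 := by rw [hnx, if_pos (by omega)]
  have hnxlt : ∀ i < n, nx i < n := by
    intro i hi
    rw [hnx]
    split_ifs <;> omega
  have hsur : ∀ j < n, ∃ i < n, nx i = j := by
    intro j hj
    rcases Nat.eq_zero_or_pos j with h1 | h1
    · exact ⟨n - 1, by omega, by rw [hnx2, h1]⟩
    · exact ⟨j - 1, by omega, by rw [hnx1 (j - 1) (by omega)]; omega⟩
  have hnxi : ∀ i < n, ∀ j < n, nx i = nx j → i = j := by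
    intro i hi j hj hij
    rw [hnx, hnx] at hij
    split_ifs at hij <;> omega
  have hla : ∀ i < n, a i ∈ ls i := by
    intro i hi
    rw [(hk i hi).1]
    simp
  have hlb : ∀ i < n, b i ∈ ls i := by
    intro i hi
    rw [(hk i hi).1]
    simp
  have hab' : ∀ i < n, a i ≠ b i := by
    intro i hi h1
    have h2 := hnd i hi
    rw [(hk i hi).1, List.nodup_cons] at h2
    apply h2.1
    rw [h1]
    simp
  have hab : ∀ i < n, ∀ j < n, a (nx i) ≠ b j := by
    intro i hi j hj h1
    by_cases h2 : nx i = j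
    · rw [h2] at h1
      exact hab' j hj h1
    · refine hdis (nx i) (hnxlt i hi) j hj h2 _ (hla _ (hnxlt i hi)) ?_
      rw [h1]
      exact hlb j hj
  have hbi : ∀ i < n, ∀ j < n, b i = b j → i = j := by
    intro i hi j hj h1
    by_contra h2
    refine hdis i hi j hj h2 _ (hlb i hi) ?_
    rw [h1]
    exact hlb j hj
  have hai : ∀ i < n, ∀ j < n, a (nx i) = a (nx j) → i = j := by
    intro i hi j hj h1
    apply hnxi i hi j hj
    by_contra h2
    refine hdis _ (hnxlt i hi) _ (hnxlt j hj) h2 _ (hla _ (hnxlt i hi)) ?_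
    rw [h1]
    exact hla _ (hnxlt j hj)
  have hgl : ∀ i < n, (ls i).getLast? = some (b i) := by
    intro i hi
    have h4 : ls i = (a i :: w i) ++ [b i] := by
      rw [(hk i hi).1]
      rfl
    rw [h4, List.getLast?_append]
    rfl
  have hhd : ∀ i < n, (ls i).head? = some (a i) := by
    intro i hi
    rw [(hk i hi).1]
    rfl
  have hjt : ∀ i < n, h (b i) = h (a (nx i)) := by
    intro i hi
    by_cases h1 : i + 1 < n
    · rw [hnx1 i h1]
      obtain ⟨a', b', h3, h4, h5⟩ := List.isChain_iff_getElem.1 hTch i (by omega)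
      rw [hlsg, hgl i hi, Option.some.injEq] at h3
      rw [hlsg, hhd (i + 1) h1, Option.some.injEq] at h4
      rw [h3, h4]
      exact h5
    · have h2 : i = n - 1 := by omega
      have h3 : T.flatten.getLast? = some (b (n - 1)) := by
        have h4 : T.flatten = T.dropLast.flatten ++ ls (n - 1) := by
          conv_lhs => rw [← List.dropLast_append_getLast hT0]
          rw [List.flatten_append, List.getLast_eq_getElem, hlsg]
          simp [hn]
        rw [h4, List.getLast?_append, hgl (n - 1) (by omega)]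
        rfl
      have h5 : T.flatten.head? = some (a 0) := by
        have h4 : T.flatten = ls 0 ++ T.tail.flatten := by
          conv_lhs => rw [← List.cons_head_tail hT0]
          rw [List.flatten_cons, List.head_eq_getElem, hlsg]
        rw [h4, List.head?_append, hhd 0 hn0]
        rfl
      rw [h2, hnx2]
      rw [h3, Option.some.injEq] at hx0
      rw [h5, Option.some.injEq] at hy0
      rw [hx0, hy0]
      exact hxy
  have hon : ∀ l ∈ C, ∀ v ∈ l, ∃ i < n, v ∈ ls i := by
    intro l hl v hv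
    rcases hT2 l hl with h1 | h1
    · obtain ⟨i, hi, h2⟩ := hTm _ h1
      exact ⟨i, hi, by rw [h2]; exact hv⟩
    · obtain ⟨i, hi, h2⟩ := hTm _ h1
      exact ⟨i, hi, by rw [h2]; exact List.mem_reverse.2 hv⟩
  have hhub : ∀ k : Fin m, ∃ i < n, h (b i) = some k := by
    intro k
    obtain ⟨l, hl, v, hv, hvk⟩ := asm_hub hC hS hne k
    obtain ⟨i, hi, hvi⟩ := hon l hl v hv
    rw [(hk i hi).1] at hvi
    rcases List.mem_cons.1 hvi with h1 | h1
    · obtain ⟨i', hi', h2⟩ := hsur i hi
      refine ⟨i', hi', ?_⟩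
      rw [hjt i' hi', h2, ← h1]
      exact hvk
    · rcases List.mem_append.1 h1 with h1 | h1
      · rw [(hk i hi).2.2.2 v h1] at hvk
        exact absurd hvk (by simp)
      · rw [List.mem_singleton] at h1
        exact ⟨i, hi, by rw [← h1]; exact hvk⟩
  have hcard : n ≤ C.card := by
    have hmem : ∀ i v, v ∈ (if ls i ∈ C then ls i else (ls i).reverse) ↔ v ∈ ls i := by
      intro i v
      split_ifs
      · rfl
      · exact List.mem_reverse
    have h1 : (range n).card ≤ C.card := by
      refine card_le_card_of_injOn (fun i => if ls i ∈ C then ls i else (ls i).reverse) ?_ ?_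
      · intro i hi
        rw [mem_coe, mem_range] at hi
        show (if ls i ∈ C then ls i else (ls i).reverse) ∈ C
        split_ifs with h2
        · exact h2
        · rcases hT1 _ (hlsT i hi) with h3 | h3
          · exact absurd h3 h2
          · exact h3
      · intro i hi j hj hij
        rw [mem_coe, mem_range] at hi hj
        by_contra h2
        have h3 : a i ∈ (if ls i ∈ C then ls i else (ls i).reverse) := (hmem i _).2 (hla i hi)
        have h4 : (if ls i ∈ C then ls i else (ls i).reverse) =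
            (if ls j ∈ C then ls j else (ls j).reverse) := hij
        rw [h4] at h3
        exact hdis i hi j hj h2 _ (hla i hi) ((hmem j _).1 h3)
    rwa [card_range] at h1
  have ht' : n * (2 * A + 2) + A + 1 ≤ t := by
    have h1 := Nat.mul_le_mul_right (2 * A + 2) (show n ≤ C.card + 1 by omega)
    omega
  obtain ⟨P, hP1, hP2, hP3⟩ := asm_paths hm hB hA ht' nx a b hbi hab hai
    (fun i hi => (hk i hi).2.2.1) hjt hhub
  have hQ : ∀ i, ∃ q, i < n → P i = b i :: (q ++ [a (nx i)]) := by
    intro i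
    by_cases hi : i < n
    · obtain ⟨q, hq⟩ := asm_split (hP1 i hi).1 (Ne.symm (hab i hi i hi))
      exact ⟨q, fun _ => hq⟩
    · exact ⟨[], fun h1 => absurd h1 hi⟩
  choose Q hQ using hQ
  refine asm_cycle hn0 hV nx hsur hnx1 hnx2 ls w Q a b (fun i hi => (hk i hi).1)
    (fun i hi => (hTc _ (hlsT i hi)).chain) hnd hdis (fun i hi => (hk i hi).2.2.2) ?_ ?_ ?_ ?_ ?_
  · intro i hi
    rw [← hQ i hi]
    exact (hP1 i hi).1
  · intro i hi
    rw [← hQ i hi]
    exact (hP1 i hi).2.1
  · intro i hi v hv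
    apply (hP1 i hi).2.2
    rw [hQ i hi]
    simp [hv]
  · intro i hi j hj hij v hv
    rw [← hQ i hi] at hv
    rw [← hQ j hj]
    exact hP2 i hi j hj hij v hv
  · intro v
    by_cases hv : h v = none
    · obtain ⟨l, hl, hvl⟩ := hW v hv
      exact Or.inl (hon l hl v hvl)
    · obtain ⟨i, hi, h1⟩ := hP3 v hv
      rw [hQ i hi] at h1
      rcases List.mem_cons.1 h1 with h1 | h1
      · exact Or.inl ⟨i, hi, by rw [h1]; exact hlb i hi⟩
      · rcases List.mem_append.1 h1 with h1 | h1
        · exact Or.inr ⟨i, hi, h1⟩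
        · rw [List.mem_singleton] at h1
          exact Or.inl ⟨nx i, hnxlt i hi, by rw [h1]; exact hla _ (hnxlt i hi)⟩

private theorem asm_empty {m : ℕ} {h : V → Option (Fin m)} {A t : ℕ} (hm : 1 ≤ m)
    (hB : ∀ i, Rb G (Hb h i) t) (hA : al G univ ≤ A) (hS : Sp h (∅ : Finset (List V)))
    (hW : ∀ v, h v = none → On (∅ : Finset (List V)) v)
    (ht : 1 * (2 * A + 2) + A + 1 ≤ t) (hV : 3 ≤ Fintype.card V) :
    ∃ l, Cyc G l ∧ l.length = Fintype.card V := by
  classical
  have hij : ∀ i j : Fin m, i = j := by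
    intro i j
    by_contra hij
    have h1 := hS i j
    rw [coe_empty, Set.image_empty, Submodule.span_empty, Submodule.mem_bot] at h1
    have h2 := congrFun h1 i
    rw [Pi.add_apply, Pi.single_eq_same, Pi.single_eq_of_ne hij, add_zero] at h2
    exact one_ne_zero h2
  have huniv : Hb h ⟨0, hm⟩ = univ := by
    rw [eq_univ_iff_forall]
    intro v
    rw [mem_Hb]
    cases hv : h v with
    | none =>
      obtain ⟨l, hl, -⟩ := hW v hv
      exact absurd hl (notMem_empty l)
    | some k => rw [hij k ⟨0, hm⟩]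
  have hR := hB ⟨0, hm⟩
  rw [huniv] at hR
  obtain ⟨u, v, huv⟩ : ∃ u v, G.Adj u v := by
    by_contra hcon
    push Not at hcon
    have h1 : Ind G (univ : Finset V) := fun x _ y _ => hcon x y
    have h2 := h1.card_le_al (D := univ) (subset_univ _)
    have h3 := hR.1
    omega
  have hne := G.ne_of_adj huv
  obtain ⟨P, hP1, -, hP3⟩ := fill (U := {u}) hR hA (fun _ => v) ⟨u, mem_singleton_self u⟩
    (subset_univ _) (fun _ _ => mem_univ _) (fun _ _ h1 => hne (mem_singleton.1 h1).symm)
    (fun x hx y hy _ => (mem_singleton.1 hx).trans (mem_singleton.1 hy).symm)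
    (by rw [card_singleton]; exact ht)
  obtain ⟨h1, h2, -⟩ := hP1 u (mem_singleton_self u)
  have hlen : (P u).length = Fintype.card V := by
    rw [← List.toFinset_card_of_nodup h2, ← Finset.card_univ]
    congr 1
    ext x
    simp only [List.mem_toFinset, Finset.mem_univ, iff_true]
    obtain ⟨u', hu', hx⟩ := hP3 x (mem_univ x)
    rw [mem_singleton] at hu'
    rw [hu'] at hx
    exact hx
  exact ⟨P u, ⟨h2, by rw [hlen]; exact hV, u, v, h1, huv.symm⟩, hlen⟩

/-- piece A : the end -/
theorem assemble {m : ℕ} {h : V → Option (Fin m)} {A t : ℕ} (hm : 1 ≤ m)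
    (hB : ∀ i, Rb G (Hb h i) t) (hA : al G univ ≤ A) {C : Finset (List V)} (hC : Sta G h C)
    (hS : Sp h C) (hW : ∀ v, h v = none → On C v)
    (ht : (C.card + 1) * (2 * A + 2) + A + 2 ≤ t) :
    ∃ l, Cyc G l ∧ l.length = Fintype.card V := by
  have h1 := (hB ⟨0, hm⟩).1.trans (card_le_univ _)
  have h2 := Nat.mul_le_mul_right (2 * A + 2) (show 1 ≤ C.card + 1 by omega)
  have hA1 : 1 ≤ A := by
    rcases Nat.eq_zero_or_pos (Fintype.card V) with h3 | h3
    · omega
    · have h4 : (univ : Finset V).Nonempty := by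
        rw [← card_pos, Finset.card_univ]
        exact h3
      exact (al_pos h4).trans hA
  rcases C.eq_empty_or_nonempty with h3 | h3
  · subst h3
    refine asm_empty hm hB hA hS hW ?_ (by omega)
    omega
  · exact asm_main hm hB hA hC hS hW ht (by omega) h3

end main

end Pool.Agent.RamH
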