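import Pool.Agent.Lib.MP_078aef_co_h.Defs

/-! Decomposition of a vertex set into robust pieces, and the hubs. -/

namespace Pool.Agent.RamH

open Finset Pool.Agent.RamseyHam Pool.Agent.RamQ

variable {V : Type*} [Fintype V] [DecidableEq V] {G : SimpleGraph V}

omit [Fintype V] in
private theorem dec_sep {D : Finset V} {τ : ℕ} (hc : τ ≤ D.card) (h : ¬ Rb G D τ) :
    ∃ X P Q : Finset V, X ⊆ D ∧ X.card ≤ τ - 1 ∧ P ∪ Q = D \ X ∧ Disjoint P Q ∧ Non G P Q ∧
      P.Nonempty ∧ Q.Nonempty := by
  have h1 : ¬ ∀ X : Finset V, X.card < τ → ∀ P Q : Finset V, P ∪ Q = D \ X → Disjoint P Q →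
    Non G P Q → P = ∅ ∨ Q = ∅ := fun h2 => h ⟨hc, h2⟩
  push Not at h1
  obtain ⟨X, hX, P, Q, hPQ, hd, hno, hP, hQ⟩ := h1
  refine ⟨X ∩ D, P, Q, inter_subset_right, ?_, ?_, hd, hno, ?_, ?_⟩
  · have := card_le_card (inter_subset_left (s₁ := X) (s₂ := D))
    omega
  · rw [hPQ]
    ext x
    simp only [mem_sdiff, mem_inter]
    tauto
  · exact hP
  · exact hQ

/-- piece D -/
theorem decomp (G : SimpleGraph V) {τ g : ℕ} (hτ : 1 ≤ τ) (hg : τ ≤ g) (U : Finset V) :
    ∃ (Ds : Finset (Finset V)) (S1 S2 : Finset V),
      (∀ D ∈ Ds, D ⊆ U ∧ g ≤ D.card ∧ Rb G D τ) ∧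
      (∀ D ∈ Ds, ∀ D' ∈ Ds, D ≠ D' → Disjoint D D' ∧ Non G D D') ∧
      (∀ D ∈ Ds, Disjoint D S1 ∧ Disjoint D S2 ∧ Non G D S2) ∧
      S1 ⊆ U ∧ S2 ⊆ U ∧ (∀ v ∈ U, v ∈ S1 ∨ v ∈ S2 ∨ ∃ D ∈ Ds, v ∈ D) ∧
      Ds.card ≤ al G U ∧ S1.card ≤ (al G U - 1) * (τ - 1) ∧ S2.card ≤ al G U * (g - 1) := by
  induction U using Finset.strongInduction with
  | H U ih =>
    rcases Nat.lt_or_ge U.card g with hlt | hge
    · refine ⟨∅, ∅, U, by simp, by simp, by simp, empty_subset _, subset_rfl, ?_, by simp, by simp,
        ?_⟩
      · intro v hv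
        exact Or.inr (Or.inl hv)
      · rcases U.eq_empty_or_nonempty with rfl | hne
        · simp
        · have h1 := al_pos (G := G) hne
          have h2 : 1 * (g - 1) ≤ al G U * (g - 1) := Nat.mul_le_mul_right _ h1
          omega
    · by_cases hR : Rb G U τ
      · have hne : U.Nonempty := by
          rw [← card_pos]
          omega
        refine ⟨{U}, ∅, ∅, ?_, ?_, ?_, empty_subset _, empty_subset _, ?_, ?_, by simp, by simp⟩
        · intro D hD
          rw [mem_singleton] at hD
          subst hD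
          exact ⟨subset_rfl, hge, hR⟩
        · intro D hD D' hD' hne'
          rw [mem_singleton] at hD hD'
          exact absurd (hD.trans hD'.symm) hne'
        · intro D _
          refine ⟨disjoint_empty_right _, disjoint_empty_right _, ?_⟩
          intro x _ y hy
          simp at hy
        · intro v hv
          exact Or.inr (Or.inr ⟨U, mem_singleton_self _, hv⟩)
        · rw [card_singleton]
          exact al_pos hne
      · obtain ⟨X, P, Q, hXU, hXc, hPQ, hd, hno, hP, hQ⟩ := dec_sep (hg.trans hge) hR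
        have hPU' : P ⊆ U \ X := by
          rw [← hPQ]
          exact subset_union_left
        have hQU' : Q ⊆ U \ X := by
          rw [← hPQ]
          exact subset_union_right
        have hPU : P ⊆ U := hPU'.trans sdiff_subset
        have hQU : Q ⊆ U := hQU'.trans sdiff_subset
        have hPss : P ⊂ U := by
          refine ⟨hPU, fun hsub => ?_⟩
          obtain ⟨y, hy⟩ := hQ
          exact disjoint_left.mp hd (hsub (hQU hy)) hy
        have hQss : Q ⊂ U := by
          refine ⟨hQU, fun hsub => ?_⟩
          obtain ⟨y, hy⟩ := hP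
          exact disjoint_left.mp hd hy (hsub (hPU hy))
        obtain ⟨Ds, S1, S2, a1, a2, a3, a4, a5, a6, a7, a8, a9⟩ := ih P hPss
        obtain ⟨Es, T1, T2, b1, b2, b3, b4, b5, b6, b7, b8, b9⟩ := ih Q hQss
        have hal := al_add_le hPU hQU hd hno
        have hp := al_pos (G := G) hP
        have hq := al_pos (G := G) hQ
        have cross : ∀ {S T : Finset V}, S ⊆ P → T ⊆ Q → Disjoint S T ∧ Non G S T :=
          fun {S T} hS hT => ⟨disjoint_of_subset_left hS (disjoint_of_subset_right hT hd),
            hno.mono hS hT⟩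
        have hPX : Disjoint P X := by
          rw [disjoint_left]
          intro x hx
          exact (mem_sdiff.mp (hPU' hx)).2
        have hQX : Disjoint Q X := by
          rw [disjoint_left]
          intro x hx
          exact (mem_sdiff.mp (hQU' hx)).2
        refine ⟨Ds ∪ Es, S1 ∪ T1 ∪ X, S2 ∪ T2, ?_, ?_, ?_, ?_, ?_, ?_, ?_, ?_, ?_⟩
        · intro D hD
          rcases mem_union.mp hD with hD | hD
          · exact ⟨(a1 D hD).1.trans hPU, (a1 D hD).2⟩
          · exact ⟨(b1 D hD).1.trans hQU, (b1 D hD).2⟩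
        · intro D hD D' hD' hne
          rcases mem_union.mp hD with hD | hD <;> rcases mem_union.mp hD' with hD' | hD'
          · exact a2 D hD D' hD' hne
          · exact cross (a1 D hD).1 (b1 D' hD').1
          · have := cross (a1 D' hD').1 (b1 D hD).1
            exact ⟨this.1.symm, this.2.symm⟩
          · exact b2 D hD D' hD' hne
        · intro D hD
          rcases mem_union.mp hD with hD | hD
          · have h1 := a3 D hD
            have h2 := (cross (a1 D hD).1 b4).1
            have h3 := cross (a1 D hD).1 b5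
            have h4 := disjoint_of_subset_left (a1 D hD).1 hPX
            refine ⟨?_, ?_, ?_⟩
            · rw [disjoint_union_right, disjoint_union_right]
              exact ⟨⟨h1.1, h2⟩, h4⟩
            · rw [disjoint_union_right]
              exact ⟨h1.2.1, h3.1⟩
            · intro x hx y hy
              rcases mem_union.mp hy with hy | hy
              · exact h1.2.2 x hx y hy
              · exact h3.2 x hx y hy
          · have h1 := b3 D hD
            have h2 := (cross a4 (b1 D hD).1).1.symm
            have h3 := cross a5 (b1 D hD).1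
            have h4 := disjoint_of_subset_left (b1 D hD).1 hQX
            refine ⟨?_, ?_, ?_⟩
            · rw [disjoint_union_right, disjoint_union_right]
              exact ⟨⟨h2, h1.1⟩, h4⟩
            · rw [disjoint_union_right]
              exact ⟨h3.1.symm, h1.2.1⟩
            · intro x hx y hy
              rcases mem_union.mp hy with hy | hy
              · exact h3.2.symm x hx y hy
              · exact h1.2.2 x hx y hy
        · exact union_subset (union_subset (a4.trans hPU) (b4.trans hQU)) hXU
        · exact union_subset (a5.trans hPU) (b5.trans hQU)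
        · intro v hv
          by_cases hvX : v ∈ X
          · exact Or.inl (mem_union_right _ hvX)
          · have hv' : v ∈ P ∪ Q := by
              rw [hPQ]
              exact mem_sdiff.mpr ⟨hv, hvX⟩
            rcases mem_union.mp hv' with hv' | hv'
            · rcases a6 v hv' with h | h | ⟨D, hD, h⟩
              · exact Or.inl (mem_union_left _ (mem_union_left _ h))
              · exact Or.inr (Or.inl (mem_union_left _ h))
              · exact Or.inr (Or.inr ⟨D, mem_union_left _ hD, h⟩)
            · rcases b6 v hv' with h | h | ⟨D, hD, h⟩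
              · exact Or.inl (mem_union_left _ (mem_union_right _ h))
              · exact Or.inr (Or.inl (mem_union_right _ h))
              · exact Or.inr (Or.inr ⟨D, mem_union_right _ hD, h⟩)
        · exact (card_union_le _ _).trans (by omega)
        · have h1 := card_union_le (S1 ∪ T1) X
          have h2 := card_union_le S1 T1
          have h3 : (al G P - 1) * (τ - 1) + (al G Q - 1) * (τ - 1) + 1 * (τ - 1) ≤
              (al G U - 1) * (τ - 1) := by
            rw [← Nat.add_mul, ← Nat.add_mul]
            exact Nat.mul_le_mul_right _ (by omega)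
          omega
        · have h1 := card_union_le S2 T2
          have h3 : al G P * (g - 1) + al G Q * (g - 1) ≤ al G U * (g - 1) := by
            rw [← Nat.add_mul]
            exact Nat.mul_le_mul_right _ hal
          omega

/-- a robust set stays robust when vertices with many neighbours in it are added -/
theorem Rb.extend {D B : Finset V} {t : ℕ} (h : Rb G D t) (hDB : D ⊆ B)
    (hB : ∀ v ∈ B, v ∉ D → t ≤ (nb G v ∩ D).card) : Rb G B t := by
  refine ⟨h.1.trans (card_le_card hDB), fun X hX P Q hPQ hd hno => ?_⟩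
  -- the key step
  have key : ∀ P Q : Finset V, P ∪ Q = B \ X → Disjoint P Q → Non G P Q → P ∩ D = ∅ → P = ∅ := by
    intro P Q hPQ hd hno hPD
    by_contra hne
    obtain ⟨v, hv⟩ := nonempty_iff_ne_empty.mpr hne
    have hvB : v ∈ B := by
      have : v ∈ P ∪ Q := mem_union_left _ hv
      rw [hPQ] at this
      exact (mem_sdiff.mp this).1
    have hvD : v ∉ D := fun hvD => by
      have : v ∈ P ∩ D := mem_inter.mpr ⟨hv, hvD⟩
      rw [hPD] at this
      simp at this
    have h1 := hB v hvB hvD
    obtain ⟨y, hy, hyX⟩ : ∃ y ∈ nb G v ∩ D, y ∉ X := by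
      by_contra hcon
      push Not at hcon
      have := card_le_card (show nb G v ∩ D ⊆ X from hcon)
      omega
    obtain ⟨hy1, hy2⟩ := mem_inter.mp hy
    have hyPQ : y ∈ P ∪ Q := by
      rw [hPQ]
      exact mem_sdiff.mpr ⟨hDB hy2, hyX⟩
    rcases mem_union.mp hyPQ with hyP | hyQ
    · have : y ∈ P ∩ D := mem_inter.mpr ⟨hyP, hy2⟩
      rw [hPD] at this
      simp at this
    · exact hno v hv y hyQ (mem_nb.mp hy1)
  have h2 : (P ∩ D) ∪ (Q ∩ D) = D \ X := by
    rw [← union_inter_distrib_right, hPQ]
    ext x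
    simp only [mem_inter, mem_sdiff]
    constructor
    · rintro ⟨⟨-, h3⟩, h4⟩
      exact ⟨h4, h3⟩
    · rintro ⟨h3, h4⟩
      exact ⟨⟨hDB h3, h4⟩, h3⟩
  rcases h.2 X hX (P ∩ D) (Q ∩ D) h2 (disjoint_of_subset_left inter_subset_left
    (disjoint_of_subset_right inter_subset_left hd)) (hno.mono inter_subset_left
    inter_subset_left) with h3 | h3
  · exact Or.inl (key P Q hPQ hd hno h3)
  · exact Or.inr (key Q P (by rw [union_comm, hPQ]) hd.symm hno.symm h3)

/-- piece D2 : hubs -/
theorem hubs (G : SimpleGraph V) {t A : ℕ} (ht : 1 ≤ t) (hA : al G univ ≤ A)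
    (hn : 2 * A * t < Fintype.card V) :
    ∃ (m : ℕ) (h : V → Option (Fin m)), 1 ≤ m ∧ m ≤ A ∧ (∀ i, Rb G (Hb h i) t) ∧
      ∀ v, h v = none → (nb G v).card < 3 * A * t := by
  classical
  obtain ⟨Ds, S1, S2, a1, a2, a3, a4, a5, a6, a7, a8, a9⟩ := decomp G ht le_rfl (univ : Finset V)
  have hA1 : 1 ≤ A := by
    have hne : (univ : Finset V).Nonempty := by
      rw [← card_pos, card_univ]
      omega
    exact (al_pos hne).trans hA
  have c1 : S1.card ≤ (A - 1) * (t - 1) := a8.trans (Nat.mul_le_mul_right _ (by omega))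
  have c2 : S2.card ≤ A * (t - 1) := a9.trans (Nat.mul_le_mul_right _ hA)
  obtain ⟨t', rfl⟩ : ∃ t', t = t' + 1 := ⟨t - 1, by omega⟩
  obtain ⟨A', rfl⟩ : ∃ A', A = A' + 1 := ⟨A - 1, by omega⟩
  simp only [Nat.add_sub_cancel] at c1 c2
  have hm1 : 1 ≤ Ds.card := by
    rw [Nat.one_le_iff_ne_zero, Ne, card_eq_zero]
    rintro rfl
    have h1 : (univ : Finset V) ⊆ S1 ∪ S2 := by
      intro v hv
      rcases a6 v hv with h | h | ⟨D, hD, -⟩
      · exact mem_union_left _ h
      · exact mem_union_right _ h
      · simp at hD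
    have h2 := (card_le_card h1).trans (card_union_le _ _)
    rw [card_univ] at h2
    nlinarith
  obtain ⟨e⟩ : Nonempty (Fin Ds.card ≃ Ds) := ⟨Ds.equivFin.symm⟩
  have hcore : ∀ v : V, ∀ i j : Fin Ds.card, v ∈ (e i : Finset V) → v ∈ (e j : Finset V) →
      i = j := by
    intro v i j hi hj
    by_contra hne
    have h1 : (e i : Finset V) ≠ (e j : Finset V) := fun h => hne (e.injective (Subtype.ext h))
    exact disjoint_left.mp (a2 _ (e i).2 _ (e j).2 h1).1 hi hj
  obtain ⟨h, hh⟩ : ∃ h : V → Option (Fin Ds.card), ∀ v,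
      (∀ i, v ∈ (e i : Finset V) → h v = some i) ∧
      (∀ i, h v = some i → v ∉ (e i : Finset V) → t' + 1 ≤ (nb G v ∩ (e i : Finset V)).card) ∧
      (h v = none → ∀ i, v ∉ (e i : Finset V) ∧
        (nb G v ∩ (e i : Finset V)).card < t' + 1) := by
    have : ∀ v : V, ∃ o : Option (Fin Ds.card),
        (∀ i, v ∈ (e i : Finset V) → o = some i) ∧
        (∀ i, o = some i → v ∉ (e i : Finset V) → t' + 1 ≤ (nb G v ∩ (e i : Finset V)).card) ∧
        (o = none → ∀ i, v ∉ (e i : Finset V) ∧
          (nb G v ∩ (e i : Finset V)).card < t' + 1) := by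
      intro v
      by_cases h1 : ∃ i, v ∈ (e i : Finset V)
      · obtain ⟨i, hi⟩ := h1
        refine ⟨some i, fun j hj => by rw [hcore v i j hi hj], fun j hj hjn => ?_, fun h => ?_⟩
        · rw [Option.some_inj] at hj
          subst hj
          exact absurd hi hjn
        · simp at h
      · by_cases h2 : ∃ i, t' + 1 ≤ (nb G v ∩ (e i : Finset V)).card
        · obtain ⟨i, hi⟩ := h2
          refine ⟨some i, fun j hj => absurd ⟨j, hj⟩ h1, fun j hj _ => ?_, fun h => ?_⟩
          · rw [Option.some_inj] at hj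
            subst hj
            exact hi
          · simp at h
        · push Not at h1 h2
          refine ⟨none, fun j hj => absurd hj (h1 j), fun j hj => ?_, fun _ i => ⟨h1 i, h2 i⟩⟩
          simp at hj
    choose h hh using this
    exact ⟨h, hh⟩
  refine ⟨Ds.card, h, hm1, a7.trans hA, fun i => ?_, fun v hv => ?_⟩
  · refine (a1 _ (e i).2).2.2.extend ?_ ?_
    · intro v hv
      rw [mem_Hb]
      exact (hh v).1 i hv
    · intro v hv hvn
      rw [mem_Hb] at hv
      exact (hh v).2.1 i hv hvn
  · have h3 := (hh v).2.2 hv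
    have h4 : nb G v ⊆ (S1 ∪ S2) ∪ (univ : Finset (Fin Ds.card)).biUnion
        (fun i => nb G v ∩ (e i : Finset V)) := by
      intro x hx
      rcases a6 x (mem_univ x) with h5 | h5 | ⟨D, hD, h5⟩
      · exact mem_union_left _ (mem_union_left _ h5)
      · exact mem_union_left _ (mem_union_right _ h5)
      · refine mem_union_right _ (mem_biUnion.mpr ⟨e.symm ⟨D, hD⟩, mem_univ _, ?_⟩)
        rw [Equiv.apply_symm_apply]
        exact mem_inter.mpr ⟨hx, h5⟩
    have h5 : ((univ : Finset (Fin Ds.card)).biUnion
        (fun i => nb G v ∩ (e i : Finset V))).card ≤ Ds.card * t' := by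
      refine card_biUnion_le.trans ?_
      refine (sum_le_card_nsmul _ _ t' fun i _ => Nat.lt_succ_iff.mp (h3 i).2).trans ?_
      rw [card_univ, Fintype.card_fin, smul_eq_mul]
    have h6 := (card_le_card h4).trans (card_union_le _ _)
    have h7 := card_union_le S1 S2
    have h8 : Ds.card * t' ≤ (A' + 1) * t' := Nat.mul_le_mul_right _ (a7.trans hA)
    nlinarith

end Pool.Agent.RamH
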