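import Pool.Agent.Lib.MP_078aef_co_q.Base

/-! Hubs, connectors and states. -/

namespace Pool.Agent.RamH

open Finset Pool.Agent.RamseyHam Pool.Agent.RamQ

variable {V : Type*}

section rob

variable [DecidableEq V]

/-- `D` has at least `τ` vertices and no set of fewer than `τ` vertices separates it -/
def Rb (G : SimpleGraph V) (D : Finset V) (τ : ℕ) : Prop :=
  τ ≤ D.card ∧ ∀ X : Finset V, X.card < τ → ∀ P Q : Finset V, P ∪ Q = D \ X → Disjoint P Q →
    Non G P Q → P = ∅ ∨ Q = ∅

/-- toughness: `c + 1` pairwise non-adjacent parts leave at least `K c` vertices -/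
def Tough (G : SimpleGraph V) (K : ℕ) : Prop :=
  ∀ (c : ℕ) (X : Finset V) (P : Fin (c + 1) → Finset V), (∀ i, (P i).Nonempty) →
    (∀ i j, i ≠ j → Disjoint (P i) (P j)) → (∀ i j, i ≠ j → Non G (P i) (P j)) →
    (∀ v, v ∈ X ∨ ∃ i, v ∈ P i) → K * c ≤ X.card

end rob

section hub

variable {m : ℕ}

/-- a connector: a path with both ends in hubs and all inner vertices outside the hubs -/
structure IsCn (G : SimpleGraph V) (h : V → Option (Fin m)) (l : List V) : Prop where
  chain : l.IsChain G.Adj
  nodup : l.Nodup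
  shape : ∃ a w b, l = a :: (w ++ [b]) ∧ h a ≠ none ∧ h b ≠ none ∧ ∀ v ∈ w, h v = none

/-- the unit vector of the hub of `v` -/
def ev (h : V → Option (Fin m)) (v : V) : Fin m → ZMod 2 :=
  match h v with
  | some i => Pi.single i 1
  | none => 0

/-- the parity vector of a list -/
def vec (h : V → Option (Fin m)) (l : List V) : Fin m → ZMod 2 := (l.map (ev h)).sum

/-- the vectors of the members of `S` span all even vectors -/
def Sp (h : V → Option (Fin m)) (S : Finset (List V)) : Prop :=
  ∀ i j : Fin m, Pi.single i 1 + Pi.single j 1 ∈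
    Submodule.span (ZMod 2) (vec h '' (S : Set (List V)))

/-- a set of pairwise disjoint connectors using every hub an even number of times -/
structure Sta (G : SimpleGraph V) (h : V → Option (Fin m)) (C : Finset (List V)) : Prop where
  cn : ∀ l ∈ C, IsCn G h l
  disj : ∀ l ∈ C, ∀ l' ∈ C, l ≠ l' → ∀ v ∈ l, v ∉ l'
  even : ∑ l ∈ C, vec h l = 0

/-- `v` is on a member of `C` -/
def On (C : Finset (List V)) (v : V) : Prop := ∃ l ∈ C, v ∈ l

/-- `C` contains `ρ` pairwise disjoint spanning sets -/
def Rob (h : V → Option (Fin m)) (C : Finset (List V)) (ρ : ℕ) : Prop :=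
  ∃ (J : Finset ℕ) (F : ℕ → Finset (List V)), ρ ≤ J.card ∧ (∀ j ∈ J, F j ⊆ C ∧ Sp h (F j)) ∧
    ∀ i ∈ J, ∀ j ∈ J, i ≠ j → Disjoint (F i) (F j)

variable [Fintype V]

/-- the vertices of hub `i` -/
def Hb (h : V → Option (Fin m)) (i : Fin m) : Finset V := univ.filter (fun v => h v = some i)

/-- the vertices outside the hubs -/
def Wt (h : V → Option (Fin m)) : Finset V := univ.filter (fun v => h v = none)

theorem mem_Hb {h : V → Option (Fin m)} {i : Fin m} {v : V} : v ∈ Hb h i ↔ h v = some i := by
  simp [Hb]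

theorem mem_Wt {h : V → Option (Fin m)} {v : V} : v ∈ Wt h ↔ h v = none := by
  simp [Wt]

end hub

end Pool.Agent.RamH
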