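import Pool.Agent.Lib.MP_078aef_co_h.Defs

/-! Piece E: the Euler tour of the connectors. -/

namespace Pool.Agent.RamH

open Finset Pool.Agent.RamseyHam Pool.Agent.RamQ

section vecs

variable {V : Type*} {m : ℕ}

theorem vec_nil (h : V → Option (Fin m)) : vec h [] = 0 := rfl

theorem vec_cons (h : V → Option (Fin m)) (a : V) (l : List V) :
    vec h (a :: l) = ev h a + vec h l := by
  simp [vec]

theorem vec_append (h : V → Option (Fin m)) (l l' : List V) :
    vec h (l ++ l') = vec h l + vec h l' := by
  simp [vec]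

theorem vec_reverse (h : V → Option (Fin m)) (l : List V) : vec h l.reverse = vec h l := by
  induction l with
  | nil => rfl
  | cons a l ih =>
    rw [List.reverse_cons, vec_append, ih, vec_cons, vec_cons, vec_nil, add_zero, add_comm]

theorem vec_eq_zero (h : V → Option (Fin m)) {l : List V} (hl : ∀ v ∈ l, h v = none) :
    vec h l = 0 := by
  induction l with
  | nil => rfl
  | cons a l ih =>
    rw [vec_cons, ih fun v hv => hl v (List.mem_cons_of_mem a hv), add_zero]
    unfold ev
    rw [hl a List.mem_cons_self]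

theorem ev_some {h : V → Option (Fin m)} {v : V} {i : Fin m} (hv : h v = some i) :
    ev h v = Pi.single i 1 := by
  unfold ev
  rw [hv]

end vecs

section cn

variable {V : Type*} {m : ℕ} {G : SimpleGraph V} {h : V → Option (Fin m)}

/-- the ends and the vector of a connector -/
theorem IsCn.ends {l : List V} (hl : IsCn G h l) : ∃ a b i j, l.head? = some a ∧
    l.getLast? = some b ∧ h a = some i ∧ h b = some j ∧
    vec h l = Pi.single i 1 + Pi.single j 1 := by
  obtain ⟨a, w, b, rfl, ha, hb, hw⟩ := hl.shape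
  obtain ⟨i, hi⟩ := Option.ne_none_iff_exists'.1 ha
  obtain ⟨j, hj⟩ := Option.ne_none_iff_exists'.1 hb
  refine ⟨a, b, i, j, rfl, ?_, hi, hj, ?_⟩
  · rw [List.getLast?_cons, List.getLast?_append]
    simp
  · rw [vec_cons, vec_append, vec_eq_zero h hw, zero_add, vec_cons, vec_nil, add_zero,
      ev_some hi, ev_some hj]

theorem IsCn.reverse {l : List V} (hl : IsCn G h l) : IsCn G h l.reverse := by
  refine ⟨?_, List.nodup_reverse.2 hl.nodup, ?_⟩
  · rw [List.isChain_reverse]
    exact hl.chain.imp fun a b hab => SimpleGraph.Adj.symm hab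
  · obtain ⟨a, w, b, rfl, ha, hb, hw⟩ := hl.shape
    refine ⟨b, w.reverse, a, by simp, hb, ha, fun v hv => hw v (List.mem_reverse.1 hv)⟩

theorem IsCn.ne_nil {l : List V} (hl : IsCn G h l) : l ≠ [] := by
  obtain ⟨a, w, b, rfl, -⟩ := hl.shape
  simp

/-- the hub of the first vertex -/
private def eA (h : V → Option (Fin m)) (l : List V) : Option (Fin m) := l.head?.bind h

/-- the hub of the last vertex -/
private def eB (h : V → Option (Fin m)) (l : List V) : Option (Fin m) := l.getLast?.bind h

private theorem eA_reverse (l : List V) : eA h l.reverse = eB h l := by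
  unfold eA eB
  rw [List.head?_reverse]

private theorem eB_reverse (l : List V) : eB h l.reverse = eA h l := by
  unfold eA eB
  rw [List.getLast?_reverse]

private theorem ends' {l : List V} (hl : IsCn G h l) : ∃ i j, eA h l = some i ∧
    eB h l = some j ∧ vec h l = Pi.single i 1 + Pi.single j 1 := by
  obtain ⟨a, b, i, j, h1, h2, h3, h4, h5⟩ := hl.ends
  refine ⟨i, j, ?_, ?_, h5⟩
  · unfold eA
    rw [h1]
    exact h3
  · unfold eB
    rw [h2]
    exact h4

/-- the unit vector of a hub, `0` for `none` -/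
private def evo : Option (Fin m) → Fin m → ZMod 2
  | some i => Pi.single i 1
  | none => 0

private theorem vec_evo {l : List V} (hl : IsCn G h l) : vec h l = evo (eA h l) + evo (eB h l) := by
  obtain ⟨i, j, h1, h2, h3⟩ := ends' hl
  rw [h3, h1, h2]
  rfl

private theorem two_evo (x : Option (Fin m)) : evo x + evo x = (0 : Fin m → ZMod 2) := by
  funext i
  exact CharTwo.add_self_eq_zero _

/-- a trail -/
private structure Tr (G : SimpleGraph V) (h : V → Option (Fin m)) (C : Finset (List V))
    (t : List (List V)) : Prop where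
  mem : ∀ l ∈ t, l ∈ C ∨ l.reverse ∈ C
  nodup : t.flatten.Nodup
  chain : t.IsChain (fun l l' => eB h l = eA h l')

/-- the trail is closed -/
private def Cl (h : V → Option (Fin m)) (t : List (List V)) : Prop :=
  ∀ x ∈ t.getLast?, ∀ y ∈ t.head?, eB h x = eA h y

variable {C : Finset (List V)} {t : List (List V)}

private theorem Tr.cn (hC : Sta G h C) (ht : Tr G h C t) {l : List V} (hl : l ∈ t) :
    IsCn G h l := by
  rcases ht.mem l hl with h1 | h1
  · exact hC.cn l h1
  · have := (hC.cn _ h1).reverse
    rwa [List.reverse_reverse] at this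

/-- a rotation of a closed trail -/
private theorem Tr.rot {t1 t2 : List (List V)} (ht : Tr G h C (t1 ++ t2)) (hcl : Cl h (t1 ++ t2)) :
    Tr G h C (t2 ++ t1) ∧ Cl h (t2 ++ t1) := by
  by_cases h1 : t1 = []
  · subst h1
    rw [List.append_nil]
    exact ⟨ht, hcl⟩
  by_cases h2 : t2 = []
  · subst h2
    rw [List.append_nil] at ht hcl
    exact ⟨ht, hcl⟩
  obtain ⟨a1, r1, rfl⟩ := List.exists_cons_of_ne_nil h1
  obtain ⟨a2, r2, rfl⟩ := List.exists_cons_of_ne_nil h2
  have hch := List.isChain_append.1 ht.chain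
  refine ⟨⟨fun l hl => ht.mem l ?_, ?_, ?_⟩, ?_⟩
  · rw [List.mem_append] at hl ⊢
    exact hl.symm
  · have h3 := ht.nodup
    rw [List.flatten_append] at h3 ⊢
    exact (List.perm_append_comm.nodup_iff).1 h3
  · refine List.isChain_append.2 ⟨hch.2.1, hch.1, fun x hx y hy => hcl x ?_ y ?_⟩
    · rw [List.getLast?_append]
      rw [Option.mem_def] at hx ⊢
      rw [hx]
      rfl
    · exact hy
  · intro x hx y hy
    refine hch.2.2 x ?_ y hy
    rw [List.getLast?_append] at hx
    rw [Option.mem_def] at hx ⊢
    cases h3 : (a1 :: r1).getLast? with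
    | none => simp at h3
    | some z =>
      rw [h3] at hx
      exact hx

section fin

variable [DecidableEq V]

/-- the member of `C` -/
private def cc (C : Finset (List V)) (l : List V) : List V := if l ∈ C then l else l.reverse

private theorem cc_eq (l : List V) : cc C l = l ∨ cc C l = l.reverse := by
  unfold cc
  split_ifs
  · exact Or.inl rfl
  · exact Or.inr rfl

private theorem cc_mem {l : List V} (hl : l ∈ C ∨ l.reverse ∈ C) : cc C l ∈ C := by
  unfold cc
  split_ifs with h1
  · exact h1
  · exact hl.resolve_left h1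

private theorem mem_cc {l : List V} {v : V} : v ∈ cc C l ↔ v ∈ l := by
  rcases cc_eq (C := C) l with h1 | h1 <;> rw [h1]
  exact List.mem_reverse

private theorem Tr.map_nodup (hC : Sta G h C) (ht : Tr G h C t) : (t.map (cc C)).Nodup := by
  have h1 := (List.nodup_flatten.1 ht.nodup).2
  have h2 : t.Pairwise fun l l' => cc C l ≠ cc C l' := by
    refine h1.imp_of_mem fun {l l'} hl hl' hd heq => ?_
    have hne := (ht.cn hC hl).ne_nil
    obtain ⟨a, r, rfl⟩ := List.exists_cons_of_ne_nil hne
    have h3 : a ∈ cc C (a :: r) := mem_cc.2 List.mem_cons_self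
    rw [heq] at h3
    exact hd List.mem_cons_self (mem_cc.1 h3)
  exact List.pairwise_map.2 h2

private theorem Tr.length_le (hC : Sta G h C) (ht : Tr G h C t) : t.length ≤ C.card := by
  have h1 := ht.map_nodup hC
  rw [← List.length_map (cc C) (as := t), ← List.toFinset_card_of_nodup h1]
  refine Finset.card_le_card fun l hl => ?_
  rw [List.mem_toFinset, List.mem_map] at hl
  obtain ⟨l', hl', rfl⟩ := hl
  exact cc_mem (ht.mem l' hl')

/-- the used members -/
private theorem Tr.used (hC : Sta G h C) (ht : Tr G h C t) :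
    ∑ l ∈ C with (l ∈ t ∨ l.reverse ∈ t), vec h l = (t.map (vec h)).sum := by
  have h1 : C.filter (fun l => l ∈ t ∨ l.reverse ∈ t) = (t.map (cc C)).toFinset := by
    ext l
    rw [Finset.mem_filter, List.mem_toFinset, List.mem_map]
    constructor
    · rintro ⟨hl, h2 | h2⟩
      · refine ⟨l, h2, ?_⟩
        unfold cc
        rw [if_pos hl]
      · refine ⟨l.reverse, h2, ?_⟩
        unfold cc
        split_ifs with h3
        · by_contra hne
          have h4 := (hC.cn l hl).ne_nil
          obtain ⟨a, r, rfl⟩ := List.exists_cons_of_ne_nil h4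
          exact hC.disj _ hl _ h3 (fun h5 => hne h5.symm) a List.mem_cons_self
            (List.mem_reverse.2 List.mem_cons_self)
        · exact List.reverse_reverse l
    · rintro ⟨l', hl', rfl⟩
      refine ⟨cc_mem (ht.mem l' hl'), ?_⟩
      rcases cc_eq (C := C) l' with h2 | h2
      · left
        rw [h2]
        exact hl'
      · right
        rw [h2, List.reverse_reverse]
        exact hl'
  rw [h1, List.sum_toFinset _ (ht.map_nodup hC), List.map_map]
  congr 1
  refine List.map_congr_left fun l _ => ?_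
  rw [Function.comp_apply]
  rcases cc_eq (C := C) l with h2 | h2 <;> rw [h2]
  exact vec_reverse h l

/-- appending an unused connector -/
private theorem Tr.snoc (hC : Sta G h C) (ht : Tr G h C t) {l l' : List V} (hl : l ∈ C)
    (hlt : ¬ (l ∈ t ∨ l.reverse ∈ t)) (hl' : l' = l ∨ l' = l.reverse)
    (he : ∀ x ∈ t.getLast?, eB h x = eA h l') : Tr G h C (t ++ [l']) := by
  rw [not_or] at hlt
  have hcn : IsCn G h l' := by
    rcases hl' with h1 | h1 <;> rw [h1]
    · exact hC.cn l hl
    · exact (hC.cn l hl).reverse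
  refine ⟨fun x hx => ?_, ?_, ?_⟩
  · rw [List.mem_append, List.mem_singleton] at hx
    rcases hx with hx | hx
    · exact ht.mem x hx
    · rw [hx]
      rcases hl' with h1 | h1 <;> rw [h1]
      · exact Or.inl hl
      · rw [List.reverse_reverse]
        exact Or.inr hl
  · rw [List.flatten_append, List.flatten_singleton, List.nodup_append]
    refine ⟨ht.nodup, hcn.nodup, ?_⟩
    intro v hv w hw hvw
    subst hvw
    rw [List.mem_flatten] at hv
    obtain ⟨x, hx, hvx⟩ := hv
    have hvl : v ∈ l := by
      rcases hl' with h1 | h1 <;> rw [h1] at hw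
      · exact hw
      · exact List.mem_reverse.1 hw
    rcases ht.mem x hx with h1 | h1
    · exact hC.disj l hl x h1 (fun h2 => hlt.1 (h2 ▸ hx)) v hvl hvx
    · refine hC.disj l hl _ h1 (fun h2 => hlt.2 ?_) v hvl (List.mem_reverse.2 hvx)
      rw [h2, List.reverse_reverse]
      exact hx
  · refine List.isChain_append.2 ⟨ht.chain, List.isChain_singleton _, fun x hx y hy => ?_⟩
    rw [List.head?_cons, Option.mem_some_iff] at hy
    rw [← hy]
    exact he x hx

/-- telescoping -/
private theorem tele (hcn : ∀ l ∈ t, IsCn G h l)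
    (hch : t.IsChain (fun l l' => eB h l = eA h l')) :
    ∀ x ∈ t.getLast?, ∀ y ∈ t.head?, (t.map (vec h)).sum = evo (eA h y) + evo (eB h x) := by
  induction t with
  | nil =>
    intro x hx
    simp at hx
  | cons l t ih =>
    intro x hx y hy
    rw [List.head?_cons, Option.mem_some_iff] at hy
    subst hy
    rw [List.map_cons, List.sum_cons, vec_evo (hcn l List.mem_cons_self)]
    cases t with
    | nil =>
      rw [List.getLast?_singleton, Option.mem_some_iff] at hx
      subst hx
      simp
    | cons l' t =>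
      rw [List.isChain_cons_cons] at hch
      have h1 : x ∈ (l' :: t).getLast? := by
        rw [List.getLast?_cons_cons] at hx
        exact hx
      rw [ih (fun z hz => hcn z (List.mem_cons_of_mem l hz)) hch.2 x h1 l' (by simp), ← hch.1]
      have h2 := two_evo (eB h l)
      calc evo (eA h l) + evo (eB h l) + (evo (eB h l) + evo (eB h x)) =
            evo (eA h l) + (evo (eB h l) + evo (eB h l)) + evo (eB h x) := by abel
        _ = _ := by rw [h2, add_zero]

end fin

end cn

variable {V : Type*} [Fintype V] [DecidableEq V] {G : SimpleGraph V}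

/-- piece E : Euler tour -/
theorem euler {m : ℕ} {h : V → Option (Fin m)} {C : Finset (List V)} (hC : Sta G h C)
    (hS : Sp h C) (hne : C.Nonempty) :
    ∃ t : List (List V), t ≠ [] ∧ (∀ l ∈ t, l ∈ C ∨ l.reverse ∈ C) ∧
      (∀ l ∈ C, l ∈ t ∨ l.reverse ∈ t) ∧ t.flatten.Nodup ∧
      t.IsChain (fun l l' => ∃ a b, l.getLast? = some a ∧ l'.head? = some b ∧ h a = h b) ∧
      ∃ a b, t.flatten.getLast? = some a ∧ t.flatten.head? = some b ∧ h a = h b := by
  classical
  -- a longest trail
  obtain ⟨t, ⟨ht, ht0⟩, hmax⟩ := (measure fun t : List (List V) => C.card - t.length).wf.has_min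
    {t | Tr G h C t ∧ t ≠ []} (by
      obtain ⟨l, hl⟩ := hne
      refine ⟨[l], ⟨fun x hx => ?_, ?_, List.isChain_singleton _⟩, by simp⟩
      · rw [List.mem_singleton] at hx
        rw [hx]
        exact Or.inl hl
      · rw [List.flatten_singleton]
        exact (hC.cn l hl).nodup)
  have hmax' : ∀ t' : List (List V), Tr G h C t' → t'.length = t.length + 1 → False := by
    intro t' ht' hlen
    have h1 := hmax t' ⟨ht', by rintro rfl; simp at hlen⟩
    apply h1
    have h2 := ht'.length_le hC
    show C.card - t'.length < C.card - t.length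
    omega
  -- extension of a trail of the same length
  have hext : ∀ t' : List (List V), Tr G h C t' → t'.length = t.length →
      ∀ l ∈ C, ¬ (l ∈ t' ∨ l.reverse ∈ t') → ∀ x ∈ t'.getLast?, eB h x ≠ eA h l ∧ eB h x ≠ eB h l := by
    intro t' ht' hlen l hl hlt x hx
    constructor
    · intro he
      refine hmax' (t' ++ [l]) (ht'.snoc hC hl hlt (Or.inl rfl) fun y hy => ?_) (by simp [hlen])
      rw [Option.mem_def] at hx hy
      rw [hx, Option.some_inj] at hy
      rw [← hy]
      exact he
    · intro he
      refine hmax' (t' ++ [l.reverse]) (ht'.snoc hC hl hlt (Or.inr rfl) fun y hy => ?_) (by simp [hlen])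
      rw [Option.mem_def] at hx hy
      rw [hx, Option.some_inj] at hy
      rw [← hy, eA_reverse]
      exact he
  -- closed
  have hcl : Cl h t := by
    intro x hx y hy
    by_contra hxy
    have h1 := tele (fun l hl => ht.cn hC hl) ht.chain x hx y hy
    have hxm : x ∈ t := List.mem_of_getLast? hx
    have hym : y ∈ t := List.mem_of_head? hy
    obtain ⟨_, j, _, hj, _⟩ := ends' (ht.cn hC hxm)
    obtain ⟨i, _, hi, _, _⟩ := ends' (ht.cn hC hym)
    have hij : i ≠ j := by
      rintro rfl
      exact hxy (hj.trans hi.symm)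
    have h2 : ∑ l ∈ C with (l ∈ t ∨ l.reverse ∈ t), vec h l +
        ∑ l ∈ C with ¬ (l ∈ t ∨ l.reverse ∈ t), vec h l = 0 := by
      rw [Finset.sum_filter_add_sum_filter_not]
      exact hC.even
    rw [ht.used hC, h1, hi, hj] at h2
    have h3 := congrFun h2 j
    simp only [evo, Pi.add_apply, Pi.zero_apply, Finset.sum_apply, Pi.single_eq_same,
      Pi.single_eq_of_ne (Ne.symm hij), zero_add] at h3
    have h4 : ∑ l ∈ C with ¬ (l ∈ t ∨ l.reverse ∈ t), vec h l j ≠ 0 := by
      intro h5
      rw [h5, add_zero] at h3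
      exact one_ne_zero h3
    obtain ⟨l, hl, hlj⟩ := Finset.exists_ne_zero_of_sum_ne_zero h4
    rw [Finset.mem_filter] at hl
    obtain ⟨i', j', hi', hj', hv⟩ := ends' (hC.cn l hl.1)
    obtain ⟨h5, h6⟩ := hext t ht rfl l hl.1 hl.2 x hx
    rw [hj, hi'] at h5
    rw [hj, hj'] at h6
    apply hlj
    rw [hv, Pi.add_apply, Pi.single_eq_of_ne (fun e => h5 (congrArg some e)),
      Pi.single_eq_of_ne (fun e => h6 (congrArg some e)), add_zero]
  -- a rotation ends at every visited hub
  have hrot : ∀ l ∈ t, ∀ z, z = eA h l ∨ z = eB h l → ∃ t' : List (List V), Tr G h C t' ∧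
      t'.length = t.length ∧ (∀ l, l ∈ t' ↔ l ∈ t) ∧ ∃ x ∈ t'.getLast?, eB h x = z := by
    intro l hl z hz
    obtain ⟨t1, t3, rfl⟩ := List.append_of_mem hl
    rcases hz with rfl | rfl
    · obtain ⟨h1, h2⟩ := ht.rot hcl
      refine ⟨(l :: t3) ++ t1, h1, by simp only [List.length_append]; omega, fun x => by
        simp only [List.mem_append]; exact or_comm, ?_⟩
      have h3 : ((l :: t3) ++ t1) ≠ [] := by simp
      refine ⟨_, List.getLast_mem_getLast? h3, ?_⟩
      exact h2 _ (List.getLast_mem_getLast? h3) l (by simp)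
    · have he : t1 ++ l :: t3 = (t1 ++ [l]) ++ t3 := by simp
      have h0 := ht
      have h0' := hcl
      rw [he] at h0 h0'
      obtain ⟨h1, h2⟩ := h0.rot h0'
      refine ⟨t3 ++ (t1 ++ [l]), h1, by simp only [List.length_append, List.length_cons, List.length_nil]; omega,
        fun x => by simp only [List.mem_append, List.mem_cons, List.not_mem_nil, or_false]; tauto, ?_⟩
      refine ⟨l, ?_, rfl⟩
      rw [← List.append_assoc, List.getLast?_append]
      simp
  -- everything is used
  have hall : ∀ l ∈ C, l ∈ t ∨ l.reverse ∈ t := by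
    by_contra hcon
    push Not at hcon
    obtain ⟨l₀, hl₀, hlt₀⟩ := hcon
    -- the visited hubs
    let X : Finset (Fin m) := univ.filter fun i => ∃ l ∈ t, eA h l = some i ∨ eB h l = some i
    have hX : ∀ i, i ∈ X ↔ ∃ l ∈ t, eA h l = some i ∨ eB h l = some i := fun i => by
      simp only [X, Finset.mem_filter, Finset.mem_univ, true_and]
    let φ : (Fin m → ZMod 2) →ₗ[ZMod 2] ZMod 2 :=
      { toFun := fun v => ∑ i ∈ X, v i
        map_add' := fun v w => by simp [Finset.sum_add_distrib]
        map_smul' := fun c v => by simp [Finset.mul_sum] }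
    have hφ1 : ∀ i, φ (Pi.single i 1) = if i ∈ X then 1 else 0 := by
      intro i
      show ∑ k ∈ X, (Pi.single i (1 : ZMod 2) : Fin m → ZMod 2) k = _
      simp only [Pi.single_apply, Finset.sum_ite_eq']
    have hunused : ∀ l ∈ C, ¬ (l ∈ t ∨ l.reverse ∈ t) → ∀ i, (eA h l = some i ∨ eB h l = some i) → i ∉ X := by
      intro l hl hlt i hi hiX
      obtain ⟨l1, hl1, hi1⟩ := (hX i).1 hiX
      obtain ⟨t', ht', hlen, hmem, x, hx, hxe⟩ := hrot l1 hl1 (some i) (by
        rcases hi1 with h1 | h1
        · exact Or.inl h1.symm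
        · exact Or.inr h1.symm)
      obtain ⟨h5, h6⟩ := hext t' ht' hlen l hl (by rw [hmem, hmem]; exact hlt) x hx
      rw [hxe] at h5 h6
      rcases hi with h1 | h1
      · exact h5 h1.symm
      · exact h6 h1.symm
    have hker : ∀ l ∈ C, φ (vec h l) = 0 := by
      intro l hl
      obtain ⟨i, j, hi, hj, hv⟩ := ends' (hC.cn l hl)
      rw [hv, map_add, hφ1, hφ1]
      by_cases hlt : l ∈ t ∨ l.reverse ∈ t
      · have hiX : i ∈ X ∧ j ∈ X := by
          rcases hlt with h1 | h1
          · exact ⟨(hX i).2 ⟨l, h1, Or.inl hi⟩, (hX j).2 ⟨l, h1, Or.inr hj⟩⟩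
          · refine ⟨(hX i).2 ⟨l.reverse, h1, Or.inr ?_⟩, (hX j).2 ⟨l.reverse, h1, Or.inl ?_⟩⟩
            · rw [eB_reverse]
              exact hi
            · rw [eA_reverse]
              exact hj
        rw [if_pos hiX.1, if_pos hiX.2]
        exact CharTwo.add_self_eq_zero _
      · rw [if_neg (hunused l hl hlt i (Or.inl hi)), if_neg (hunused l hl hlt j (Or.inr hj)), add_zero]
    have hspan : ∀ v ∈ Submodule.span (ZMod 2) (vec h '' (C : Set (List V))), φ v = 0 := by
      intro v hv
      have h1 : Submodule.span (ZMod 2) (vec h '' (C : Set (List V))) ≤ LinearMap.ker φ := by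
        rw [Submodule.span_le]
        rintro _ ⟨l, hl, rfl⟩
        exact hker l hl
      exact h1 hv
    obtain ⟨l1, r1, hr1⟩ := List.exists_cons_of_ne_nil ht0
    have hl1 : l1 ∈ t := by
      rw [hr1]
      exact List.mem_cons_self
    obtain ⟨i, _, hi, _, _⟩ := ends' (ht.cn hC hl1)
    obtain ⟨j, _, hj, _, _⟩ := ends' (hC.cn l₀ hl₀)
    have h1 := hspan _ (hS i j)
    rw [map_add, hφ1, hφ1, if_pos ((hX i).2 ⟨l1, hl1, Or.inl hi⟩),
      if_neg (hunused l₀ hl₀ (by rw [not_or]; exact hlt₀) j (Or.inl hj)), add_zero] at h1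
    exact one_ne_zero h1
  -- the conclusion
  have hrel : ∀ l l' : List V, l ∈ t → l' ∈ t → eB h l = eA h l' →
      ∃ a b, l.getLast? = some a ∧ l'.head? = some b ∧ h a = h b := by
    intro l l' hl hl' he
    obtain ⟨_, b, _, _, _, hb, _, _, _⟩ := (ht.cn hC hl).ends
    obtain ⟨a', _, _, _, ha', _, _, _, _⟩ := (ht.cn hC hl').ends
    refine ⟨b, a', hb, ha', ?_⟩
    unfold eA eB at he
    rw [hb, ha'] at he
    exact he
  refine ⟨t, ht0, ht.mem, hall, ht.nodup, ?_, ?_⟩
  · refine ht.chain.imp_of_mem_imp ?_
    intro l l' hl hl' he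
    exact hrel l l' hl hl' he
  · have hx := List.getLast_mem_getLast? ht0
    have hy := List.head_mem_head? ht0
    obtain ⟨a, b, ha, hb, hab⟩ := hrel _ _ (List.getLast_mem ht0) (List.head_mem ht0) (hcl _ hx _ hy)
    refine ⟨a, b, ?_, ?_, hab⟩
    · conv_lhs => rw [← List.dropLast_concat_getLast ht0]
      rw [List.flatten_append, List.flatten_singleton, List.getLast?_append, ha]
      rfl
    · conv_lhs => rw [← List.cons_head_tail ht0]
      rw [List.flatten_cons, List.head?_append, hb]
      rfl

end Pool.Agent.RamH
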