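import Pool.Agent.Lib.MP_078aef_co_h.Defs
import Pool.Agent.Lib.MP_078aef_co_q.Final

/-! The numerical part: the criterion holds in a long initial range and in every interval
`[X, X + X^ε]`. -/

namespace Pool.Agent.RamH

open Finset Pool.Agent.RamseyHam Pool.Agent.RamQ

/-- the criterion -/
def Gd (k s : ℕ) (R : ℕ → ℕ) : Prop :=
  ∃ w, 1 ≤ w ∧ 350 * w ^ 4 ≤ k - 2 ∧ w + 3 ≤ s ∧
    R (s - (w + 1)) + (w + 1) * (3 * (s - 1) ^ 6) < R s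

theorem exists_w {k : ℕ} (hk : 352 ≤ k) :
    ∃ w, 1 ≤ w ∧ 350 * w ^ 4 ≤ k - 2 ∧ k ≤ 625 * (w + 1) ^ 4 := by
  obtain ⟨w, hw⟩ : ∃ w, w = Nat.findGreatest (fun w => 350 * w ^ 4 ≤ k - 2) k := ⟨_, rfl⟩
  have h1 : 350 * w ^ 4 ≤ k - 2 := by
    rw [hw]
    exact Nat.findGreatest_spec (P := fun w => 350 * w ^ 4 ≤ k - 2) (m := 1) (by omega)
      (by norm_num; omega)
  have h2 : 1 ≤ w := by
    rw [hw]
    exact Nat.le_findGreatest (by omega) (by norm_num; omega)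
  refine ⟨w, h2, h1, ?_⟩
  by_contra hc
  push Not at hc
  have h3 : w + 1 ≤ k := by
    have : w + 1 ≤ (w + 1) ^ 4 := Nat.le_self_pow (by norm_num) _
    omega
  have h4 : ¬ 350 * (w + 1) ^ 4 ≤ k - 2 := by
    refine Nat.findGreatest_is_greatest (P := fun w => 350 * w ^ 4 ≤ k - 2) (n := k) ?_ h3
    rw [← hw]
    omega
  have h5 : 1 ≤ (w + 1) ^ 4 := Nat.one_le_pow _ _ (by omega)
  omega

theorem w_le {k w : ℕ} (hw : 1 ≤ w) (h : 350 * w ^ 4 ≤ k - 2) : w + 3 ≤ k := by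
  have : w ≤ w ^ 4 := Nat.le_self_pow (by norm_num) _
  omega

theorem pow_five {W : ℕ} (hW : 50 ≤ W) : (3 * W) ^ 5 ≤ 2 ^ W := by
  induction W, hW using Nat.le_induction with
  | base => norm_num
  | succ n hn ih =>
    have h1 : (3 * (n + 1)) ^ 5 ≤ 2 * (3 * n) ^ 5 := by
      have h2 : 10 * (n + 1) ≤ 11 * n := by omega
      have h3 : (10 * (n + 1)) ^ 5 ≤ (11 * n) ^ 5 := Nat.pow_le_pow_left h2 5
      have h4 : (10 * (n + 1)) ^ 5 = 100000 * (n + 1) ^ 5 := by ring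
      have h5 : (11 * n) ^ 5 = 161051 * n ^ 5 := by ring
      have h6 : (3 * (n + 1)) ^ 5 = 243 * (n + 1) ^ 5 := by ring
      have h7 : (3 * n) ^ 5 = 243 * n ^ 5 := by ring
      omega
    calc (3 * (n + 1)) ^ 5 ≤ 2 * (3 * n) ^ 5 := h1
      _ ≤ 2 * 2 ^ n := Nat.mul_le_mul_left _ ih
      _ = 2 ^ (n + 1) := by ring

/-- the exponential lower bound in a window of length `w + 1` -/
theorem range_core {k s w : ℕ} (hw : 49 ≤ w) (hk : 350 * w ^ 4 ≤ k - 2) (hks : k ≤ s)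
    (hs : s ^ 20 ≤ 2 ^ (w + 1)) {R : ℕ → ℕ} (hR : ∀ p, 2 ≤ p → IsRam k p (R p)) :
    Gd k s R := by
  have hwk := w_le (by omega) hk
  refine ⟨w, by omega, hk, by omega, ?_⟩
  obtain ⟨H, hH1, hH2⟩ := erdos (w + 2) (2 ^ ((w + 2) / 2)) (by omega) (by
    rw [← pow_mul]
    exact Nat.pow_le_pow_right (by norm_num) (by omega))
  have h1 := (hR (w + 2) (by omega)).card_lt (H := H) ⟨hH1.mono (by omega), hH2⟩
  rw [Fintype.card_fin] at h1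
  have h2 := glueR (k := k) (by omega) R hR (show 2 ≤ s - (w + 1) by omega)
    (show 2 ≤ w + 2 by omega)
  rw [show s - (w + 1) + (w + 2) - 1 = s by omega] at h2
  have h3 : (w + 1) * (3 * (s - 1) ^ 6) ≤ 2 ^ ((w + 2) / 2) := by
    have h4 : (w + 1) * (3 * (s - 1) ^ 6) ≤ 3 * (w + 1) * s ^ 6 := by
      calc (w + 1) * (3 * (s - 1) ^ 6) = 3 * (w + 1) * (s - 1) ^ 6 := by ring
        _ ≤ 3 * (w + 1) * s ^ 6 :=
          Nat.mul_le_mul_left _ (Nat.pow_le_pow_left (by omega) 6)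
    refine h4.trans ?_
    refine (Nat.pow_le_pow_iff_left (n := 10) (by norm_num)).1 ?_
    calc (3 * (w + 1) * s ^ 6) ^ 10 = ((3 * (w + 1)) ^ 5) ^ 2 * (s ^ 20) ^ 3 := by ring
      _ ≤ (2 ^ (w + 1)) ^ 2 * (2 ^ (w + 1)) ^ 3 :=
        Nat.mul_le_mul (Nat.pow_le_pow_left (pow_five (by omega)) 2) (Nat.pow_le_pow_left hs 3)
      _ = 2 ^ ((w + 1) * 5) := by rw [← pow_add, ← pow_mul]
      _ ≤ 2 ^ ((w + 2) / 2 * 10) := Nat.pow_le_pow_right (by norm_num) (by omega)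
      _ = (2 ^ ((w + 2) / 2)) ^ 10 := by rw [pow_mul]
  omega

theorem quarter {k : ℕ} {x : ℝ} (hx : 0 ≤ x) (h : (k : ℝ) ≤ x ^ 4) :
    (k : ℝ) ^ (1 / 4 : ℝ) ≤ x := by
  have h1 : (1 / 4 : ℝ) = (4 : ℝ)⁻¹ := by norm_num
  rw [h1, Real.rpow_inv_le_iff_of_pos (Nat.cast_nonneg k) hx (by norm_num)]
  have h2 : x ^ (4 : ℝ) = x ^ 4 := by
    rw [← Real.rpow_natCast]
    norm_num
  rw [h2]
  exact h

/-- piece N1 with an explicit constant -/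
theorem num_range_explicit : ∀ k s : ℕ, 3906250000 ≤ k → k ≤ s →
    (s : ℝ) ≤ 2 ^ ((1 / 100 : ℝ) * (k : ℝ) ^ (1 / 4 : ℝ)) →
    ∀ R : ℕ → ℕ, (∀ p, 2 ≤ p → IsRam k p (R p)) → Gd k s R := by
  intro k s hk hks hs R hR
  obtain ⟨w, hw1, hw2, hw3⟩ := exists_w (k := k) (by omega)
  have hw : 49 ≤ w := by
    by_contra hc
    have h1 : (w + 1) ^ 4 ≤ 49 ^ 4 := Nat.pow_le_pow_left (by omega) 4
    norm_num at h1
    omega
  refine range_core hw hw2 hks ?_ hR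
  have h1 : (k : ℝ) ^ (1 / 4 : ℝ) ≤ 5 * ((w : ℝ) + 1) := by
    refine quarter (by positivity) ?_
    have h2 : (k : ℝ) ≤ 625 * ((w : ℝ) + 1) ^ 4 := by exact_mod_cast hw3
    linarith [show (5 * ((w : ℝ) + 1)) ^ 4 = 625 * ((w : ℝ) + 1) ^ 4 by ring]
  have h2 : (s : ℝ) ≤ 2 ^ (((w : ℝ) + 1) / 20) := by
    refine hs.trans ?_
    refine Real.rpow_le_rpow_of_exponent_le (by norm_num) ?_
    linarith
  have h3 : (s : ℝ) ^ 20 ≤ (2 : ℝ) ^ (w + 1) := by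
    refine (pow_le_pow_left₀ (Nat.cast_nonneg s) h2 20).trans (le_of_eq ?_)
    rw [← Real.rpow_natCast, ← Real.rpow_natCast, ← Real.rpow_mul (by norm_num)]
    congr 1
    push_cast
    ring
  exact_mod_cast h3

/-- piece N1 -/
theorem num_range : ∃ c : ℝ, 0 < c ∧ ∃ k₀ : ℕ, ∀ k s : ℕ, k₀ ≤ k → k ≤ s →
    (s : ℝ) ≤ 2 ^ (c * (k : ℝ) ^ (1 / 4 : ℝ)) →
    ∀ R : ℕ → ℕ, (∀ p, 2 ≤ p → IsRam k p (R p)) → Gd k s R :=
  ⟨1 / 100, by norm_num, 3906250000, num_range_explicit⟩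

/-- `L` windows in a row -/
theorem gap_core {k w L m X : ℕ} (hw : 1 ≤ w) (hk : 350 * w ^ 4 ≤ k - 2) {R : ℕ → ℕ}
    (hR : ∀ p, 2 ≤ p → IsRam k p (R p)) (hX : k ≤ X) (hm : 1 ≤ m)
    (hy : 2 ^ m * (m * (k - 1)) ≤ L * (w + 1)) (hyX : L * (w + 1) ≤ X)
    (hN : 3 * (L * (w + 1)) * (2 * X) ^ 6 ≤ 2 ^ (m * (k - 1) / 2)) :
    ∃ j, 1 ≤ j ∧ j ≤ L ∧ Gd k (X + j * (w + 1)) R := by
  have hwk := w_le hw hk
  by_contra hcon
  push Not at hcon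
  have hstep : ∀ j, j ≤ L → R (X + j * (w + 1)) ≤ R X + j * ((w + 1) * (3 * (2 * X) ^ 6)) := by
    intro j
    induction j with
    | zero => intro _; simp
    | succ j ih =>
      intro hj
      have h1 := ih (by omega)
      have h2 := hcon (j + 1) (by omega) hj
      have h3 : ¬ (R (X + (j + 1) * (w + 1) - (w + 1)) +
          (w + 1) * (3 * (X + (j + 1) * (w + 1) - 1) ^ 6) < R (X + (j + 1) * (w + 1))) := by
        intro h3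
        exact h2 ⟨w, hw, hk, by omega, h3⟩
      have h4 : X + (j + 1) * (w + 1) - (w + 1) = X + j * (w + 1) := by
        rw [add_mul, one_mul]
        omega
      rw [h4] at h3
      have h5 : (j + 1) * (w + 1) ≤ L * (w + 1) := Nat.mul_le_mul_right _ hj
      have h6 : (w + 1) * (3 * (X + (j + 1) * (w + 1) - 1) ^ 6) ≤
          (w + 1) * (3 * (2 * X) ^ 6) :=
        Nat.mul_le_mul_left _ (Nat.mul_le_mul_left _ (Nat.pow_le_pow_left (by omega) 6))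
      have h7 : (j + 1) * ((w + 1) * (3 * (2 * X) ^ 6)) =
          j * ((w + 1) * (3 * (2 * X) ^ 6)) + (w + 1) * (3 * (2 * X) ^ 6) := by ring
      omega
  have hL := hstep L le_rfl
  have hy1 : 1 ≤ L * (w + 1) := by
    refine le_trans ?_ hy
    exact Nat.mul_pos (by positivity) (Nat.mul_pos hm (by omega))
  obtain ⟨H, hH1, hH2⟩ := rand (k := k) (m := m) (N := 2 ^ (m * (k - 1) / 2)) (by omega) hm (by
    rw [← pow_mul]
    exact Nat.pow_le_pow_right (by norm_num) (by omega))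
  have h1 := (hR (L * (w + 1) + 1) (by omega)).card_lt (H := H) ⟨hH1, hH2.mono (by omega)⟩
  rw [Fintype.card_fin] at h1
  have h2 := glueR (k := k) (by omega) R hR (show 2 ≤ X by omega)
    (show 2 ≤ L * (w + 1) + 1 by omega)
  rw [show X + (L * (w + 1) + 1) - 1 = X + L * (w + 1) by omega] at h2
  have h3 : L * ((w + 1) * (3 * (2 * X) ^ 6)) = 3 * (L * (w + 1)) * (2 * X) ^ 6 := by ring
  omega

/-- exponentials beat polynomials -/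
theorem exp_poly {δ : ℝ} (hδ : 0 < δ) : ∃ ℓ₀ : ℕ, ∀ ℓ : ℕ, ℓ₀ ≤ ℓ →
    1200000000 * (ℓ : ℝ) ^ 4 ≤ 2 ^ (2 * δ / 3 * ℓ) := by
  have hr : (1 : ℝ) < 2 ^ (2 * δ / 3) := Real.one_lt_rpow (by norm_num) (by positivity)
  have h1 := tendsto_pow_const_div_const_pow_of_one_lt 4 hr
  have h2 := (h1.eventually (gt_mem_nhds (show (0 : ℝ) < 1 / 1200000000 by norm_num)))
  obtain ⟨ℓ₀, h3⟩ := Filter.eventually_atTop.1 h2
  refine ⟨ℓ₀, fun ℓ hℓ => ?_⟩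
  have h4 := h3 ℓ hℓ
  rw [div_lt_iff₀ (by positivity)] at h4
  rw [Real.rpow_mul (by norm_num), Real.rpow_natCast]
  linarith

/-- the choice of the parameters -/
theorem gap_num {ε : ℝ} (h0 : 0 < ε) (h1 : ε ≤ 1) : ∃ k₀ : ℕ, ∀ k : ℕ, k₀ ≤ k → ∀ X : ℕ,
    k ≤ X → (2 : ℝ) ^ ((1 / 100 : ℝ) * (k : ℝ) ^ (1 / 4 : ℝ)) < X → ∀ b : ℕ, 1 ≤ b → b ≤ k →
    ∃ m L : ℕ, 1 ≤ m ∧ 2 ^ m * (m * (k - 1)) ≤ L * b ∧ ((L * b : ℕ) : ℝ) ≤ (X : ℝ) ^ ε ∧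
      L * b ≤ X ∧ 3 * (L * b) * (2 * X) ^ 6 ≤ 2 ^ (m * (k - 1) / 2) := by
  obtain ⟨ℓ₀, hℓ₀⟩ := exp_poly h0
  refine ⟨max ((100 * ℓ₀) ^ 4) (max (⌈42 / ε⌉₊ + 1) 18), ?_⟩
  intro k hk X hkX hX b hb1 hbk
  have hk1 : (100 * ℓ₀) ^ 4 ≤ k := (le_max_left _ _).trans hk
  have hk2 : ⌈42 / ε⌉₊ + 1 ≤ k := ((le_max_left _ _).trans (le_max_right _ _)).trans hk
  have hk3 : 18 ≤ k := ((le_max_right _ _).trans (le_max_right _ _)).trans hk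
  obtain ⟨ℓ, hℓ⟩ : ∃ ℓ, ℓ = Nat.clog 2 X := ⟨_, rfl⟩
  have hXℓ : X ≤ 2 ^ ℓ := by
    rw [hℓ]
    exact Nat.le_pow_clog (by norm_num) X
  have hℓX : 2 ^ (ℓ - 1) < X := by
    rw [hℓ]
    exact Nat.pow_pred_clog_lt_self (by norm_num) (by omega)
  have hℓ1 : 1 ≤ ℓ := by
    by_contra hc
    have : ℓ = 0 := by omega
    rw [this, pow_zero] at hXℓ
    omega
  -- `k` is at most polylogarithmic
  have hkℓ : (k : ℝ) < (100 * (ℓ : ℝ)) ^ 4 := by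
    by_contra hc
    push Not at hc
    have h2 : 100 * (ℓ : ℝ) ≤ (k : ℝ) ^ (1 / 4 : ℝ) := by
      have h3 : (1 / 4 : ℝ) = (4 : ℝ)⁻¹ := by norm_num
      rw [h3, Real.le_rpow_inv_iff_of_pos (by positivity) (Nat.cast_nonneg k) (by norm_num)]
      have h2 : (100 * (ℓ : ℝ)) ^ (4 : ℝ) = (100 * (ℓ : ℝ)) ^ 4 := by
        rw [← Real.rpow_natCast]
        norm_num
      rw [h2]
      exact hc
    have h3 : (2 : ℝ) ^ (ℓ : ℝ) ≤ 2 ^ ((1 / 100 : ℝ) * (k : ℝ) ^ (1 / 4 : ℝ)) := by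
      refine Real.rpow_le_rpow_of_exponent_le (by norm_num) ?_
      linarith
    have h4 : (X : ℝ) ≤ (2 : ℝ) ^ (ℓ : ℝ) := by
      rw [Real.rpow_natCast]
      exact_mod_cast hXℓ
    linarith
  have hℓ0 : ℓ₀ ≤ ℓ := by
    by_contra hc
    have h2 : ((100 * ℓ) ^ 4 : ℕ) ≤ (100 * ℓ₀) ^ 4 := Nat.pow_le_pow_left (by omega) 4
    have h3 : k < (100 * ℓ) ^ 4 := by exact_mod_cast hkℓ
    omega
  have hbig := hℓ₀ ℓ hℓ0
  have hℓr : (1 : ℝ) ≤ ℓ := by exact_mod_cast hℓ1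
  -- the number of colours
  obtain ⟨m, hm⟩ : ∃ m, m = (14 * ℓ + 16) / (k - 1) + 1 := ⟨_, rfl⟩
  obtain ⟨M, hM⟩ : ∃ M, M = m * (k - 1) := ⟨_, rfl⟩
  have hM1 : 14 * ℓ + 17 ≤ M := by
    have h2 : 14 * ℓ + 16 < (k - 1) * ((14 * ℓ + 16) / (k - 1) + 1) :=
      Nat.lt_mul_div_succ _ (by omega)
    have h3 : M = (k - 1) * ((14 * ℓ + 16) / (k - 1) + 1) := by rw [hM, hm, mul_comm]
    omega
  have hM2 : M ≤ 14 * ℓ + 16 + (k - 1) := by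
    have h2 : (k - 1) * ((14 * ℓ + 16) / (k - 1)) ≤ 14 * ℓ + 16 := Nat.mul_div_le _ _
    have h3 : M = (k - 1) * ((14 * ℓ + 16) / (k - 1)) + (k - 1) := by rw [hM, hm]; ring
    omega
  have h2m : (2 : ℝ) ^ m ≤ 4 * 2 ^ (ε / 3 * ℓ) := by
    have hkε : 42 / ε ≤ ((k - 1 : ℕ) : ℝ) := by
      refine (Nat.le_ceil _).trans ?_
      exact_mod_cast (by omega : ⌈42 / ε⌉₊ ≤ k - 1)
    have hk16 : (16 : ℝ) ≤ ((k - 1 : ℕ) : ℝ) := by exact_mod_cast (by omega : 16 ≤ k - 1)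
    have hk0 : (0 : ℝ) < ((k - 1 : ℕ) : ℝ) := by linarith
    have h3 : (m : ℝ) ≤ ε / 3 * ℓ + 2 := by
      have h4 : (((14 * ℓ + 16) / (k - 1) : ℕ) : ℝ) ≤ ((14 * ℓ + 16 : ℕ) : ℝ) / ((k - 1 : ℕ) : ℝ) :=
        Nat.cast_div_le
      have h5 : ((14 * ℓ + 16 : ℕ) : ℝ) / ((k - 1 : ℕ) : ℝ) ≤ ε / 3 * ℓ + 1 := by
        rw [div_le_iff₀ hk0]
        push_cast
        have h6 : 42 ≤ ε * ((k - 1 : ℕ) : ℝ) := by
          rw [div_le_iff₀ h0] at hkε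
          linarith
        have h7 := mul_le_mul_of_nonneg_right h6 (show 0 ≤ (ℓ : ℝ) / 3 by positivity)
        have h8 : (ε / 3 * ℓ + 1) * ((k - 1 : ℕ) : ℝ) =
            ε * ((k - 1 : ℕ) : ℝ) * (ℓ / 3) + ((k - 1 : ℕ) : ℝ) := by ring
        rw [h8]
        linarith
      rw [hm]
      push_cast at h4 ⊢
      push_cast at h5
      linarith
    calc (2 : ℝ) ^ m = 2 ^ (m : ℝ) := (Real.rpow_natCast _ _).symm
      _ ≤ 2 ^ (ε / 3 * ℓ + 2) := Real.rpow_le_rpow_of_exponent_le (by norm_num) h3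
      _ = 4 * 2 ^ (ε / 3 * ℓ) := by
        rw [Real.rpow_add (by norm_num)]
        norm_num
        ring
  obtain ⟨L, hL⟩ : ∃ L, L = 2 ^ m * M / b + 1 := ⟨_, rfl⟩
  have hL1 : 2 ^ m * M ≤ L * b := by
    have h2 : 2 ^ m * M < b * (2 ^ m * M / b + 1) := Nat.lt_mul_div_succ _ (by omega)
    rw [hL, mul_comm (2 ^ m * M / b + 1)]
    exact h2.le
  have hL2 : L * b ≤ 2 ^ m * M + b := by
    have h2 : b * (2 ^ m * M / b) ≤ 2 ^ m * M := Nat.mul_div_le _ _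
    rw [hL, add_mul, one_mul, mul_comm (2 ^ m * M / b)]
    omega
  have hLb : ((L * b : ℕ) : ℝ) ≤ (X : ℝ) ^ ε := by
    have h3 : ((L * b : ℕ) : ℝ) ≤ 2 ^ m * (M : ℝ) + b := by exact_mod_cast hL2
    have hE : (1 : ℝ) ≤ 2 ^ (ε / 3 * ℓ) := Real.one_le_rpow (by norm_num) (by positivity)
    have hkk : (k : ℝ) ≤ 100000000 * (ℓ : ℝ) ^ 4 := by
      refine hkℓ.le.trans (le_of_eq ?_)
      ring
    have hl4 : (ℓ : ℝ) ≤ (ℓ : ℝ) ^ 4 := le_self_pow₀ hℓr (by norm_num)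
    have hM3 : (M : ℝ) ≤ 100000030 * (ℓ : ℝ) ^ 4 := by
      have h4 : (M : ℝ) ≤ 14 * ℓ + 16 + ((k - 1 : ℕ) : ℝ) := by exact_mod_cast hM2
      have h5 : ((k - 1 : ℕ) : ℝ) ≤ k := by exact_mod_cast (by omega : k - 1 ≤ k)
      linarith
    have hbk' : (b : ℝ) ≤ k := by exact_mod_cast hbk
    have h4 : (2 : ℝ) ^ m * M ≤ 4 * 2 ^ (ε / 3 * ℓ) * (100000030 * (ℓ : ℝ) ^ 4) :=
      mul_le_mul h2m hM3 (Nat.cast_nonneg M) (by positivity)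
    have h5 : (b : ℝ) ≤ 2 ^ (ε / 3 * ℓ) * (100000000 * (ℓ : ℝ) ^ 4) := by
      have h6 : 0 ≤ 100000000 * (ℓ : ℝ) ^ 4 := by positivity
      nlinarith
    have h6 : ((L * b : ℕ) : ℝ) ≤ 600000000 * (ℓ : ℝ) ^ 4 * 2 ^ (ε / 3 * ℓ) := by
      have h7 : 0 ≤ (ℓ : ℝ) ^ 4 * 2 ^ (ε / 3 * ℓ) := by positivity
      nlinarith
    have h7 : (2 : ℝ) ^ (ℓ : ℝ) / 2 ≤ X := by
      have h8 : (2 : ℝ) ^ (ℓ - 1) ≤ X := by exact_mod_cast hℓX.le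
      have h9 : (2 : ℝ) ^ (ℓ : ℝ) = 2 ^ (ℓ - 1) * 2 := by
        rw [Real.rpow_natCast, ← pow_succ]
        congr 1
        omega
      rw [h9]
      linarith
    have h8 : (2 : ℝ) ^ (ε * ℓ) / 2 ≤ (X : ℝ) ^ ε := by
      have h9 := Real.rpow_le_rpow (by positivity) h7 h0.le
      rw [Real.div_rpow (by positivity) (by norm_num), ← Real.rpow_mul (by norm_num)] at h9
      have h10 : (2 : ℝ) ^ ε ≤ 2 := by
        have := Real.rpow_le_rpow_of_exponent_le (show (1 : ℝ) ≤ 2 by norm_num) h1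
        rwa [Real.rpow_one] at this
      refine le_trans ?_ h9
      rw [mul_comm ε]
      exact div_le_div_of_nonneg_left (by positivity) (by positivity) h10
    refine h6.trans (le_trans ?_ h8)
    have h9 : (2 : ℝ) ^ (ε * ℓ) = 2 ^ (2 * ε / 3 * ℓ) * 2 ^ (ε / 3 * ℓ) := by
      rw [← Real.rpow_add (by norm_num)]
      congr 1
      ring
    rw [h9, le_div_iff₀ (by norm_num)]
    have h10 : 0 ≤ (2 : ℝ) ^ (ε / 3 * ℓ) := by positivity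
    nlinarith
  have hLX : L * b ≤ X := by
    have h3 : (X : ℝ) ^ ε ≤ X := by
      have h4 : (1 : ℝ) ≤ X := by exact_mod_cast (by omega : 1 ≤ X)
      have := Real.rpow_le_rpow_of_exponent_le h4 h1
      rwa [Real.rpow_one] at this
    exact_mod_cast hLb.trans h3
  refine ⟨m, L, by rw [hm]; exact Nat.le_add_left 1 _, by rw [← hM]; exact hL1, hLb, hLX, ?_⟩
  rw [← hM]
  calc 3 * (L * b) * (2 * X) ^ 6 ≤ 3 * X * (2 * X) ^ 6 :=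
        Nat.mul_le_mul_right _ (Nat.mul_le_mul_left _ hLX)
    _ = 192 * X ^ 7 := by ring
    _ ≤ 256 * (2 ^ ℓ) ^ 7 := Nat.mul_le_mul (by norm_num) (Nat.pow_le_pow_left hXℓ 7)
    _ = 2 ^ (7 * ℓ + 8) := by rw [pow_add, ← pow_mul]; ring
    _ ≤ 2 ^ (M / 2) := Nat.pow_le_pow_right (by norm_num) (by omega)

/-- piece N2 -/
theorem num_gap (ε : ℝ) (hε : 0 < ε) : ∃ k₀ : ℕ, ∀ k : ℕ, k₀ ≤ k →
    ∀ R : ℕ → ℕ, (∀ p, 2 ≤ p → IsRam k p (R p)) →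
    ∀ X : ℕ, k ≤ X → ∃ s : ℕ, X ≤ s ∧ (s : ℝ) ≤ X + (X : ℝ) ^ ε ∧ Gd k s R := by
  obtain ⟨k₁, hk₁⟩ := gap_num (lt_min hε one_pos) (min_le_right ε 1)
  refine ⟨max k₁ 3906250000, ?_⟩
  intro k hk R hR X hX
  have h1 : k₁ ≤ k := (le_max_left _ _).trans hk
  have h2 : 3906250000 ≤ k := (le_max_right _ _).trans hk
  rcases le_or_gt (X : ℝ) ((2 : ℝ) ^ ((1 / 100 : ℝ) * (k : ℝ) ^ (1 / 4 : ℝ))) with h3 | h3
  · refine ⟨X, le_rfl, ?_, num_range_explicit k X h2 hX h3 R hR⟩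
    have : 0 ≤ (X : ℝ) ^ ε := by positivity
    linarith
  · obtain ⟨w, hw1, hw2, hw3⟩ := exists_w (k := k) (by omega)
    have hwk := w_le hw1 hw2
    obtain ⟨m, L, hm, hL1, hL2, hL3, hL4⟩ := hk₁ k h1 X hX h3 (w + 1) (by omega) (by omega)
    obtain ⟨j, hj1, hj2, hj3⟩ := gap_core hw1 hw2 hR hX hm hL1 hL3 hL4
    refine ⟨X + j * (w + 1), Nat.le_add_right _ _, ?_, hj3⟩
    have h4 : ((j * (w + 1) : ℕ) : ℝ) ≤ ((L * (w + 1) : ℕ) : ℝ) := by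
      exact_mod_cast Nat.mul_le_mul_right _ hj2
    have h5 : (X : ℝ) ^ (min ε 1) ≤ (X : ℝ) ^ ε :=
      Real.rpow_le_rpow_of_exponent_le (by exact_mod_cast (by omega : 1 ≤ X)) (min_le_left _ _)
    have h6 : ((X + j * (w + 1) : ℕ) : ℝ) = X + ((j * (w + 1) : ℕ) : ℝ) := by push_cast; ring
    rw [h6]
    linarith

end Pool.Agent.RamH
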