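import Pool.Agent.Lib.MP_078aef_co_h.Defs
import Pool.Agent.Lib.MP_078aef_co_q.Final

/-! Ramsey-critical graphs are tough, and have few vertices of low degree (pieces R1, R2). -/

namespace Pool.Agent.RamH

open Finset Pool.Agent.RamseyHam Pool.Agent.RamQ

/-- the Ramsey numbers increase -/
private theorem ram_mono {k p q : ℕ} {R : ℕ → ℕ} (hR : ∀ p, 2 ≤ p → IsRam k p (R p))
    (hp : 2 ≤ p) (hpq : p ≤ q) : R p ≤ R q := by
  obtain ⟨H, hH⟩ := (hR p hp).lower
  have h1 := (hR q (hp.trans hpq)).card_lt (hH.mono hpq)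
  have h2 := (hR p hp).pos
  rw [Fintype.card_fin] at h1
  omega

/-- a set of vertices with independence number `a` has fewer than `R(k, a+1)` vertices -/
private theorem card_lt_ram {V : Type*} [Fintype V] [DecidableEq V] {G : SimpleGraph V} {k s : ℕ}
    {R : ℕ → ℕ} (h : Crit k s G R) {D : Finset V} (hD : D.Nonempty) :
    D.card + 1 ≤ R (al G D + 1) := by
  have hKS : KS k (al G D + 1) (SimpleGraph.comap (Subtype.val : {x // x ∈ D} → V) G) := by
    refine ⟨h.ks.1.comap (SimpleGraph.Embedding.comap ⟨_, Subtype.val_injective⟩ G).isContained,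
      ?_⟩
    intro Q hQ
    have hQD : Q.map ⟨Subtype.val, Subtype.val_injective⟩ ⊆ D := by
      intro x hx
      obtain ⟨y, hy, rfl⟩ := mem_map.mp hx
      exact y.2
    have hind : Ind G (Q.map ⟨Subtype.val, Subtype.val_injective⟩) := by
      apply ind_of_clique
      intro x hx y hy hxy
      simp only [coe_map, Function.Embedding.coeFn_mk, Set.mem_image, mem_coe] at hx hy
      obtain ⟨x', hx', rfl⟩ := hx
      obtain ⟨y', hy', rfl⟩ := hy
      have h1 := hQ.isClique hx' hy' (fun h => hxy (by rw [h]))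
      rw [SimpleGraph.compl_adj] at h1 ⊢
      exact ⟨hxy, fun h => h1.2 h⟩
    have h1 := hind.card_le_al hQD
    rw [card_map, hQ.card_eq] at h1
    omega
  have h1 := al_pos (G := G) hD
  have h2 := (h.ram (al G D + 1) (by omega)).card_lt hKS
  simp only [Fintype.card_coe] at h2
  omega

/-- the gluing inequality for several parts -/
private theorem parts_le {V : Type*} [Fintype V] [DecidableEq V] {G : SimpleGraph V} {k s : ℕ}
    {R : ℕ → ℕ} (h : Crit k s G R) (hk : 2 ≤ k) {ι : Type*} [DecidableEq ι]
    (P : ι → Finset V) (hne : ∀ i, (P i).Nonempty) (hd : ∀ i j, i ≠ j → Disjoint (P i) (P j))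
    (hno : ∀ i j, i ≠ j → Non G (P i) (P j)) (J : Finset ι) (hJ : J.Nonempty) :
    ∑ i ∈ J, (P i).card + (k - 2) * (J.card - 1) + 1 ≤ R (al G (J.biUnion P) + 1) := by
  induction hJ using Finset.Nonempty.cons_induction with
  | singleton i =>
    rw [sum_singleton, card_singleton, singleton_biUnion]
    have h1 := card_lt_ram h (hne i)
    simpa using h1
  | cons i J hi hJ ih =>
    rw [sum_cons, card_cons, cons_eq_insert, biUnion_insert]
    have h1 := card_lt_ram h (hne i)
    have hne2 : (J.biUnion P).Nonempty := by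
      obtain ⟨j, hj⟩ := hJ
      obtain ⟨v, hv⟩ := hne j
      exact ⟨v, mem_biUnion.mpr ⟨j, hj, hv⟩⟩
    have h2 := al_pos (G := G) (hne i)
    have h3 := al_pos (G := G) hne2
    have h4 := glueR hk R h.ram (show 2 ≤ al G (P i) + 1 by omega)
      (show 2 ≤ al G (J.biUnion P) + 1 by omega)
    have h5 : al G (P i) + al G (J.biUnion P) ≤ al G (P i ∪ J.biUnion P) := by
      refine al_add_le subset_union_left subset_union_right ?_ ?_
      · rw [disjoint_biUnion_right]
        intro j hj
        exact hd i j (fun h => hi (h ▸ hj))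
      · intro x hx y hy
        obtain ⟨j, hj, hyj⟩ := mem_biUnion.mp hy
        exact hno i j (fun h => hi (h ▸ hj)) x hx y hyj
    have h6 : R (al G (P i) + 1 + (al G (J.biUnion P) + 1) - 1) ≤
        R (al G (P i ∪ J.biUnion P) + 1) := ram_mono h.ram (by omega) (by omega)
    have h7 : 1 ≤ J.card := hJ.card_pos
    have h8 : (k - 2) * (J.card + 1 - 1) = (k - 2) * (J.card - 1) + (k - 2) := by
      obtain ⟨c, hc⟩ : ∃ c, J.card = c + 1 := ⟨J.card - 1, by omega⟩
      rw [hc]
      simp only [Nat.add_sub_cancel]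
      ring
    omega

/-- piece R1 : a critical graph is tough -/
theorem crit_tough {V : Type*} [Fintype V] [DecidableEq V] {G : SimpleGraph V} {k s : ℕ}
    {R : ℕ → ℕ} (h : Crit k s G R) (hk : 2 ≤ k) (hs : 2 ≤ s) : Tough G (k - 2) := by
  intro c X P hne hd hno hcov
  have h1 := parts_le h hk P hne hd hno univ univ_nonempty
  rw [card_univ, Fintype.card_fin, Nat.add_sub_cancel] at h1
  have h2 : al G ((univ : Finset (Fin (c + 1))).biUnion P) + 1 ≤ s := by
    have h3 : al G ((univ : Finset (Fin (c + 1))).biUnion P) ≤ s - 1 := al_le h.ind_le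
    omega
  have h3 : (univ.biUnion P : Finset V).Nonempty := by
    obtain ⟨v, hv⟩ := hne 0
    exact ⟨v, mem_biUnion.mpr ⟨0, mem_univ _, hv⟩⟩
  have h4 := al_pos (G := G) h3
  have h5 := ram_mono h.ram (show 2 ≤ al G ((univ : Finset (Fin (c + 1))).biUnion P) + 1 by omega)
    h2
  have h6 : Fintype.card V ≤ X.card + ∑ i, (P i).card := by
    have h7 : (univ : Finset V) ⊆ X ∪ univ.biUnion P := by
      intro v _
      rcases hcov v with hv | ⟨i, hi⟩
      · exact mem_union_left _ hv
      · exact mem_union_right _ (mem_biUnion.mpr ⟨i, mem_univ _, hi⟩)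
    calc Fintype.card V = (univ : Finset V).card := card_univ.symm
      _ ≤ (X ∪ univ.biUnion P).card := card_le_card h7
      _ ≤ X.card + (univ.biUnion P).card := card_union_le _ _
      _ ≤ X.card + ∑ i, (P i).card := Nat.add_le_add_left card_biUnion_le _
  have h7 := h.crit
  omega

/-- piece R2 : a jump of the Ramsey numbers in a short window -/
theorem crit_window {V : Type*} [Fintype V] [DecidableEq V] {G : SimpleGraph V} {k s b D : ℕ}
    {R : ℕ → ℕ} (h : Crit k s G R) (hk : 2 ≤ k) (hb : 1 ≤ b) (hbs : b + 2 ≤ s)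
    (hjump : R (s - b) + b * D < R s) {I : Finset V} (hI : Ind G I)
    (hdeg : ∀ v ∈ I, (nb G v).card < D) : I.card < b := by
  by_contra hcon
  obtain ⟨I', hI', hcard⟩ := exists_subset_card_eq (not_lt.mp hcon)
  have hI'i : Ind G I' := hI.mono hI'
  set N : Finset V := I'.biUnion (fun v => insert v (nb G v)) with hN
  set U : Finset V := univ \ N with hU
  have hNcard : N.card ≤ b * D := by
    rw [← hcard]
    refine card_biUnion_le_card_mul _ _ _ fun v hv => ?_
    have h1 := hdeg v (hI' hv)
    have h2 := card_insert_le v (nb G v)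
    omega
  have hUcard : Fintype.card V ≤ U.card + b * D := by
    have h1 : U.card = Fintype.card V - N.card := by
      rw [hU, card_sdiff_of_subset (subset_univ _), card_univ]
    omega
  have hfar : ∀ v ∈ I', ∀ x ∈ U, v ≠ x ∧ ¬ G.Adj v x := by
    intro v hv x hx
    have h1 : x ∉ N := (mem_sdiff.mp hx).2
    constructor
    · rintro rfl
      exact h1 (mem_biUnion.mpr ⟨v, hv, mem_insert_self _ _⟩)
    · intro h
      exact h1 (mem_biUnion.mpr ⟨v, hv, mem_insert_of_mem (mem_nb.mpr h)⟩)
  have hal : al G U + b ≤ s - 1 := by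
    obtain ⟨Q, hQU, hQ, hQc⟩ := exists_al G U
    have hdis : Disjoint I' Q := by
      rw [disjoint_left]
      intro x hx hx'
      exact (hfar x hx x (hQU hx')).1 rfl
    have h1 := h.ind_le _ (hI'i.union hQ fun x hx y hy => (hfar x hx y (hQU hy)).2)
    rw [card_union_of_disjoint hdis, hcard, hQc] at h1
    omega
  have h1 : U.card + 1 ≤ R (s - b) := by
    rcases U.eq_empty_or_nonempty with hUe | hUne
    · have h2 := (h.ram (s - b) (by omega)).pos
      rw [hUe, card_empty]
      omega
    · have h2 := card_lt_ram h hUne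
      have h3 := al_pos (G := G) hUne
      have h4 := ram_mono h.ram (show 2 ≤ al G U + 1 by omega) (show al G U + 1 ≤ s - b by omega)
      omega
  have h2 := h.crit
  omega

end Pool.Agent.RamH
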