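import Pool.Agent.Lib.MP_078aef_co_h.ThmG
import Pool.Agent.Lib.MP_078aef_co_h.Ram
import Pool.Agent.Lib.MP_078aef_co_h.Num

/-! Ramsey-critical graphs are Hamiltonian when the Ramsey numbers jump in a short window. -/

namespace Pool.Agent.RamH

open Finset Pool.Agent.RamseyHam Pool.Agent.RamQ

/-- a critical graph for a pair of parameters with a jump is Hamiltonian -/
theorem crit_ham {V : Type*} [Fintype V] [DecidableEq V] {G : SimpleGraph V} {k s : ℕ}
    {R : ℕ → ℕ} (h : Crit k s G R) (hks : k ≤ s) (hg : Gd k s R) :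
    ∃ l, Cyc G l ∧ l.length = Fintype.card V := by
  obtain ⟨w, hw, hK, hws, hj⟩ := hg
  have hk : 352 ≤ k := by
    have : 1 ≤ w ^ 4 := Nat.one_le_pow _ _ hw
    omega
  have hcard : 2 * (s - 1) ^ 6 < Fintype.card V := by
    have h1 := h.crit
    have h2 : 2 * (3 * (s - 1) ^ 6) ≤ (w + 1) * (3 * (s - 1) ^ 6) :=
      Nat.mul_le_mul_right _ (by omega)
    have h3 : 1 ≤ (s - 1) ^ 6 := Nat.one_le_pow _ _ (by omega)
    omega
  refine thmG (K := k - 2) (A := s - 1) hw hK (by omega) (crit_tough h (by omega) (by omega))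
    (al_le h.ind_le) hcard ?_
  intro I hI hdeg
  have := crit_window h (by omega) (b := w + 1) (by omega) (by omega) hj hI hdeg
  omega

/-- the same with the definitions of the problem -/
theorem gd_final {k s : ℕ} (hks : k ≤ s) (hg : Gd k s (fun p => ramsey k p)) {V : Type*}
    [Fintype V] [DecidableEq V] {G : SimpleGraph V} (hG : IsCritical k s G) :
    ∃ (a : V) (p : G.Walk a a), p.IsHamiltonianCycle := by
  have hk : 352 ≤ k := by
    obtain ⟨w, hw, hK, -, -⟩ := hg
    have : 1 ≤ w ^ 4 := Nat.one_le_pow _ _ hw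
    omega
  have hR : ∀ p, 2 ≤ p → IsRam k p (ramsey k p) := fun p hp =>
    isRam_ramsey (by omega) (by omega)
  have hcrit : Fintype.card V + 1 = ramsey k s := by
    have h1 := hG.card
    have h2 := (hR s (by omega)).pos
    omega
  have hC : Crit k s G (fun p => ramsey k p) :=
    ⟨⟨hG.cliqueFree, (indep_iff G s).mp hG.indep⟩, hR, hcrit⟩
  obtain ⟨l, hl, hlen⟩ := crit_ham hC hks hg
  exact hl.hamiltonian hlen

end Pool.Agent.RamH
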