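import Pool.Agent.Lib.MP_078aef_co_h.Fin

/-! Short gaps between the good values of `s`, with explicit constants. -/

namespace Pool.Agent.RamH

open Finset Pool.Agent.RamseyHam Pool.Agent.RamQ

/-- the numerical part: the parameter `m` -/
theorem gap_par {k X : ℕ} (hk : 352 ≤ k) (hX : 2 * k ≤ X) :
    ∃ m : ℕ, 1 ≤ m ∧ 192 * X ^ 7 ≤ 2 ^ (m * (k - 1) / 2) ∧ 2 ^ m * (m * (k - 1)) ≤ X ∧
      ((2 ^ m * (m * (k - 1)) : ℕ) : ℝ) ≤
        42 * (k + Real.logb 2 X) * (X : ℝ) ^ (14 / ((k : ℝ) - 1)) := by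
  obtain ⟨ℓ, hℓ⟩ : ∃ ℓ, ℓ = Real.logb 2 X := ⟨_, rfl⟩
  have hkR : (352 : ℝ) ≤ k := by exact_mod_cast hk
  have hX0 : (0 : ℝ) < X := by
    have : 0 < X := by omega
    exact_mod_cast this
  have hXℓ : (X : ℝ) = 2 ^ ℓ := by
    rw [hℓ, Real.rpow_logb (by norm_num) (by norm_num) hX0]
  have hX1 : (1 : ℝ) ≤ X := by
    have : 1 ≤ X := by omega
    exact_mod_cast this
  have hℓ0 : 0 ≤ ℓ := by
    rw [hℓ]
    exact Real.logb_nonneg (by norm_num) hX1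
  have hk1 : (0 : ℝ) < (k : ℝ) - 1 := by linarith
  have hkc : ((k - 1 : ℕ) : ℝ) = (k : ℝ) - 1 := by
    rw [Nat.cast_sub (by omega), Nat.cast_one]
  obtain ⟨q, hq⟩ : ∃ q : ℝ, q = (17 + 14 * ℓ) / ((k : ℝ) - 1) := ⟨_, rfl⟩
  have hq0 : 0 ≤ q := by
    rw [hq]
    positivity
  obtain ⟨m, hm⟩ : ∃ m : ℕ, m = ⌈q⌉₊ := ⟨_, rfl⟩
  have hqm : q ≤ m := hm ▸ Nat.le_ceil q
  have hmq : (m : ℝ) < q + 1 := hm ▸ Nat.ceil_lt_add_one hq0
  have hm1 : 1 ≤ m := by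
    have : 0 < q := by
      rw [hq]
      positivity
    rw [hm]
    exact Nat.one_le_ceil_iff.mpr this
  have hmk : 17 + 14 * ℓ ≤ m * ((k : ℝ) - 1) := by
    have h1 : q * ((k : ℝ) - 1) = 17 + 14 * ℓ := by
      rw [hq]
      field_simp
    rw [← h1]
    exact mul_le_mul_of_nonneg_right hqm hk1.le
  have hmk2 : m * ((k : ℝ) - 1) ≤ 16 + 14 * ℓ + k := by
    have h1 : (q + 1) * ((k : ℝ) - 1) = 16 + 14 * ℓ + k := by
      rw [hq]
      field_simp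
      ring
    rw [← h1]
    exact mul_le_mul_of_nonneg_right hmq.le hk1.le
  -- the power of two
  have h2m : (2 : ℝ) ^ (m : ℕ) ≤ 3 * (X : ℝ) ^ (14 / ((k : ℝ) - 1)) := by
    have e1 : (2 : ℝ) ^ (m : ℕ) = 2 ^ ((m : ℕ) : ℝ) := (Real.rpow_natCast _ _).symm
    have e2 : (2 : ℝ) ^ ((m : ℕ) : ℝ) ≤ 2 ^ (q + 1) :=
      Real.rpow_le_rpow_of_exponent_le (by norm_num) hmq.le
    have e3 : q + 1 = 17 / ((k : ℝ) - 1) + ℓ * (14 / ((k : ℝ) - 1)) + 1 := by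
      rw [hq]
      field_simp
    have e4 : (2 : ℝ) ^ (17 / ((k : ℝ) - 1)) ≤ 2 ^ (1 / 2 : ℝ) := by
      refine Real.rpow_le_rpow_of_exponent_le (by norm_num) ?_
      rw [div_le_div_iff₀ hk1 (by norm_num)]
      linarith
    have e5 : (2 : ℝ) ^ (1 / 2 : ℝ) ≤ 3 / 2 := by
      rw [← Real.sqrt_eq_rpow, Real.sqrt_le_left (by norm_num)]
      norm_num
    have e6 : (2 : ℝ) ^ (ℓ * (14 / ((k : ℝ) - 1))) = (X : ℝ) ^ (14 / ((k : ℝ) - 1)) := by
      rw [hXℓ, Real.rpow_mul (by norm_num)]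
    rw [e1]
    refine e2.trans ?_
    rw [e3, Real.rpow_add (by norm_num), Real.rpow_add (by norm_num), e6, Real.rpow_one]
    have e7 : 0 ≤ (X : ℝ) ^ (14 / ((k : ℝ) - 1)) := by positivity
    nlinarith
  have hXp : 1 ≤ (X : ℝ) ^ (14 / ((k : ℝ) - 1)) := Real.one_le_rpow hX1 (by positivity)
  refine ⟨m, hm1, ?_, ?_, ?_⟩
  · have h1 : (192 : ℝ) * (X : ℝ) ^ 7 ≤ 2 ^ (m * (k - 1) / 2 : ℕ) := by
      have e1 : (X : ℝ) ^ 7 = 2 ^ (ℓ * 7) := by
        rw [hXℓ, ← Real.rpow_natCast, ← Real.rpow_mul (by norm_num)]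
        norm_num
      have e2 : (192 : ℝ) ≤ 2 ^ (8 : ℝ) := by norm_num
      have e3 : (2 : ℝ) ^ (m * (k - 1) / 2 : ℕ) = 2 ^ ((m * (k - 1) / 2 : ℕ) : ℝ) :=
        (Real.rpow_natCast _ _).symm
      have e4 : (8 : ℝ) + ℓ * 7 ≤ ((m * (k - 1) / 2 : ℕ) : ℝ) := by
        have h1 : m * (k - 1) ≤ 2 * (m * (k - 1) / 2) + 1 := by omega
        have h2 : ((m * (k - 1) : ℕ) : ℝ) ≤ 2 * ((m * (k - 1) / 2 : ℕ) : ℝ) + 1 := by
          exact_mod_cast h1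
        rw [Nat.cast_mul, hkc] at h2
        linarith
      rw [e1, e3]
      calc (192 : ℝ) * 2 ^ (ℓ * 7) ≤ 2 ^ (8 : ℝ) * 2 ^ (ℓ * 7) :=
            mul_le_mul_of_nonneg_right e2 (by positivity)
        _ = 2 ^ ((8 : ℝ) + ℓ * 7) := (Real.rpow_add (by norm_num) _ _).symm
        _ ≤ _ := Real.rpow_le_rpow_of_exponent_le (by norm_num) e4
    exact_mod_cast h1
  · rcases Nat.lt_or_ge m 2 with hm2 | hm2
    · have : m = 1 := by omega
      subst this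
      omega
    · have hkℓ : (k : ℝ) ≤ 18 + 14 * ℓ := by
        have e1 : (2 : ℝ) ≤ m := by exact_mod_cast hm2
        have e2 : 1 < q := by linarith
        rw [hq, lt_div_iff₀ hk1] at e2
        linarith
      have hℓ23 : 23 ≤ ℓ := by linarith
      have t1 : ℓ ≤ 6 * 2 ^ (ℓ / 4) := by
        have e1 : ℓ / 4 * Real.log 2 + 1 ≤ 2 ^ (ℓ / 4) := by
          rw [Real.rpow_def_of_pos (by norm_num), mul_comm (Real.log 2)]
          exact Real.add_one_le_exp _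
        have e2 := Real.log_two_gt_d9
        nlinarith
      have t2 : (2048 : ℝ) ≤ 2 ^ (ℓ / 2) := by
        calc (2048 : ℝ) = 2 ^ (11 : ℝ) := by norm_num
          _ ≤ 2 ^ (ℓ / 2) := Real.rpow_le_rpow_of_exponent_le (by norm_num) (by linarith)
      have t3 : (X : ℝ) ^ (14 / ((k : ℝ) - 1)) ≤ 2 ^ (ℓ / 4) := by
        rw [hXℓ, ← Real.rpow_mul (by norm_num)]
        refine Real.rpow_le_rpow_of_exponent_le (by norm_num) ?_
        have : 14 / ((k : ℝ) - 1) ≤ 1 / 4 := by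
          rw [div_le_div_iff₀ hk1 (by norm_num)]
          linarith
        nlinarith
      have h1 : ((2 ^ m * (m * (k - 1)) : ℕ) : ℝ) ≤ X := by
        have e1 : ((2 ^ m * (m * (k - 1)) : ℕ) : ℝ) = 2 ^ (m : ℕ) * (m * ((k : ℝ) - 1)) := by
          rw [Nat.cast_mul, Nat.cast_mul, hkc]
          push_cast
          ring
        rw [e1]
        have u0 : 0 < (2 : ℝ) ^ (ℓ / 4) := by positivity
        have u1 : (2 : ℝ) ^ (m : ℕ) ≤ 3 * 2 ^ (ℓ / 4) := by linarith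
        have u2 : m * ((k : ℝ) - 1) ≤ 180 * 2 ^ (ℓ / 4) := by linarith
        have u3 : (2 : ℝ) ^ (ℓ / 4) * 2 ^ (ℓ / 4) = 2 ^ (ℓ / 2) := by
          rw [← Real.rpow_add (by norm_num)]
          congr 1
          ring
        have u4 : (2 : ℝ) ^ (ℓ / 2) * 2 ^ (ℓ / 2) = X := by
          rw [hXℓ, ← Real.rpow_add (by norm_num)]
          congr 1
          ring
        calc (2 : ℝ) ^ (m : ℕ) * (m * ((k : ℝ) - 1)) ≤
              (3 * 2 ^ (ℓ / 4)) * (180 * 2 ^ (ℓ / 4)) := by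
              refine mul_le_mul u1 u2 ?_ (by positivity)
              exact mul_nonneg (Nat.cast_nonneg _) hk1.le
          _ = 540 * 2 ^ (ℓ / 2) := by rw [← u3]; ring
          _ ≤ 2 ^ (ℓ / 2) * 2 ^ (ℓ / 2) :=
              mul_le_mul_of_nonneg_right (by linarith) (by positivity)
          _ = X := u4
      exact_mod_cast h1
  · have e1 : ((2 ^ m * (m * (k - 1)) : ℕ) : ℝ) = 2 ^ (m : ℕ) * (m * ((k : ℝ) - 1)) := by
      rw [Nat.cast_mul, Nat.cast_mul, hkc]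
      push_cast
      ring
    rw [e1, ← hℓ]
    have u2 : m * ((k : ℝ) - 1) ≤ 14 * (k + ℓ) := by linarith
    calc (2 : ℝ) ^ (m : ℕ) * (m * ((k : ℝ) - 1)) ≤
          (3 * (X : ℝ) ^ (14 / ((k : ℝ) - 1))) * (14 * (k + ℓ)) := by
          refine mul_le_mul h2m u2 ?_ (by positivity)
          exact mul_nonneg (Nat.cast_nonneg _) hk1.le
      _ = _ := by ring

/-- short gaps, with explicit constants, for every `k ≥ 352` -/
theorem gap_explicit {k X : ℕ} (hk : 352 ≤ k) (hX : 2 * k ≤ X) {R : ℕ → ℕ}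
    (hR : ∀ p, 2 ≤ p → IsRam k p (R p)) : ∃ s : ℕ, X ≤ s ∧
    (s : ℝ) ≤ X + 42 * (k + Real.logb 2 X) * (X : ℝ) ^ (14 / ((k : ℝ) - 1)) ∧ Gd k s R := by
  obtain ⟨m, hm, h1, h2, h3⟩ := gap_par hk hX
  obtain ⟨m', rfl⟩ : ∃ m', m = m' + 1 := ⟨m - 1, by omega⟩
  have e0 : 2 ^ m' * ((m' + 1) * (k - 1)) * (1 + 1) = 2 ^ (m' + 1) * ((m' + 1) * (k - 1)) := by
    rw [pow_succ]
    ring
  obtain ⟨j, hj1, hj2, hj3⟩ := gap_core (k := k) (w := 1) (L := 2 ^ m' * ((m' + 1) * (k - 1)))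
    (m := m' + 1) (X := X) le_rfl (by omega) hR (by omega) hm (le_of_eq e0.symm) (e0 ▸ h2) (by
      rw [e0]
      refine le_trans ?_ h1
      calc 3 * (2 ^ (m' + 1) * ((m' + 1) * (k - 1))) * (2 * X) ^ 6 ≤ 3 * X * (2 * X) ^ 6 :=
            Nat.mul_le_mul_right _ (Nat.mul_le_mul_left _ h2)
        _ = 192 * X ^ 7 := by ring)
  refine ⟨X + j * (1 + 1), by omega, ?_, hj3⟩
  have h4 : j * (1 + 1) ≤ 2 ^ (m' + 1) * ((m' + 1) * (k - 1)) := by
    rw [← e0]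
    exact Nat.mul_le_mul_right _ hj2
  have h5 : ((j * (1 + 1) : ℕ) : ℝ) ≤ ((2 ^ (m' + 1) * ((m' + 1) * (k - 1)) : ℕ) : ℝ) := by
    exact_mod_cast h4
  rw [Nat.cast_add]
  linarith

/-- the same with the definitions of the problem, for all `X ≥ k` -/
theorem gap_final {k X : ℕ} (hk : 352 ≤ k) (hX : k ≤ X) : ∃ s : ℕ, X ≤ s ∧
    (s : ℝ) ≤ X + 42 * (k + Real.logb 2 X) * (X : ℝ) ^ (14 / ((k : ℝ) - 1)) ∧
    ∀ (V : Type*) [Fintype V] [DecidableEq V] (G : SimpleGraph V), IsCritical k s G →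
      ∃ (a : V) (p : G.Walk a a), p.IsHamiltonianCycle := by
  rcases Nat.lt_or_ge X (2 * k) with h | h
  · refine ⟨X, le_rfl, ?_, ?_⟩
    · have h1 : (1 : ℝ) ≤ X := by
        have : 1 ≤ X := by omega
        exact_mod_cast this
      have h2 : 0 ≤ Real.logb 2 X := Real.logb_nonneg (by norm_num) h1
      have h3 : 0 ≤ 42 * (k + Real.logb 2 X) * (X : ℝ) ^ (14 / ((k : ℝ) - 1)) := by
        positivity
      linarith
    · intro V _ _ G hG
      refine RamQ.final (by omega) hX (Or.inl ?_) hG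
      nlinarith
  · obtain ⟨s, h1, h2, h3⟩ := gap_explicit hk h (R := fun p => ramsey k p)
      (fun p hp => isRam_ramsey (by omega) (by omega))
    exact ⟨s, h1, h2, fun V _ _ G hG => gd_final (by omega) h3 hG⟩

end Pool.Agent.RamH
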