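import Pool.Agent.Lib.MP_078aef_co_h.Defs

/-! Piece H: matroid form of Haxell's theorem. -/

set_option autoImplicit false
set_option linter.unusedSectionVars false

namespace Pool.Agent.RamH

open Finset Pool.Agent.RamseyHam Pool.Agent.RamQ

section hax

variable {V ι F M : Type*} [DecidableEq V] [DecidableEq ι] [Field F] [AddCommGroup M] [Module F M]

/-- the elements of `I` meeting a member of `es` -/
private def QQ (vt : ι → Finset V) (I : Finset ι) (es : List ι) : Finset ι :=
  I.filter (fun f => ∃ e ∈ es, ¬ Disjoint (vt f) (vt e))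

private theorem mem_QQ {vt : ι → Finset V} {I : Finset ι} {es : List ι} {f : ι} :
    f ∈ QQ vt I es ↔ f ∈ I ∧ ∃ e ∈ es, ¬ Disjoint (vt f) (vt e) := by
  simp [QQ]

/-- chains, newest element first -/
private def Ch (F : Type*) {V ι M : Type*} [DecidableEq V] [DecidableEq ι] [Field F]
    [AddCommGroup M] [Module F M] (E : Finset ι) (vt : ι → Finset V) (vc : ι → M)
    (I : Finset ι) : List ι → Prop
  | [] => True
  | e :: es => Ch F E vt vc I es ∧ e ∈ E ∧
      vc e ∉ Submodule.span F (vc '' ((I \ QQ vt I es : Finset ι) : Set ι)) ∧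
      (∀ x ∈ es, Disjoint (vt e) (vt x)) ∧ (∀ f ∈ QQ vt I es, Disjoint (vt e) (vt f)) ∧
      ∀ x ∈ es, (QQ vt I [x]).Nonempty

/-- independent and pairwise disjoint -/
private def Gd0 (F : Type*) {V ι M : Type*} [DecidableEq V] [DecidableEq ι] [Field F]
    [AddCommGroup M] [Module F M] (E : Finset ι) (vt : ι → Finset V) (vc : ι → M)
    (I : Finset ι) : Prop :=
  I ⊆ E ∧ (∀ e ∈ I, ∀ f ∈ I, e ≠ f → Disjoint (vt e) (vt f)) ∧ LinearIndepOn F vc (I : Set ι)

/-- the potential -/
private def gain (vt : ι → Finset V) (R : ℕ) (I : Finset ι) : List ι → ℕ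
  | [] => 0
  | e :: es => gain vt R I es + (R + 1 - (QQ vt I [e]).card) * (R + 2) ^ (R - es.length)

private theorem span_fun {vc : ι → M} {I : Finset ι} {x : M}
    (h : x ∈ Submodule.span F (vc '' (I : Set ι))) : ∃ a : ι → F, ∑ g ∈ I, a g • vc g = x := by
  obtain ⟨c, hc⟩ := (Submodule.mem_span_image_finset_iff_exists_fun F).1 h
  refine ⟨fun i => if h : i ∈ I then c ⟨i, h⟩ else 0, ?_⟩
  rw [← hc, ← Finset.sum_coe_sort I]
  refine Finset.sum_congr rfl fun i _ => ?_
  simp

private theorem fun_span {vc : ι → M} {I : Finset ι} {a : ι → F} {S : Set ι}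
    (h : ∀ g ∈ I, a g ≠ 0 → g ∈ S) : ∑ g ∈ I, a g • vc g ∈ Submodule.span F (vc '' S) := by
  refine Submodule.sum_mem _ fun g hg => ?_
  by_cases h0 : a g = 0
  · rw [h0, zero_smul]
    exact Submodule.zero_mem _
  · exact Submodule.smul_mem _ _ (Submodule.subset_span ⟨g, h g hg h0, rfl⟩)

private theorem QQ_cons {vt : ι → Finset V} {I : Finset ι} {e : ι} {es : List ι} :
    QQ vt I (e :: es) = QQ vt I [e] ∪ QQ vt I es := by
  ext f
  simp only [mem_QQ, mem_union, List.mem_cons, List.not_mem_nil, or_false]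
  constructor
  · rintro ⟨hf, x, rfl | hx, hd⟩
    · exact Or.inl ⟨hf, x, rfl, hd⟩
    · exact Or.inr ⟨hf, x, hx, hd⟩
  · rintro (⟨hf, x, hx, hd⟩ | ⟨hf, x, hx, hd⟩)
    · exact ⟨hf, x, Or.inl hx, hd⟩
    · exact ⟨hf, x, Or.inr hx, hd⟩

private theorem QQ_sub {vt : ι → Finset V} {I : Finset ι} {es : List ι} : QQ vt I es ⊆ I :=
  filter_subset _ _

private theorem Ch.app {E : Finset ι} {vt : ι → Finset V} {vc : ι → M} {I : Finset ι} :
    ∀ {p l : List ι}, Ch F E vt vc I (p ++ l) → Ch F E vt vc I l
  | [], _, h => h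
  | _ :: p, _, h => Ch.app (p := p) h.1

private theorem Ch.mem {E : Finset ι} {vt : ι → Finset V} {vc : ι → M} {I : Finset ι} :
    ∀ {l : List ι}, Ch F E vt vc I l → ∀ x ∈ l, x ∈ E
  | [], _, x, hx => absurd hx (List.not_mem_nil)
  | e :: l, h, x, hx => by
    rcases List.mem_cons.1 hx with rfl | hx
    · exact h.2.1
    · exact Ch.mem h.1 x hx

private theorem Ch.card {E : Finset ι} {vt : ι → Finset V} {vc : ι → M} {I : Finset ι} :
    ∀ {l : List ι}, Ch F E vt vc I l → (∀ x ∈ l, (QQ vt I [x]).Nonempty) →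
      l.length ≤ (QQ vt I l).card
  | [], _, _ => Nat.zero_le _
  | e :: l, h, h' => by
    have h1 := Ch.card h.1 fun x hx => h' x (List.mem_cons_of_mem _ hx)
    have h2 : Disjoint (QQ vt I [e]) (QQ vt I l) := by
      rw [Finset.disjoint_left]
      intro f hf hf'
      obtain ⟨-, x, hx, hd⟩ := mem_QQ.1 hf
      rw [List.mem_singleton] at hx
      subst hx
      exact hd (h.2.2.2.2.1 f hf').symm
    have h3 := Finset.card_pos.2 (h' e List.mem_cons_self)
    rw [QQ_cons, card_union_of_disjoint h2, List.length_cons]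
    omega

private theorem Ch.len {E : Finset ι} {vt : ι → Finset V} {vc : ι → M} {I : Finset ι} {R : ℕ}
    (hI : I.card < R) : ∀ {l : List ι}, Ch F E vt vc I l → l.length ≤ R
  | [], _ => Nat.zero_le _
  | e :: l, h => by
    have h1 := Ch.card h.1 h.2.2.2.2.2
    have h2 : (QQ vt I l).card ≤ I.card := card_le_card QQ_sub
    rw [List.length_cons]
    omega

private theorem gain_app (vt : ι → Finset V) (R : ℕ) (I : Finset ι) (l : List ι) :
    ∀ p : List ι, (p ++ l).length ≤ R →
      gain vt R I (p ++ l) + (R + 2) ^ (R - (p ++ l).length + 1) ≤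
        gain vt R I l + (R + 2) ^ (R - l.length + 1)
  | [], _ => le_refl _
  | a :: p, h => by
    have h0 : (p ++ l).length + 1 ≤ R := h
    have h1 := gain_app vt R I l p (by omega)
    refine le_trans ?_ h1
    have h2 : R - (a :: p ++ l).length + 1 = R - (p ++ l).length := by
      have : (a :: p ++ l).length = (p ++ l).length + 1 := rfl
      omega
    rw [h2]
    change gain vt R I (p ++ l) + (R + 1 - (QQ vt I [a]).card) * (R + 2) ^ (R - (p ++ l).length) +
      (R + 2) ^ (R - (p ++ l).length) ≤ _
    rw [pow_succ, add_assoc]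
    apply Nat.add_le_add_left
    have h3 : R + 1 - (QQ vt I [a]).card ≤ R + 1 := Nat.sub_le _ _
    calc (R + 1 - (QQ vt I [a]).card) * (R + 2) ^ (R - (p ++ l).length) +
          (R + 2) ^ (R - (p ++ l).length)
        ≤ (R + 1) * (R + 2) ^ (R - (p ++ l).length) + (R + 2) ^ (R - (p ++ l).length) := by
          gcongr
      _ = (R + 2) ^ (R - (p ++ l).length) * (R + 2) := by ring

/-- the oldest element of the chain met by the circuit -/
private theorem oldest {vt : ι → Finset V} {I : Finset ι} {P : ι → Prop} :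
    ∀ l : List ι, (∃ g ∈ QQ vt I l, P g) → ∃ p x old, l = p ++ x :: old ∧
      (∃ g ∈ QQ vt I [x], P g) ∧ ∀ g ∈ QQ vt I old, ¬ P g
  | [], h => by
    obtain ⟨g, hg, -⟩ := h
    obtain ⟨-, x, hx, -⟩ := mem_QQ.1 hg
    exact absurd hx List.not_mem_nil
  | a :: l, h => by
    by_cases h1 : ∃ g ∈ QQ vt I l, P g
    · obtain ⟨p, x, old, rfl, h2, h3⟩ := oldest l h1
      exact ⟨a :: p, x, old, rfl, h2, h3⟩
    · obtain ⟨g, hg, hP⟩ := h
      rw [QQ_cons, mem_union] at hg
      refine ⟨[], a, l, rfl, ⟨g, ?_, hP⟩, fun g' hg' hP' => h1 ⟨g', hg', hP'⟩⟩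
      rcases hg with hg | hg
      · exact hg
      · exact absurd ⟨g, hg, hP⟩ h1

private theorem QQ_exch {vt : ι → Finset V} {I : Finset ι} {f e : ι} {l : List ι}
    (he : ∀ x ∈ l, Disjoint (vt e) (vt x)) :
    QQ vt (insert e (I.erase f)) l = (QQ vt I l).erase f := by
  ext g
  simp only [mem_QQ, mem_erase, mem_insert]
  constructor
  · rintro ⟨rfl | ⟨hg, hg'⟩, x, hx, hd⟩
    · exact absurd (he x hx) hd
    · exact ⟨hg, hg', x, hx, hd⟩
  · rintro ⟨hg, hg', x, hx, hd⟩
    exact ⟨Or.inr ⟨hg, hg'⟩, x, hx, hd⟩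

private theorem span_exch {vt : ι → Finset V} {vc : ι → M} {I : Finset ι} {f e : ι} {a : ι → F}
    {l : List ι} (hsum : ∑ g ∈ I, a g • vc g = vc e) (he : ∀ x ∈ l, Disjoint (vt e) (vt x))
    (ha : ∀ g ∈ QQ vt I l, a g = 0) (hf : f ∉ QQ vt I l) {y : M}
    (hy : y ∉ Submodule.span F (vc '' ((I \ QQ vt I l : Finset ι) : Set ι))) :
    y ∉ Submodule.span F (vc '' ((insert e (I.erase f) \ QQ vt (insert e (I.erase f)) l :
      Finset ι) : Set ι)) := by
  intro hcon
  apply hy
  rw [QQ_exch he, erase_eq_of_notMem hf] at hcon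
  refine Submodule.span_le.2 ?_ hcon
  rintro z ⟨g, hg, rfl⟩
  rw [mem_coe, mem_sdiff, mem_insert, mem_erase] at hg
  obtain ⟨rfl | ⟨hg1, hg2⟩, hg3⟩ := hg
  · rw [← hsum]
    refine fun_span fun g hg h0 => ?_
    rw [mem_coe, mem_sdiff]
    exact ⟨hg, fun h => h0 (ha g h)⟩
  · refine Submodule.subset_span ⟨g, ?_, rfl⟩
    rw [mem_coe, mem_sdiff]
    exact ⟨hg2, hg3⟩

private theorem Ch.exch {E : Finset ι} {vt : ι → Finset V} {vc : ι → M} {I : Finset ι} {f e : ι}
    {a : ι → F} (hsum : ∑ g ∈ I, a g • vc g = vc e) :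
    ∀ {l : List ι}, Ch F E vt vc I l → (∀ x ∈ l, Disjoint (vt e) (vt x)) →
      (∀ g ∈ QQ vt I l, a g = 0) → f ∉ QQ vt I l → Ch F E vt vc (insert e (I.erase f)) l
  | [], _, _, _, _ => trivial
  | b :: l, h, he, ha, hf => by
    have he' : ∀ x ∈ l, Disjoint (vt e) (vt x) := fun x hx => he x (List.mem_cons_of_mem _ hx)
    rw [QQ_cons] at ha hf
    rw [mem_union, not_or] at hf
    have ha' : ∀ g ∈ QQ vt I l, a g = 0 := fun g hg => ha g (mem_union_right _ hg)
    refine ⟨Ch.exch hsum h.1 he' ha' hf.2, h.2.1, span_exch hsum he' ha' hf.2 h.2.2.1,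
      h.2.2.2.1, ?_, ?_⟩
    · intro g hg
      rw [QQ_exch he'] at hg
      exact h.2.2.2.2.1 g (mem_of_mem_erase hg)
    · intro x hx
      rw [QQ_exch (fun y hy => by
        rw [List.mem_singleton] at hy
        rw [hy]
        exact he' x hx)]
      have h1 : f ∉ QQ vt I [x] := by
        intro h2
        apply hf.2
        obtain ⟨h3, y, hy, hd⟩ := mem_QQ.1 h2
        rw [List.mem_singleton] at hy
        rw [hy] at hd
        exact mem_QQ.2 ⟨h3, x, hx, hd⟩
      rw [erase_eq_of_notMem h1]
      exact h.2.2.2.2.2 x hx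

private theorem gain_congr {vt : ι → Finset V} {R : ℕ} {I J : Finset ι} :
    ∀ {l : List ι}, (∀ x ∈ l, (QQ vt I [x]).card = (QQ vt J [x]).card) →
      gain vt R I l = gain vt R J l
  | [], _ => rfl
  | b :: l, h => by
    have h1 := gain_congr (R := R) (l := l) fun x hx => h x (List.mem_cons_of_mem _ hx)
    change gain vt R I l + (R + 1 - (QQ vt I [b]).card) * (R + 2) ^ (R - l.length) =
      gain vt R J l + (R + 1 - (QQ vt J [b]).card) * (R + 2) ^ (R - l.length)
    rw [h1, h b List.mem_cons_self]

private theorem Xcard {vt : ι → Finset V} {I : Finset ι} {S : ℕ} {es : List ι}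
    (h1 : ∀ x ∈ es, (vt x).card ≤ S) (h2 : ∀ x ∈ I, (vt x).card ≤ S)
    (hl : es.length ≤ (QQ vt I es).card) :
    (es.toFinset.biUnion vt ∪ (QQ vt I es).biUnion vt).card ≤
      (2 * S - 1) * (QQ vt I es).card := by
  set U := es.toFinset.biUnion vt with hU
  have h3 : U ∪ (QQ vt I es).biUnion vt ⊆ U ∪ (QQ vt I es).biUnion (fun f => vt f \ U) := by
    intro v hv
    by_cases hvU : v ∈ U
    · exact mem_union_left _ hvU
    · rcases mem_union.1 hv with hv | hv
      · exact absurd hv hvU
      · obtain ⟨f, hf, hv⟩ := mem_biUnion.1 hv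
        exact mem_union_right _ (mem_biUnion.2 ⟨f, hf, mem_sdiff.2 ⟨hv, hvU⟩⟩)
  have h4 : U.card ≤ es.length * S := by
    refine le_trans card_biUnion_le ?_
    refine le_trans (Finset.sum_le_card_nsmul _ _ S ?_) ?_
    · intro x hx
      exact h1 x (List.mem_toFinset.1 hx)
    · rw [smul_eq_mul]
      exact Nat.mul_le_mul_right _ es.toFinset_card_le
  have h5 : ((QQ vt I es).biUnion (fun f => vt f \ U)).card ≤ (QQ vt I es).card * (S - 1) := by
    refine le_trans card_biUnion_le ?_
    refine le_trans (Finset.sum_le_card_nsmul _ _ (S - 1) ?_) (le_of_eq (smul_eq_mul _ _))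
    intro f hf
    obtain ⟨hfI, x, hx, hd⟩ := mem_QQ.1 hf
    have h6 : (vt f \ U).card < (vt f).card := by
      apply card_lt_card
      refine ⟨sdiff_subset, fun hsub => ?_⟩
      rw [Finset.not_disjoint_iff] at hd
      obtain ⟨v, hv1, hv2⟩ := hd
      have h7 := hsub hv1
      rw [mem_sdiff] at h7
      apply h7.2
      rw [hU, mem_biUnion]
      exact ⟨x, List.mem_toFinset.2 hx, hv2⟩
    have h8 := h2 f hfI
    omega
  have h6 := card_le_card h3
  have h7 := card_union_le U ((QQ vt I es).biUnion (fun f => vt f \ U))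
  have h8 : es.length * S ≤ (QQ vt I es).card * S := Nat.mul_le_mul_right _ hl
  have h9 : (2 * S - 1) * (QQ vt I es).card =
      (QQ vt I es).card * S + (QQ vt I es).card * (S - 1) := by
    rw [← Nat.mul_add, Nat.mul_comm]
    congr 1
    omega
  omega

/-- one step: the potential can be increased -/
private theorem step (E : Finset ι) (vt : ι → Finset V) (vc : ι → M) (S R k : ℕ)
    (hS : ∀ e ∈ E, (vt e).card ≤ S)
    (hyp : ∀ I ⊆ E, (∀ e ∈ I, ∀ f ∈ I, e ≠ f → Disjoint (vt e) (vt f)) →
      LinearIndepOn F vc (I : Set ι) → I.card < R → ∀ X : Finset V,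
      X.card ≤ (2 * S - 1) * (R - I.card - 1) →
      ∃ e ∈ E, vc e ∉ Submodule.span F (vc '' (I : Set ι)) ∧ Disjoint (vt e) X)
    (hk : k < R) (hmax : ∀ J, Gd0 F E vt vc J → J.card ≤ k) (I : Finset ι) (es : List ι)
    (hI : Gd0 F E vt vc I) (hIk : I.card = k) (hC : Ch F E vt vc I es) :
    ∃ (J : Finset ι) (fs : List ι), Gd0 F E vt vc J ∧ J.card = k ∧ Ch F E vt vc J fs ∧
      gain vt R I es < gain vt R J fs := by
  by_cases hall : ∀ x ∈ es, (QQ vt I [x]).Nonempty
  · -- extension
    have hl := Ch.card hC hall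
    have hQ : (QQ vt I es).card ≤ I.card := card_le_card QQ_sub
    have hsd : (I \ QQ vt I es).card = I.card - (QQ vt I es).card :=
      card_sdiff_of_subset QQ_sub
    have hsub : I \ QQ vt I es ⊆ I := sdiff_subset
    have hX := Xcard (I := I) (S := S) (fun x hx => hS x (Ch.mem hC x hx))
      (fun x hx => hS x (hI.1 hx)) hl
    obtain ⟨e, he, hspan, hdis⟩ := hyp (I \ QQ vt I es) (hsub.trans hI.1)
      (fun a ha b hb => hI.2.1 a (hsub ha) b (hsub hb))
      (hI.2.2.mono (by exact_mod_cast hsub)) (by omega) _ (le_trans hX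
        (Nat.mul_le_mul_left _ (by omega)))
    rw [Finset.disjoint_union_right, Finset.disjoint_biUnion_right,
      Finset.disjoint_biUnion_right] at hdis
    refine ⟨I, e :: es, hI, hIk, ⟨hC, he, hspan, fun x hx => hdis.1 x (List.mem_toFinset.2 hx),
      hdis.2, hall⟩, ?_⟩
    change _ < gain vt R I es + _
    have h1 : (QQ vt I [e]).card ≤ I.card := card_le_card QQ_sub
    have h2 : 0 < (R + 1 - (QQ vt I [e]).card) * (R + 2) ^ (R - es.length) :=
      Nat.mul_pos (by omega) (by positivity)
    omega
  · -- exchange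
    cases es with
    | nil => exact absurd (fun x hx => absurd hx List.not_mem_nil) hall
    | cons e es =>
      obtain ⟨hC0, heE, hspan, hd1, hd2, hne⟩ := hC
      have hme : QQ vt I [e] = ∅ := by
        rw [← Finset.not_nonempty_iff_eq_empty]
        intro h
        apply hall
        intro x hx
        rcases List.mem_cons.1 hx with rfl | hx
        · exact h
        · exact hne x hx
      have hdI : ∀ g ∈ I, Disjoint (vt g) (vt e) := by
        intro g hg
        by_contra hcon
        have : g ∈ QQ vt I [e] := mem_QQ.2 ⟨hg, e, List.mem_singleton.2 rfl, hcon⟩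
        rw [hme] at this
        exact absurd this (notMem_empty _)
      have heI : e ∉ I := by
        intro h
        apply hspan
        refine Submodule.subset_span ⟨e, ?_, rfl⟩
        rw [mem_coe, mem_sdiff]
        refine ⟨h, fun h' => ?_⟩
        obtain ⟨-, x, hx, hd⟩ := mem_QQ.1 h'
        exact hd (hd1 x hx)
      have hin : vc e ∈ Submodule.span F (vc '' (I : Set ι)) := by
        by_contra hcon
        have h1 : Gd0 F E vt vc (insert e I) := by
          refine ⟨insert_subset heE hI.1, ?_, ?_⟩
          · intro a ha b hb hab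
            rw [mem_insert] at ha hb
            rcases ha with rfl | ha <;> rcases hb with rfl | hb
            · exact absurd rfl hab
            · exact (hdI b hb).symm
            · exact hdI a ha
            · exact hI.2.1 a ha b hb hab
          · rw [coe_insert]
            exact hI.2.2.insert hcon
        have h2 := hmax _ h1
        rw [card_insert_of_notMem heI] at h2
        omega
      obtain ⟨a, ha⟩ := span_fun hin
      have hex : ∃ g ∈ QQ vt I es, a g ≠ 0 := by
        by_contra hcon
        push Not at hcon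
        apply hspan
        rw [← ha]
        refine fun_span fun g hg h0 => ?_
        rw [mem_coe, mem_sdiff]
        exact ⟨hg, fun h => h0 (hcon g h)⟩
      obtain ⟨p, x, old, rfl, ⟨f, hf, haf⟩, hold⟩ := oldest (P := fun g => a g ≠ 0) es hex
      have hold' : ∀ g ∈ QQ vt I old, a g = 0 := fun g hg => not_not.1 (hold g hg)
      obtain ⟨hfI, x', hx', hfx⟩ := mem_QQ.1 hf
      rw [List.mem_singleton] at hx'
      subst hx'
      have hCx : Ch F E vt vc I (x' :: old) := Ch.app hC0
      have hfold : f ∉ QQ vt I old := fun h => hfx (hCx.2.2.2.2.1 f h).symm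
      have heold : ∀ y ∈ old, Disjoint (vt e) (vt y) := fun y hy =>
        hd1 y (List.mem_append_right _ (List.mem_cons_of_mem _ hy))
      have hex' : Disjoint (vt e) (vt x') :=
        hd1 x' (List.mem_append_right _ List.mem_cons_self)
      have hex1 : ∀ y ∈ [x'], Disjoint (vt e) (vt y) := by
        intro y hy
        rw [List.mem_singleton] at hy
        rw [hy]
        exact hex'
      have hefI : e ∉ I.erase f := fun h => heI (mem_of_mem_erase h)
      have hJcard : (insert e (I.erase f)).card = k := by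
        rw [card_insert_of_notMem hefI, card_erase_of_mem hfI]
        have := Finset.card_pos.2 ⟨f, hfI⟩
        omega
      have hGJ : Gd0 F E vt vc (insert e (I.erase f)) := by
        refine ⟨insert_subset heE ((erase_subset _ _).trans hI.1), ?_, ?_⟩
        · intro b hb c hc hbc
          rw [mem_insert] at hb hc
          rcases hb with rfl | hb <;> rcases hc with rfl | hc
          · exact absurd rfl hbc
          · exact (hdI c (mem_of_mem_erase hc)).symm
          · exact hdI b (mem_of_mem_erase hb)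
          · exact hI.2.1 b (mem_of_mem_erase hb) c (mem_of_mem_erase hc) hbc
        · rw [coe_insert]
          refine (hI.2.2.mono (by exact_mod_cast erase_subset f I)).insert ?_
          intro hcon
          have h1 : vc f ∉ Submodule.span F (vc '' ((I.erase f : Finset ι) : Set ι)) := by
            have h2 : LinearIndepOn F vc (insert f ((I.erase f : Finset ι) : Set ι)) := by
              rw [← coe_insert, insert_erase hfI]
              exact hI.2.2
            exact h2.notMem_span_of_insert (by simp)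
          apply h1
          have h2 : a f • vc f = vc e - ∑ g ∈ I.erase f, a g • vc g := by
            rw [← ha, ← Finset.add_sum_erase I _ hfI]
            abel
          have h3 : a f • vc f ∈ Submodule.span F (vc '' ((I.erase f : Finset ι) : Set ι)) := by
            rw [h2]
            refine Submodule.sub_mem _ hcon (fun_span fun g hg _ => ?_)
            exact mem_coe.2 hg
          have h4 := Submodule.smul_mem _ (a f)⁻¹ h3
          rwa [smul_smul, inv_mul_cancel₀ haf, one_smul] at h4
      have hCJ : Ch F E vt vc (insert e (I.erase f)) (x' :: old) := by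
        refine ⟨Ch.exch ha hCx.1 heold hold' hfold, hCx.2.1,
          span_exch ha heold hold' hfold hCx.2.2.1, hCx.2.2.2.1, ?_, ?_⟩
        · intro g hg
          rw [QQ_exch heold] at hg
          exact hCx.2.2.2.2.1 g (mem_of_mem_erase hg)
        · intro y hy
          rw [QQ_exch (fun z hz => by
            rw [List.mem_singleton] at hz
            rw [hz]
            exact heold y hy)]
          have h1 : f ∉ QQ vt I [y] := by
            intro h2
            apply hfold
            obtain ⟨h3, z, hz, hd⟩ := mem_QQ.1 h2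
            rw [List.mem_singleton] at hz
            rw [hz] at hd
            exact mem_QQ.2 ⟨h3, y, hy, hd⟩
          rw [erase_eq_of_notMem h1]
          exact hCx.2.2.2.2.2 y hy
      refine ⟨insert e (I.erase f), x' :: old, hGJ, hJcard, hCJ, ?_⟩
      have hlen : (e :: p ++ x' :: old).length ≤ R := by
        have : Ch F E vt vc I (e :: (p ++ x' :: old)) := ⟨hC0, heE, hspan, hd1, hd2, hne⟩
        exact Ch.len (by omega) this
      have hg1 := gain_app vt R I (x' :: old) (e :: p) hlen
      have hg2 : gain vt R (insert e (I.erase f)) old = gain vt R I old := by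
        apply gain_congr
        intro y hy
        rw [QQ_exch (fun z hz => by
          rw [List.mem_singleton] at hz
          rw [hz]
          exact heold y hy), erase_eq_of_notMem]
        intro h2
        apply hfold
        obtain ⟨h3, z, hz, hd⟩ := mem_QQ.1 h2
        rw [List.mem_singleton] at hz
        rw [hz] at hd
        exact mem_QQ.2 ⟨h3, y, hy, hd⟩
      have hg3 : gain vt R (insert e (I.erase f)) (x' :: old) =
          gain vt R I (x' :: old) + (R + 2) ^ (R - old.length) := by
        change gain vt R (insert e (I.erase f)) old +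
          (R + 1 - (QQ vt (insert e (I.erase f)) [x']).card) * (R + 2) ^ (R - old.length) =
          gain vt R I old + (R + 1 - (QQ vt I [x']).card) * (R + 2) ^ (R - old.length) +
            (R + 2) ^ (R - old.length)
        rw [hg2, QQ_exch hex1, card_erase_of_mem hf]
        have h1 : (QQ vt I [x']).card ≤ I.card := card_le_card QQ_sub
        have h2 := Finset.card_pos.2 ⟨f, hf⟩
        have h3 : R + 1 - ((QQ vt I [x']).card - 1) = (R + 1 - (QQ vt I [x']).card) + 1 := by
          omega
        rw [h3]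
        ring
      have hg4 : R - (x' :: old).length + 1 = R - old.length := by
        have h1 : (e :: p ++ x' :: old).length = p.length + old.length + 2 := by
          simp only [List.cons_append, List.length_cons, List.length_append]
          omega
        rw [List.length_cons]
        omega
      rw [hg4] at hg1
      have hg5 : 0 < (R + 2) ^ (R - (e :: p ++ x' :: old).length + 1) := by positivity
      rw [hg3]
      have hg6 : e :: (p ++ x' :: old) = e :: p ++ x' :: old := rfl
      rw [hg6]
      omega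

end hax

/-- piece H (matroid form of Haxell's theorem) -/
theorem haxell {V ι F M : Type*} [DecidableEq V] [DecidableEq ι] [Field F] [AddCommGroup M]
    [Module F M] (E : Finset ι) (vt : ι → Finset V) (vc : ι → M) (S R : ℕ)
    (hS : ∀ e ∈ E, (vt e).card ≤ S)
    (hyp : ∀ I ⊆ E, (∀ e ∈ I, ∀ f ∈ I, e ≠ f → Disjoint (vt e) (vt f)) →
      LinearIndepOn F vc (I : Set ι) → I.card < R → ∀ X : Finset V,
      X.card ≤ (2 * S - 1) * (R - I.card - 1) →
      ∃ e ∈ E, vc e ∉ Submodule.span F (vc '' (I : Set ι)) ∧ Disjoint (vt e) X) :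
    ∃ I ⊆ E, (∀ e ∈ I, ∀ f ∈ I, e ≠ f → Disjoint (vt e) (vt f)) ∧
      LinearIndepOn F vc (I : Set ι) ∧ I.card = R := by
  by_contra hcon
  have hlt : ∀ J, Gd0 F E vt vc J → J.card < R := by
    intro J hJ
    by_contra h
    obtain ⟨I, hIJ, hIc⟩ := Finset.exists_subset_card_eq (not_lt.1 h)
    exact hcon ⟨I, hIJ.trans hJ.1, fun e he f hf => hJ.2.1 e (hIJ he) f (hIJ hf),
      hJ.2.2.mono (by exact_mod_cast hIJ), hIc⟩
  classical
  have h0 : Gd0 F E vt vc ∅ := by
    refine ⟨empty_subset _, fun e he => absurd he (notMem_empty _), ?_⟩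
    rw [coe_empty]
    exact linearIndepOn_empty F vc
  obtain ⟨I0, hI0, hI0max⟩ := Finset.exists_max_image (E.powerset.filter (Gd0 F E vt vc))
    Finset.card ⟨∅, mem_filter.2 ⟨mem_powerset.2 (empty_subset _), h0⟩⟩
  rw [mem_filter] at hI0
  have hmax : ∀ J, Gd0 F E vt vc J → J.card ≤ I0.card := fun J hJ =>
    hI0max J (mem_filter.2 ⟨mem_powerset.2 hJ.1, hJ⟩)
  have hk := hlt I0 hI0.2
  have main : ∀ n : ℕ, ∀ (I : Finset ι) (es : List ι), Gd0 F E vt vc I → I.card = I0.card →
      Ch F E vt vc I es → (R + 2) ^ (R + 1) - gain vt R I es = n → False := by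
    intro n
    induction n using Nat.strong_induction_on with
    | _ n ih =>
      intro I es hI hIc hC hn
      obtain ⟨J, fs, hJ, hJc, hCJ, hlt'⟩ := step E vt vc S R I0.card hS hyp hk hmax I es hI hIc hC
      refine ih ((R + 2) ^ (R + 1) - gain vt R J fs) ?_ J fs hJ hJc hCJ rfl
      have h1 := gain_app vt R J [] fs (by
        rw [List.append_nil]
        exact Ch.len (by omega) hCJ)
      rw [List.append_nil] at h1
      have h2 : gain vt R J [] = 0 := rfl
      have h3 : 0 < (R + 2) ^ (R - fs.length + 1) := by positivity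
      have h4 : R - ([] : List ι).length + 1 = R + 1 := rfl
      rw [h2, h4] at h1
      omega
  exact main _ I0 [] hI0.2 rfl trivial rfl

end Pool.Agent.RamH
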