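import Pool.Agent.Lib.MP_078aef_co_h.Defs

/-! Parity vectors, stubs and surgery on states. -/

namespace Pool.Agent.RamH

open Finset Pool.Agent.RamseyHam Pool.Agent.RamQ

variable {V : Type*} {G : SimpleGraph V} {m : ℕ} {h : V → Option (Fin m)}

theorem ivec_nil : vec h ([] : List V) = 0 := by simp [vec]

theorem ivec_cons (a : V) (l : List V) : vec h (a :: l) = ev h a + vec h l := by simp [vec]

theorem ivec_append (l l' : List V) : vec h (l ++ l') = vec h l + vec h l' := by simp [vec]

theorem ivec_reverse (l : List V) : vec h l.reverse = vec h l := by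
  unfold vec
  rw [List.map_reverse, List.sum_reverse]

theorem vec_none {l : List V} (hl : ∀ v ∈ l, h v = none) : vec h l = 0 := by
  induction l with
  | nil => exact ivec_nil
  | cons a l ih =>
    rw [ivec_cons, ih (fun v hv => hl v (List.mem_cons_of_mem _ hv))]
    have := hl a List.mem_cons_self
    simp [ev, this]

theorem iev_some {a : V} {i : Fin m} (ha : h a = some i) : ev h a = Pi.single i 1 := by
  simp [ev, ha]

theorem two_self (x : Fin m → ZMod 2) : x + x = 0 := by
  funext i
  exact CharTwo.add_self_eq_zero (x i)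

/-- a path starting in a hub and then staying outside the hubs -/
structure Stb (G : SimpleGraph V) (h : V → Option (Fin m)) (l : List V) (a x : V) : Prop where
  sg : Seg G a l x
  nodup : l.Nodup
  hub : h a ≠ none
  tail : ∃ w, l = a :: w ∧ ∀ v ∈ w, h v = none

theorem Stb.vec {l : List V} {a x : V} (hl : Stb G h l a x) : vec h l = ev h a := by
  obtain ⟨w, rfl, hw⟩ := hl.tail
  rw [ivec_cons, vec_none hw, add_zero]

theorem Stb.single {x : V} (hx : h x ≠ none) : Stb G h [x] x x :=
  ⟨Seg.single x, List.nodup_singleton x, hx, [], rfl, by simp⟩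

theorem Stb.ext {l p : List V} {a x a' b' : V} (hl : Stb G h l a x) (hp : Seg G a' p b')
    (hx : G.Adj x a') (hpn : p.Nodup) (hpw : ∀ v ∈ p, h v = none) (hd : ∀ v ∈ l, v ∉ p) :
    Stb G h (l ++ p) a b' := by
  refine ⟨hl.sg.append hp hx, ?_, hl.hub, ?_⟩
  · rw [List.nodup_append]
    refine ⟨hl.nodup, hpn, ?_⟩
    intro v hv v' hv' e
    exact hd v hv (e ▸ hv')
  · obtain ⟨w, rfl, hw⟩ := hl.tail
    refine ⟨w ++ p, by simp, ?_⟩
    intro v hv
    rcases List.mem_append.mp hv with hv | hv
    · exact hw v hv
    · exact hpw v hv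

theorem join0 {l l' : List V} {a x a' x' : V} (hl : Stb G h l a x) (hl' : Stb G h l' a' x')
    (hx : G.Adj x x') (hd : ∀ v ∈ l, v ∉ l') : IsCn G h (l ++ l'.reverse) := by
  refine ⟨(hl.sg.append hl'.sg.reverse hx).chain, ?_, ?_⟩
  · rw [List.nodup_append]
    refine ⟨hl.nodup, List.nodup_reverse.mpr hl'.nodup, ?_⟩
    intro v hv v' hv' e
    exact hd v hv (e ▸ List.mem_reverse.mp hv')
  · obtain ⟨w, rfl, hw⟩ := hl.tail
    obtain ⟨w', rfl, hw'⟩ := hl'.tail
    refine ⟨a, w ++ w'.reverse, a', by simp, hl.hub, hl'.hub, ?_⟩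
    intro v hv
    rcases List.mem_append.mp hv with hv | hv
    · exact hw v hv
    · exact hw' v (List.mem_reverse.mp hv)

theorem IsCn.irev {l : List V} (hl : IsCn G h l) : IsCn G h l.reverse := by
  obtain ⟨a, w, b, rfl, ha, hb, hw⟩ := hl.shape
  refine ⟨?_, List.nodup_reverse.mpr hl.nodup, b, w.reverse, a, by simp, hb, ha, ?_⟩
  · have h1 : Seg G a (a :: (w ++ [b])) b :=
      ⟨hl.chain, rfl, by simp [List.getLast?_cons]⟩
    exact h1.reverse.chain
  · intro v hv
    exact hw v (List.mem_reverse.mp hv)

theorem IsCn.ine_nil {l : List V} (hl : IsCn G h l) : l ≠ [] := by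
  obtain ⟨a, w, b, rfl, -⟩ := hl.shape
  simp

/-- cutting a connector into two stubs -/
theorem IsCn.cut {l K R : List V} {x z : V} (hl : IsCn G h l) (e : l = K ++ x :: z :: R) :
    ∃ a b, Stb G h (K ++ [x]) a x ∧ Stb G h (z :: R).reverse b z := by
  obtain ⟨a, w, b, e', ha, hb, hw⟩ := hl.shape
  have hch := hl.chain
  have hn := hl.nodup
  have e2 : l = (K ++ [x]) ++ (z :: R) := by rw [e]; simp
  refine ⟨a, b, ⟨⟨?_, ?_, by simp⟩, ?_, ha, ?_⟩, ⟨?_, ?_, hb, ?_⟩⟩
  · rw [e2] at hch
    exact (List.isChain_append.mp hch).1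
  · have : l.head? = some a := by rw [e']; rfl
    rw [e2, List.head?_append_of_ne_nil _ (by simp)] at this
    exact this
  · rw [e2] at hn
    exact (List.nodup_append.mp hn).1
  · cases K with
    | nil =>
      refine ⟨[], ?_, by simp⟩
      rw [e'] at e
      simp only [List.nil_append, List.cons.injEq] at e
      rw [e.1]; rfl
    | cons k K =>
      rw [e'] at e
      simp only [List.cons_append, List.cons.injEq] at e
      refine ⟨K ++ [x], by rw [e.1]; simp, ?_⟩
      intro v hv
      apply hw
      have h3 : w ++ [b] = (K ++ [x]) ++ (z :: R) := by rw [e.2]; simp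
      have h4 : K ++ [x] <+: w ++ [b] := ⟨z :: R, h3.symm⟩
      rcases List.prefix_concat_iff.mp h4 with h5 | h5
      · exfalso
        have := congrArg List.length h3
        rw [← h5] at this
        simp at this
      · exact h5.subset hv
  · refine Seg.reverse ⟨?_, by simp, ?_⟩
    · rw [e2] at hch
      exact (List.isChain_append.mp hch).2.1
    · have : l.getLast? = some b := by rw [e']; simp [List.getLast?_cons]
      rw [e2, List.getLast?_append_of_ne_nil _ (by simp)] at this
      exact this
  · rw [e2] at hn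
    exact List.nodup_reverse.mpr (List.nodup_append.mp hn).2.1
  · have h0 : (a :: w) ++ [b] = (K ++ [x]) ++ (z :: R) := by
      rw [← e2, e']; simp
    obtain ⟨R', hR'⟩ : ∃ R', z :: R = R' ++ [b] := by
      refine ⟨(z :: R).dropLast, ?_⟩
      have h1 : (z :: R).getLast (by simp) = b := by
        have := congrArg List.getLast? h0
        rw [List.getLast?_append_of_ne_nil _ (by simp), List.getLast?_append_of_ne_nil _ (by simp)]
          at this
        rw [List.getLast?_eq_some_getLast (by simp : z :: R ≠ [])] at this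
        simpa using this.symm
      conv_rhs => rw [← h1]
      exact (List.dropLast_append_getLast (by simp)).symm
    refine ⟨R'.reverse, by rw [hR']; simp, ?_⟩
    intro v hv
    apply hw
    rw [hR', ← List.append_assoc] at h0
    have h1 := List.append_inj_left' h0 rfl
    have h2 : v ∈ (K ++ [x]) ++ R' := List.mem_append.mpr (Or.inr (List.mem_reverse.mp hv))
    rw [← h1] at h2
    rcases List.mem_cons.mp h2 with h3 | h3
    · exfalso
      subst h3
      have h4 : (K ++ [x]).head? = some v := by
        have := congrArg List.head? h1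
        rw [List.head?_append_of_ne_nil _ (by simp)] at this
        simpa using this.symm
      have h5 : v ∈ K ++ [x] := List.mem_of_mem_head? (by rw [h4]; rfl)
      have h6 : v ∈ z :: R := by rw [hR']; exact List.mem_append.mpr (Or.inl (List.mem_reverse.mp hv))
      rw [e2, List.nodup_append] at hn
      exact hn.2.2 v h5 v h6 rfl
    · exact h3

end Pool.Agent.RamH
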