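import Pool.Agent.Lib.MP_078aef_co_h.InsA

/-! Replacing some connectors of a state. -/

namespace Pool.Agent.RamH

open Finset Pool.Agent.RamseyHam Pool.Agent.RamQ

variable {V : Type*} [DecidableEq V] {G : SimpleGraph V} {m : ℕ} {h : V → Option (Fin m)}

/-- replace the connectors in `Z` by those in `N` -/
theorem surg {C Z N : Finset (List V)} (hC : Sta G h C) (hZ : Z ⊆ C) (hN : ∀ l ∈ N, IsCn G h l)
    (hNd : ∀ l ∈ N, ∀ l' ∈ N, l ≠ l' → ∀ v ∈ l, v ∉ l')
    (hNo : ∀ l ∈ N, ∀ v ∈ l, On Z v ∨ ¬ On C v) (hv : ∑ l ∈ N, vec h l = ∑ l ∈ Z, vec h l) :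
    Sta G h (C \ Z ∪ N) := by
  have key : ∀ l ∈ C \ Z, ∀ l' ∈ N, ∀ v ∈ l, v ∉ l' := by
    intro l hl l' hl' v hv1 hv2
    obtain ⟨hlC, hlZ⟩ := mem_sdiff.mp hl
    rcases hNo l' hl' v hv2 with ⟨l'', h1, h2⟩ | h1
    · have hne : l ≠ l'' := by
        rintro rfl
        exact hlZ h1
      exact hC.disj l hlC l'' (hZ h1) hne v hv1 h2
    · exact h1 ⟨l, hlC, hv1⟩
  refine ⟨?_, ?_, ?_⟩
  · intro l hl
    rcases mem_union.mp hl with hl | hl
    · exact hC.cn l (mem_sdiff.mp hl).1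
    · exact hN l hl
  · intro l hl l' hl' hne v hv1 hv2
    rcases mem_union.mp hl with hl | hl <;> rcases mem_union.mp hl' with hl' | hl'
    · exact hC.disj l (mem_sdiff.mp hl).1 l' (mem_sdiff.mp hl').1 hne v hv1 hv2
    · exact key l hl l' hl' v hv1 hv2
    · exact key l' hl' l hl v hv2 hv1
    · exact hNd l hl l' hl' hne v hv1 hv2
  · have hdis : Disjoint (C \ Z) N := by
      rw [disjoint_left]
      intro l hl hl'
      have h1 := (hN l hl').ine_nil
      obtain ⟨v, hv⟩ := List.exists_mem_of_ne_nil _ h1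
      exact key l hl l hl' v hv hv
    rw [sum_union hdis, hv]
    have h1 := sum_sdiff (f := vec h) hZ
    rw [h1]
    exact hC.even

theorem surg_card {C Z N : Finset (List V)} (hZ : Z ⊆ C) (hc : N.card ≤ Z.card + 1) :
    (C \ Z ∪ N).card ≤ C.card + 1 := by
  have h1 := card_union_le (C \ Z) N
  have h2 := card_sdiff_of_subset hZ
  have h3 := card_le_card hZ
  omega

theorem surg_on {C Z N : Finset (List V)} (hZ : Z ⊆ C) {D : Finset V}
    (hN : ∀ v, h v = none → (On N v ↔ On Z v ∨ v ∈ D)) {v : V} (hv : h v = none) :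
    On (C \ Z ∪ N) v ↔ On C v ∨ v ∈ D := by
  constructor
  · rintro ⟨l, hl, hvl⟩
    rcases mem_union.mp hl with hl | hl
    · exact Or.inl ⟨l, (mem_sdiff.mp hl).1, hvl⟩
    · rcases (hN v hv).mp ⟨l, hl, hvl⟩ with ⟨l', h1, h2⟩ | h1
      · exact Or.inl ⟨l', hZ h1, h2⟩
      · exact Or.inr h1
  · rintro (⟨l, hl, hvl⟩ | hD)
    · by_cases h1 : l ∈ Z
      · obtain ⟨l', h2, h3⟩ := (hN v hv).mpr (Or.inl ⟨l, h1, hvl⟩)
        exact ⟨l', mem_union_right _ h2, h3⟩
      · exact ⟨l, mem_union_left _ (mem_sdiff.mpr ⟨hl, h1⟩), hvl⟩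
    · obtain ⟨l', h2, h3⟩ := (hN v hv).mpr (Or.inr hD)
      exact ⟨l', mem_union_right _ h2, h3⟩

/-- at most `|Y|` of the pairwise disjoint sets meet `Y` -/
theorem meet_card {J : Finset ℕ} {F : ℕ → Finset (List V)}
    (hF : ∀ i ∈ J, ∀ j ∈ J, i ≠ j → Disjoint (F i) (F j)) (Y : Finset (List V)) :
    (J.filter fun j => ¬ Disjoint (F j) Y).card ≤ Y.card := by
  classical
  have h1 : ∀ j ∈ J.filter fun j => ¬ Disjoint (F j) Y, ∃ y ∈ Y, y ∈ F j := by
    intro j hj
    have := (mem_filter.mp hj).2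
    rw [disjoint_left] at this
    push Not at this
    obtain ⟨y, h2, h3⟩ := this
    exact ⟨y, h3, h2⟩
  choose! g hg1 hg2 using h1
  refine card_le_card_of_injOn g (fun j hj => hg1 j hj) ?_
  intro i hi j hj hij
  by_contra hne
  have h2 := hF i (mem_filter.mp hi).1 j (mem_filter.mp hj).1 hne
  rw [disjoint_left] at h2
  exact h2 (hg2 i hi) (hij ▸ hg2 j hj)

theorem rob_step {C Z N Y : Finset (List V)} {J : Finset ℕ} {F : ℕ → Finset (List V)} {ρ j0 : ℕ}
    (hJ : ρ + 3 ≤ J.card) (hF : ∀ j ∈ J, F j ⊆ C ∧ Sp h (F j))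
    (hd : ∀ i ∈ J, ∀ j ∈ J, i ≠ j → Disjoint (F i) (F j)) (hj0 : j0 ∈ J)
    (hZ : Z ⊆ F j0 ∪ Y) (hY : Y.card ≤ 2) : Rob h (C \ Z ∪ N) ρ := by
  classical
  refine ⟨(J.erase j0).filter (fun j => Disjoint (F j) Y), F, ?_, ?_, ?_⟩
  · have h1 := meet_card hd Y
    have h2 : J ⊆ insert j0 (((J.erase j0).filter (fun j => Disjoint (F j) Y)) ∪
        (J.filter fun j => ¬ Disjoint (F j) Y)) := by
      intro j hj
      by_cases h3 : j = j0
      · rw [h3]; exact mem_insert_self _ _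
      · by_cases h4 : Disjoint (F j) Y
        · exact mem_insert_of_mem (mem_union_left _ (mem_filter.mpr ⟨mem_erase.mpr ⟨h3, hj⟩, h4⟩))
        · exact mem_insert_of_mem (mem_union_right _ (mem_filter.mpr ⟨hj, h4⟩))
    have h3 := (card_le_card h2).trans (card_insert_le _ _)
    have h4 := card_union_le ((J.erase j0).filter (fun j => Disjoint (F j) Y))
      (J.filter fun j => ¬ Disjoint (F j) Y)
    omega
  · intro j hj
    obtain ⟨h1, h2⟩ := mem_filter.mp hj
    obtain ⟨h3, h4⟩ := mem_erase.mp h1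
    refine ⟨?_, (hF j h4).2⟩
    intro l hl
    refine mem_union_left _ (mem_sdiff.mpr ⟨(hF j h4).1 hl, fun h5 => ?_⟩)
    rcases mem_union.mp (hZ h5) with h6 | h6
    · exact disjoint_left.mp (hd j h4 j0 hj0 h3) hl h6
    · exact disjoint_left.mp h2 hl h6
  · intro i hi j hj hij
    exact hd i (mem_erase.mp (mem_filter.mp hi).1).2 j (mem_erase.mp (mem_filter.mp hj).1).2 hij

/-- an element of the span over `ZMod 2` is a sum over a subset -/
theorem span_two {ι M : Type*} [DecidableEq ι] [AddCommGroup M] [Module (ZMod 2) M]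
    (S : Finset ι) (f : ι → M) {x : M} (hx : x ∈ Submodule.span (ZMod 2) (f '' (S : Set ι))) :
    ∃ J ⊆ S, ∑ i ∈ J, f i = x := by
  classical
  have h2 : ∀ y : M, y + y = 0 := by
    intro y
    have : (2 : ZMod 2) • y = 0 := by
      rw [show (2 : ZMod 2) = 0 from rfl, zero_smul]
    rw [two_smul] at this
    exact this
  induction hx using Submodule.span_induction with
  | mem x hx =>
    obtain ⟨i, hi, rfl⟩ := hx
    exact ⟨{i}, by simpa using hi, by simp⟩
  | zero => exact ⟨∅, by simp, by simp⟩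
  | add x y _ _ ihx ihy =>
    obtain ⟨J, hJ, rfl⟩ := ihx
    obtain ⟨J', hJ', rfl⟩ := ihy
    refine ⟨symmDiff J J', ?_, ?_⟩
    · intro i hi
      rw [mem_symmDiff] at hi
      rcases hi with ⟨h1, -⟩ | ⟨h1, -⟩
      · exact hJ h1
      · exact hJ' h1
    · have e1 := sum_sdiff (f := f) (inter_subset_left (s₁ := J) (s₂ := J'))
      have e2 := sum_sdiff (f := f) (inter_subset_right (s₁ := J) (s₂ := J'))
      rw [sdiff_inter_self_left] at e1
      rw [sdiff_inter_self_right] at e2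
      have e3 : symmDiff J J' = (J \ J') ∪ (J' \ J) := rfl
      rw [e3, sum_union (disjoint_sdiff_sdiff), ← e1, ← e2]
      have := h2 (∑ i ∈ J ∩ J', f i)
      calc _ = (∑ i ∈ J \ J', f i) + (∑ i ∈ J' \ J, f i) + 0 := by rw [add_zero]
        _ = _ := by rw [← this]; abel
  | smul a x _ ih =>
    obtain ⟨J, hJ, rfl⟩ := ih
    have ha : a = 0 ∨ a = 1 := by
      revert a
      decide
    rcases ha with rfl | rfl
    · exact ⟨∅, by simp, by rw [zero_smul, sum_empty]⟩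
    · exact ⟨J, hJ, by rw [one_smul]⟩

end Pool.Agent.RamH
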