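import Pool.Agent.Lib.MP_078aef_co_h.InsB

/-! Insertion by a crossing exchange. -/

namespace Pool.Agent.RamH

open Finset Pool.Agent.RamseyHam Pool.Agent.RamQ

variable {V : Type*} [DecidableEq V] {G : SimpleGraph V} {m : ℕ} {h : V → Option (Fin m)}

/-- a path covering `D` from a neighbour of `x` to a neighbour of `y` -/
def Pth (G : SimpleGraph V) (D : Finset V) (x y : V) : Prop :=
  ∃ p a b, Seg G a p b ∧ p.Nodup ∧ (∀ v, v ∈ p ↔ v ∈ D) ∧ G.Adj x a ∧ G.Adj b y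

/-- the result of an insertion -/
structure Out (G : SimpleGraph V) (h : V → Option (Fin m)) (C : Finset (List V)) (D : Finset V)
    (ρ : ℕ) (C' : Finset (List V)) : Prop where
  sta : Sta G h C'
  rob : Rob h C' ρ
  card : C'.card ≤ C.card + 1
  on : ∀ v, h v = none → (On C' v ↔ On C v ∨ v ∈ D)

/-- a general surgery step -/
theorem out_of {C Z N Y : Finset (List V)} {D : Finset V} {J : Finset ℕ}
    {F : ℕ → Finset (List V)} {ρ j0 : ℕ} (hC : Sta G h C)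
    (hJ : ρ + 3 ≤ J.card) (hF : ∀ j ∈ J, F j ⊆ C ∧ Sp h (F j))
    (hd : ∀ i ∈ J, ∀ j ∈ J, i ≠ j → Disjoint (F i) (F j)) (hj0 : j0 ∈ J)
    (hZ : Z ⊆ F j0 ∪ Y) (hY : Y.card ≤ 2) (hYC : Y ⊆ C) (hN : ∀ l ∈ N, IsCn G h l)
    (hNd : ∀ l ∈ N, ∀ l' ∈ N, l ≠ l' → ∀ v ∈ l, v ∉ l')
    (hNo : ∀ l ∈ N, ∀ v ∈ l, On Z v ∨ ¬ On C v) (hv : ∑ l ∈ N, vec h l = ∑ l ∈ Z, vec h l)
    (hc : N.card ≤ Z.card + 1) (hW : ∀ v, h v = none → (On N v ↔ On Z v ∨ v ∈ D)) :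
    ∃ C', Out G h C D ρ C' := by
  have hZC : Z ⊆ C := hZ.trans (union_subset (hF j0 hj0).1 hYC)
  exact ⟨C \ Z ∪ N, surg hC hZC hN hNd hNo hv, rob_step hJ hF hd hj0 hZ hY, surg_card hZC hc,
    fun v hv => surg_on hZC hW hv⟩

omit [DecidableEq V] in
theorem mem_tail_of {A B w : List V} {a : V} (e : A ++ B = a :: w) (hA : A ≠ []) :
    ∀ v ∈ B, v ∈ w := by
  intro v hv
  cases A with
  | nil => exact absurd rfl hA
  | cons k A =>
    rw [List.cons_append, List.cons.injEq] at e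
    rw [← e.2]
    exact List.mem_append.mpr (Or.inr hv)

theorem caseA1 {C : Finset (List V)} {D : Finset V} {J : Finset ℕ}
    {F : ℕ → Finset (List V)} {ρ : ℕ} (hC : Sta G h C)
    (hJ : ρ + 3 ≤ J.card) (hF : ∀ j ∈ J, F j ⊆ C ∧ Sp h (F j))
    (hd : ∀ i ∈ J, ∀ j ∈ J, i ≠ j → Disjoint (F i) (F j))
    (hD : ∀ v ∈ D, h v = none ∧ ¬ On C v) {K₁ R₁ K₂ R₂ : List V} {x₁ z₁ x₂ z₂ : V}
    (h1 : K₁ ++ x₁ :: z₁ :: R₁ ∈ C) (h2 : K₂ ++ x₂ :: z₂ :: R₂ ∈ C)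
    (hne : K₁ ++ x₁ :: z₁ :: R₁ ≠ K₂ ++ x₂ :: z₂ :: R₂) (hz : G.Adj z₁ z₂)
    (hp : Pth G D x₁ x₂) : ∃ C', Out G h C D ρ C' := by
  obtain ⟨j0, hj0⟩ : J.Nonempty := card_pos.mp (by omega)
  obtain ⟨p, a', b', hps, hpn, hpD, hxa, hbx⟩ := hp
  obtain ⟨l₁, e1⟩ : ∃ l, l = K₁ ++ x₁ :: z₁ :: R₁ := ⟨_, rfl⟩
  obtain ⟨l₂, e2⟩ : ∃ l, l = K₂ ++ x₂ :: z₂ :: R₂ := ⟨_, rfl⟩
  rw [← e1] at h1 hne
  rw [← e2] at h2 hne
  obtain ⟨a₁, b₁, s1, t1⟩ := (hC.cn _ h1).cut e1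
  obtain ⟨a₂, b₂, s2, t2⟩ := (hC.cn _ h2).cut e2
  have hl1 : ∀ v, v ∈ l₁ ↔ v ∈ K₁ ++ [x₁] ∨ v ∈ (z₁ :: R₁).reverse := by
    intro v; rw [e1]; simp; tauto
  have hl2 : ∀ v, v ∈ l₂ ↔ v ∈ K₂ ++ [x₂] ∨ v ∈ (z₂ :: R₂).reverse := by
    intro v; rw [e2]; simp; tauto
  have hv1 : vec h l₁ = vec h (K₁ ++ [x₁]) + vec h (z₁ :: R₁).reverse := by
    rw [e1, show K₁ ++ x₁ :: z₁ :: R₁ = (K₁ ++ [x₁]) ++ (z₁ :: R₁) by simp, ivec_append, ivec_reverse]
  have hv2 : vec h l₂ = vec h (K₂ ++ [x₂]) + vec h (z₂ :: R₂).reverse := by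
    rw [e2, show K₂ ++ x₂ :: z₂ :: R₂ = (K₂ ++ [x₂]) ++ (z₂ :: R₂) by simp, ivec_append, ivec_reverse]
  have n1 : ∀ v ∈ K₁ ++ [x₁], v ∉ (z₁ :: R₁).reverse := by
    have := (hC.cn _ h1).nodup
    rw [e1, show K₁ ++ x₁ :: z₁ :: R₁ = (K₁ ++ [x₁]) ++ (z₁ :: R₁) by simp,
      List.nodup_append] at this
    intro v hv hv'
    exact this.2.2 v hv v (List.mem_reverse.mp hv') rfl
  have n2 : ∀ v ∈ K₂ ++ [x₂], v ∉ (z₂ :: R₂).reverse := by
    have := (hC.cn _ h2).nodup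
    rw [e2, show K₂ ++ x₂ :: z₂ :: R₂ = (K₂ ++ [x₂]) ++ (z₂ :: R₂) by simp,
      List.nodup_append] at this
    intro v hv hv'
    exact this.2.2 v hv v (List.mem_reverse.mp hv') rfl
  have d12 : ∀ v ∈ l₁, v ∉ l₂ := hC.disj _ h1 _ h2 hne
  have dD1 : ∀ v ∈ l₁, v ∉ p := fun v hv hv' => (hD v ((hpD v).mp hv')).2 ⟨_, h1, hv⟩
  have dD2 : ∀ v ∈ l₂, v ∉ p := fun v hv hv' => (hD v ((hpD v).mp hv')).2 ⟨_, h2, hv⟩
  have sE := s1.ext hps hxa hpn (fun v hv => (hD v ((hpD v).mp hv)).1)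
    (fun v hv => dD1 v ((hl1 v).mpr (Or.inl hv)))
  have c1 : IsCn G h ((K₁ ++ [x₁]) ++ p ++ (K₂ ++ [x₂]).reverse) := by
    refine join0 sE s2 hbx ?_
    intro v hv hv'
    have hv2 := (hl2 v).mpr (Or.inl hv')
    rcases List.mem_append.mp hv with hv | hv
    · exact d12 v ((hl1 v).mpr (Or.inl hv)) hv2
    · exact dD2 v hv2 hv
  have c2 : IsCn G h ((z₁ :: R₁).reverse ++ ((z₂ :: R₂).reverse).reverse) := by
    refine join0 t1 t2 hz ?_
    intro v hv hv'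
    exact d12 v ((hl1 v).mpr (Or.inr hv)) ((hl2 v).mpr (Or.inr hv'))
  obtain ⟨N₁, eN1⟩ : ∃ l, l = (K₁ ++ [x₁]) ++ p ++ (K₂ ++ [x₂]).reverse := ⟨_, rfl⟩
  obtain ⟨N₂, eN2⟩ : ∃ l, l = (z₁ :: R₁).reverse ++ ((z₂ :: R₂).reverse).reverse := ⟨_, rfl⟩
  rw [← eN1] at c1
  rw [← eN2] at c2
  have m1 : ∀ v, v ∈ N₁ ↔ v ∈ K₁ ++ [x₁] ∨ v ∈ D ∨ v ∈ K₂ ++ [x₂] := by
    intro v
    rw [eN1, List.mem_append, List.mem_append, List.mem_reverse, hpD, or_assoc]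
  have m2 : ∀ v, v ∈ N₂ ↔ v ∈ (z₁ :: R₁).reverse ∨ v ∈ (z₂ :: R₂).reverse := by
    intro v
    rw [eN2, List.mem_append, List.reverse_reverse, List.mem_reverse, List.mem_reverse]
  have dN : ∀ v ∈ N₁, v ∉ N₂ := by
    intro v hv hv'
    rcases (m1 v).mp hv with hv | hv | hv <;> rcases (m2 v).mp hv' with hv' | hv'
    · exact n1 v hv hv'
    · exact d12 v ((hl1 v).mpr (Or.inl hv)) ((hl2 v).mpr (Or.inr hv'))
    · exact (hD v hv).2 ⟨_, h1, (hl1 v).mpr (Or.inr hv')⟩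
    · exact (hD v hv).2 ⟨_, h2, (hl2 v).mpr (Or.inr hv')⟩
    · exact d12 v ((hl1 v).mpr (Or.inr hv')) ((hl2 v).mpr (Or.inl hv))
    · exact n2 v hv hv'
  have hNne : N₁ ≠ N₂ := by
    intro e
    obtain ⟨v, hv⟩ := List.exists_mem_of_ne_nil _ c1.ine_nil
    exact dN v hv (e ▸ hv)
  refine out_of (Z := {l₁, l₂}) (N := {N₁, N₂}) (Y := {l₁, l₂}) hC hJ hF hd hj0
    subset_union_right (card_insert_le _ _) ?_ ?_ ?_ ?_ ?_ ?_ ?_
  · intro l hl
    rcases mem_insert.mp hl with rfl | hl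
    · exact h1
    · rw [mem_singleton.mp hl]; exact h2
  · intro l hl
    rcases mem_insert.mp hl with rfl | hl
    · exact c1
    · rw [mem_singleton.mp hl]; exact c2
  · intro l hl l' hl' hll v hv hv'
    rcases mem_insert.mp hl with a1 | a1 <;> rcases mem_insert.mp hl' with a2 | a2
    · exact hll (a1.trans a2.symm)
    · rw [a1] at hv
      rw [mem_singleton.mp a2] at hv'
      exact dN v hv hv'
    · rw [mem_singleton.mp a1] at hv
      rw [a2] at hv'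
      exact dN v hv' hv
    · exact hll ((mem_singleton.mp a1).trans (mem_singleton.mp a2).symm)
  · intro l hl v hv
    have z1 : v ∈ l₁ → On ({l₁, l₂} : Finset (List V)) v := fun hv => ⟨l₁, by simp, hv⟩
    have z2 : v ∈ l₂ → On ({l₁, l₂} : Finset (List V)) v := fun hv => ⟨l₂, by simp, hv⟩
    rcases mem_insert.mp hl with rfl | hl
    · rcases (m1 v).mp hv with hv | hv | hv
      · exact Or.inl (z1 ((hl1 v).mpr (Or.inl hv)))
      · exact Or.inr (hD v hv).2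
      · exact Or.inl (z2 ((hl2 v).mpr (Or.inl hv)))
    · rw [mem_singleton.mp hl] at hv
      rcases (m2 v).mp hv with hv | hv
      · exact Or.inl (z1 ((hl1 v).mpr (Or.inr hv)))
      · exact Or.inl (z2 ((hl2 v).mpr (Or.inr hv)))
  · rw [sum_pair hNne, sum_pair hne, hv1, hv2, eN1, eN2]
    simp only [ivec_append, ivec_reverse]
    rw [vec_none (l := p) (fun v hv => (hD v ((hpD v).mp hv)).1)]
    abel
  · rw [card_pair hNne, card_pair hne]
    omega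
  · intro v hv
    constructor
    · rintro ⟨l, hl, hvl⟩
      rcases mem_insert.mp hl with rfl | hl
      · rcases (m1 v).mp hvl with hv | hv | hv
        · exact Or.inl ⟨l₁, by simp, (hl1 v).mpr (Or.inl hv)⟩
        · exact Or.inr hv
        · exact Or.inl ⟨l₂, by simp, (hl2 v).mpr (Or.inl hv)⟩
      · rw [mem_singleton.mp hl] at hvl
        rcases (m2 v).mp hvl with hv | hv
        · exact Or.inl ⟨l₁, by simp, (hl1 v).mpr (Or.inr hv)⟩
        · exact Or.inl ⟨l₂, by simp, (hl2 v).mpr (Or.inr hv)⟩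
    · rintro (⟨l, hl, hvl⟩ | hvD)
      · rcases mem_insert.mp hl with rfl | hl
        · rcases (hl1 v).mp hvl with hv | hv
          · exact ⟨N₁, by simp, (m1 v).mpr (Or.inl hv)⟩
          · exact ⟨N₂, by simp, (m2 v).mpr (Or.inl hv)⟩
        · rw [mem_singleton.mp hl] at hvl
          rcases (hl2 v).mp hvl with hv | hv
          · exact ⟨N₁, by simp, (m1 v).mpr (Or.inr (Or.inr hv))⟩
          · exact ⟨N₂, by simp, (m2 v).mpr (Or.inr hv)⟩
      · exact ⟨N₁, by simp, (m1 v).mpr (Or.inr (Or.inl hvD))⟩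

theorem caseA2 {C : Finset (List V)} {D : Finset V} {J : Finset ℕ}
    {F : ℕ → Finset (List V)} {ρ : ℕ} (hC : Sta G h C)
    (hJ : ρ + 3 ≤ J.card) (hF : ∀ j ∈ J, F j ⊆ C ∧ Sp h (F j))
    (hd : ∀ i ∈ J, ∀ j ∈ J, i ≠ j → Disjoint (F i) (F j))
    (hD : ∀ v ∈ D, h v = none ∧ ¬ On C v) {K M R : List V} {x₁ z₁ x₂ z₂ : V}
    (h1 : K ++ x₁ :: (M ++ x₂ :: z₂ :: R) ∈ C) (hM : (M ++ [x₂]).head? = some z₁)
    (hz : G.Adj z₁ z₂) (hp : Pth G D x₁ x₂) : ∃ C', Out G h C D ρ C' := by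
  obtain ⟨j0, hj0⟩ : J.Nonempty := card_pos.mp (by omega)
  obtain ⟨p, a', b', hps, hpn, hpD, hxa, hbx⟩ := hp
  obtain ⟨l, e1⟩ : ∃ l, l = K ++ x₁ :: (M ++ x₂ :: z₂ :: R) := ⟨_, rfl⟩
  rw [← e1] at h1
  have hcn := hC.cn _ h1
  -- first cut, after `x₂`
  obtain ⟨a, b, s2, t2⟩ := hcn.cut (K := K ++ x₁ :: M) (x := x₂) (z := z₂) (R := R)
    (by rw [e1]; simp)
  -- second cut, after `x₁`
  obtain ⟨T, hT⟩ : ∃ T, M ++ x₂ :: z₂ :: R = z₁ :: T := by
    cases M with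
    | nil => simp at hM; exact ⟨_, by rw [hM]; rfl⟩
    | cons k M => simp at hM; exact ⟨_, by rw [hM]; rfl⟩
  obtain ⟨a₀, b₀, s1, t1⟩ := hcn.cut (K := K) (x := x₁) (z := z₁) (R := T)
    (by rw [e1, hT])
  have hMseg : Seg G z₁ (M ++ [x₂]) x₂ := by
    refine ⟨?_, hM, by simp⟩
    have hch := hcn.chain
    rw [e1, show K ++ x₁ :: (M ++ x₂ :: z₂ :: R) = (K ++ [x₁]) ++ ((M ++ [x₂]) ++ (z₂ :: R)) by simp]
      at hch
    exact (List.isChain_append.mp (List.isChain_append.mp hch).2.1).1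
  have hMW : ∀ v ∈ M ++ [x₂], h v = none := by
    obtain ⟨w, ew, hw⟩ := s2.tail
    intro v hv
    refine hw v (mem_tail_of (a := a) (A := K ++ [x₁]) (B := M ++ [x₂]) ?_ (by simp) v hv)
    rw [← ew]; simp
  have hnod := hcn.nodup
  rw [e1, show K ++ x₁ :: (M ++ x₂ :: z₂ :: R) = (K ++ [x₁]) ++ ((M ++ [x₂]) ++ (z₂ :: R)) by simp]
    at hnod
  obtain ⟨-, hnod2, hKMz⟩ := List.nodup_append.mp hnod
  obtain ⟨hMn, -, hMz⟩ := List.nodup_append.mp hnod2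
  have hl : ∀ v, v ∈ l ↔ v ∈ K ++ [x₁] ∨ v ∈ M ++ [x₂] ∨ v ∈ z₂ :: R := by
    intro v; rw [e1]; simp; tauto
  have dD : ∀ v ∈ l, v ∉ p := fun v hv hv' => (hD v ((hpD v).mp hv')).2 ⟨_, h1, hv⟩
  have sE := s1.ext hps hxa hpn (fun v hv => (hD v ((hpD v).mp hv)).1)
    (fun v hv => dD v ((hl v).mpr (Or.inl hv)))
  have sE2 := sE.ext hMseg.reverse hbx (List.nodup_reverse.mpr hMn)
    (fun v hv => hMW v (List.mem_reverse.mp hv)) (by
      intro v hv hv'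
      rw [List.mem_reverse] at hv'
      rcases List.mem_append.mp hv with hv | hv
      · exact hKMz v hv v (List.mem_append.mpr (Or.inl hv')) rfl
      · exact dD v ((hl v).mpr (Or.inr (Or.inl hv'))) hv)
  have c1 := join0 sE2 t2 hz (by
    intro v hv hv'
    rw [List.mem_reverse] at hv'
    rcases List.mem_append.mp hv with hv | hv
    · rcases List.mem_append.mp hv with hv | hv
      · exact hKMz v hv v (List.mem_append.mpr (Or.inr hv')) rfl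
      · exact dD v ((hl v).mpr (Or.inr (Or.inr hv'))) hv
    · exact hMz v (List.mem_reverse.mp hv) v hv' rfl)
  obtain ⟨N₁, eN1⟩ : ∃ l, l = K ++ [x₁] ++ p ++ (M ++ [x₂]).reverse ++ (z₂ :: R).reverse.reverse :=
    ⟨_, rfl⟩
  rw [← eN1] at c1
  have m1 : ∀ v, v ∈ N₁ ↔ v ∈ l ∨ v ∈ D := by
    intro v
    rw [hl, eN1, List.mem_append, List.mem_append, List.mem_append, hpD, List.reverse_reverse,
      List.mem_reverse]
    tauto
  refine out_of (Z := {l}) (N := {N₁}) (Y := {l}) hC hJ hF hd hj0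
    subset_union_right (by simp) (by simpa using h1) (by simpa using c1) ?_ ?_ ?_ (by simp) ?_
  · intro l' hl' l'' hl'' hne
    rw [mem_singleton.mp hl', mem_singleton.mp hl''] at hne
    exact absurd rfl hne
  · intro l' hl' v hv
    rw [mem_singleton.mp hl'] at hv
    rcases (m1 v).mp hv with hv | hv
    · exact Or.inl ⟨l, by simp, hv⟩
    · exact Or.inr (hD v hv).2
  · rw [sum_singleton, sum_singleton, eN1, e1,
      show K ++ x₁ :: (M ++ x₂ :: z₂ :: R) = (K ++ [x₁]) ++ ((M ++ [x₂]) ++ (z₂ :: R)) by simp]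
    simp only [ivec_append, ivec_reverse]
    rw [vec_none (l := p) (fun v hv => (hD v ((hpD v).mp hv)).1)]
    abel
  · intro v _
    constructor
    · rintro ⟨l', hl', hv⟩
      rw [mem_singleton.mp hl'] at hv
      rcases (m1 v).mp hv with hv | hv
      · exact Or.inl ⟨l, by simp, hv⟩
      · exact Or.inr hv
    · rintro (⟨l', hl', hv⟩ | hv)
      · rw [mem_singleton.mp hl'] at hv
        exact ⟨N₁, by simp, (m1 v).mpr (Or.inl hv)⟩
      · exact ⟨N₁, by simp, (m1 v).mpr (Or.inr hv)⟩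

/-- the exchange at two exits whose successors are adjacent -/
theorem caseA {C : Finset (List V)} {D : Finset V} {J : Finset ℕ}
    {F : ℕ → Finset (List V)} {ρ : ℕ} (hC : Sta G h C)
    (hJ : ρ + 3 ≤ J.card) (hF : ∀ j ∈ J, F j ⊆ C ∧ Sp h (F j))
    (hd : ∀ i ∈ J, ∀ j ∈ J, i ≠ j → Disjoint (F i) (F j))
    (hD : ∀ v ∈ D, h v = none ∧ ¬ On C v) {K₁ R₁ K₂ R₂ : List V} {x₁ z₁ x₂ z₂ : V}
    (h1 : K₁ ++ x₁ :: z₁ :: R₁ ∈ C) (h2 : K₂ ++ x₂ :: z₂ :: R₂ ∈ C) (hx : x₁ ≠ x₂)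
    (hz : G.Adj z₁ z₂) (hp : Pth G D x₁ x₂) (hp' : Pth G D x₂ x₁) :
    ∃ C', Out G h C D ρ C' := by
  by_cases hne : K₁ ++ x₁ :: z₁ :: R₁ = K₂ ++ x₂ :: z₂ :: R₂
  · rcases List.append_eq_append_iff.mp hne with ⟨M, e1, e2⟩ | ⟨M, e1, e2⟩
    · cases M with
      | nil =>
        simp only [List.nil_append, List.cons.injEq] at e2
        exact absurd e2.1 hx
      | cons k M =>
        simp only [List.cons_append, List.cons.injEq] at e2
        obtain ⟨rfl, e2⟩ := e2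
        refine caseA2 (K := K₁) (M := M) (R := R₂) (x₁ := x₁) (z₁ := z₁) (x₂ := x₂) (z₂ := z₂)
          hC hJ hF hd hD ?_ ?_ hz hp
        · rw [← e2]; exact h1
        · cases M with
          | nil => simp only [List.nil_append, List.cons.injEq] at e2; simp [e2.1]
          | cons k' M =>
            simp only [List.cons_append, List.cons.injEq] at e2; simp [e2.1]
    · cases M with
      | nil =>
        simp only [List.nil_append, List.cons.injEq] at e2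
        exact absurd e2.1.symm hx
      | cons k M =>
        simp only [List.cons_append, List.cons.injEq] at e2
        obtain ⟨rfl, e2⟩ := e2
        refine caseA2 (K := K₂) (M := M) (R := R₁) (x₁ := x₂) (z₁ := z₂) (x₂ := x₁) (z₂ := z₁)
          hC hJ hF hd hD ?_ ?_ hz.symm hp'
        · rw [← e2]; exact h2
        · cases M with
          | nil => simp only [List.nil_append, List.cons.injEq] at e2; simp [e2.1]
          | cons k' M =>
            simp only [List.cons_append, List.cons.injEq] at e2; simp [e2.1]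
  · exact caseA1 hC hJ hF hd hD h1 h2 hne hz hp

end Pool.Agent.RamH
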