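import Pool.Agent.Lib.MP_078aef_co_h.InsC

/-! Insertion between two exits that open a hub. -/

namespace Pool.Agent.RamH

open Finset Pool.Agent.RamseyHam Pool.Agent.RamQ

variable {V : Type*} [DecidableEq V] {G : SimpleGraph V} {m : ℕ} {h : V → Option (Fin m)}

/-- opening the exit `x` gives the stub `K`, uses the connectors in `Z` and changes the parity of
the hub `i` -/
def BO (h : V → Option (Fin m)) (C : Finset (List V)) (x : V) (i : Fin m) (K : List V)
    (Z : Finset (List V)) : Prop :=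
  (∃ K' z, K = K' ++ [x] ∧ K' ++ x :: z :: [] ∈ C ∧ h z = some i ∧ Z = {K' ++ x :: z :: []}) ∨
    (¬ On C x ∧ h x = some i ∧ K = [x] ∧ Z = ∅)

theorem BO.sub {C : Finset (List V)} {x : V} {i : Fin m} {K : List V} {Z : Finset (List V)}
    (hb : BO h C x i K Z) : Z ⊆ C ∧ Z.card ≤ 1 := by
  rcases hb with ⟨K', z, -, h1, -, rfl⟩ | ⟨-, -, -, rfl⟩
  · exact ⟨by simpa using h1, by simp⟩
  · simp

theorem BO.st {C : Finset (List V)} (hC : Sta G h C) {x : V} {i : Fin m} {K : List V}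
    {Z : Finset (List V)} (hb : BO h C x i K Z) :
    ∃ a, Stb G h K a x ∧ ∑ l ∈ Z, vec h l = ev h a + Pi.single i 1 := by
  rcases hb with ⟨K', z, rfl, h1, hz, rfl⟩ | ⟨h1, hx, rfl, rfl⟩
  · obtain ⟨a, b, s, t⟩ := (hC.cn _ h1).cut rfl
    refine ⟨a, s, ?_⟩
    rw [sum_singleton, show K' ++ x :: z :: [] = (K' ++ [x]) ++ [z] by simp, ivec_append, s.vec,
      ivec_cons, ivec_nil, add_zero, iev_some hz]
  · refine ⟨x, Stb.single (by rw [hx]; simp), ?_⟩
    rw [sum_empty, iev_some hx, two_self]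

theorem BO.mem {C : Finset (List V)} {x : V} {i : Fin m} {K : List V} {Z : Finset (List V)}
    (hb : BO h C x i K Z) : ∀ v ∈ K, On Z v ∨ ¬ On C v := by
  rcases hb with ⟨K', z, rfl, h1, hz, rfl⟩ | ⟨h1, hx, rfl, rfl⟩
  · intro v hv
    refine Or.inl ⟨_, mem_singleton_self _, ?_⟩
    simp only [List.mem_append, List.mem_cons] at hv ⊢
    tauto
  · intro v hv
    rw [List.mem_singleton.mp hv]
    exact Or.inr h1

theorem BO.wt {C : Finset (List V)} {x : V} {i : Fin m} {K : List V} {Z : Finset (List V)}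
    (hb : BO h C x i K Z) {v : V} (hv : h v = none) : v ∈ K ↔ On Z v := by
  rcases hb with ⟨K', z, rfl, h1, hz, rfl⟩ | ⟨h1, hx, rfl, rfl⟩
  · constructor
    · intro hvK
      refine ⟨_, mem_singleton_self _, ?_⟩
      simp only [List.mem_append, List.mem_cons] at hvK ⊢
      tauto
    · rintro ⟨l, hl, hvl⟩
      rw [mem_singleton.mp hl] at hvl
      simp only [List.mem_append, List.mem_cons, List.not_mem_nil, or_false] at hvl ⊢
      rcases hvl with h2 | h2 | h2
      · exact Or.inl h2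
      · exact Or.inr h2
      · rw [h2, hz] at hv; cases hv
  · constructor
    · intro hvK
      rw [List.mem_singleton.mp hvK, hx] at hv
      cases hv
    · rintro ⟨l, hl, -⟩
      simp at hl

theorem BO.disj {C : Finset (List V)} (hC : Sta G h C) {x y : V} {i j : Fin m} {K L : List V}
    {Z W : Finset (List V)} (hb : BO h C x i K Z) (hb' : BO h C y j L W) (hxy : x ≠ y) :
    (∀ v ∈ K, v ∉ L) ∧ Disjoint Z W := by
  rcases hb with ⟨K', z, rfl, h1, hz, rfl⟩ | ⟨h1, hx, rfl, rfl⟩ <;>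
    rcases hb' with ⟨L', z', rfl, h1', hz', rfl⟩ | ⟨h1', hx', rfl, rfl⟩
  · have hne : K' ++ x :: z :: [] ≠ L' ++ y :: z' :: [] := by
      intro e
      have := List.append_inj_right' e rfl
      simp only [List.cons.injEq] at this
      exact hxy this.1
    refine ⟨?_, by simpa using hne⟩
    intro v hv hv'
    refine hC.disj _ h1 _ h1' hne v ?_ ?_
    · simp only [List.mem_append, List.mem_cons] at hv ⊢; tauto
    · simp only [List.mem_append, List.mem_cons] at hv' ⊢; tauto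
  · refine ⟨?_, by simp⟩
    intro v hv hv'
    rw [List.mem_singleton.mp hv'] at hv
    refine h1' ⟨_, h1, ?_⟩
    simp only [List.mem_append, List.mem_cons] at hv ⊢; tauto
  · refine ⟨?_, by simp⟩
    intro v hv hv'
    rw [List.mem_singleton.mp hv] at hv'
    refine h1 ⟨_, h1', ?_⟩
    simp only [List.mem_append, List.mem_cons] at hv' ⊢; tauto
  · refine ⟨?_, by simp⟩
    intro v hv hv'
    exact hxy ((List.mem_singleton.mp hv).symm.trans (List.mem_singleton.mp hv'))

/-- insertion between two opened exits together with a change inside one spanning set -/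
theorem bstep {C : Finset (List V)} {D : Finset V} {J : Finset ℕ}
    {F : ℕ → Finset (List V)} {ρ j0 : ℕ} (hC : Sta G h C)
    (hJ : ρ + 3 ≤ J.card) (hF : ∀ j ∈ J, F j ⊆ C ∧ Sp h (F j))
    (hd : ∀ i ∈ J, ∀ j ∈ J, i ≠ j → Disjoint (F i) (F j)) (hj0 : j0 ∈ J)
    (hD : ∀ v ∈ D, h v = none ∧ ¬ On C v) {x y : V} {i j : Fin m} {K L : List V}
    {Z W : Finset (List V)} (hb : BO h C x i K Z) (hb' : BO h C y j L W) (hxy : x ≠ y)
    (hp : Pth G D x y) (hZF : Disjoint Z (F j0)) (hWF : Disjoint W (F j0))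
    {Z' N' : Finset (List V)} (hZ' : Z' ⊆ F j0) (hN' : ∀ l ∈ N', IsCn G h l)
    (hNd : ∀ l ∈ N', ∀ l' ∈ N', l ≠ l' → ∀ v ∈ l, v ∉ l') (hNo : ∀ l ∈ N', ∀ v ∈ l, On Z' v)
    (hsum : ∑ l ∈ N', vec h l = ∑ l ∈ Z', vec h l + (Pi.single i 1 + Pi.single j 1))
    (hcard : N'.card ≤ Z'.card) (hWt : ∀ v, h v = none → (On N' v ↔ On Z' v)) :
    ∃ C', Out G h C D ρ C' := by
  obtain ⟨p, a', b', hps, hpn, hpD, hxa, hbx⟩ := hp
  obtain ⟨a, s1, e1⟩ := hb.st hC
  obtain ⟨b, s2, e2⟩ := hb'.st hC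
  obtain ⟨dKL, dZW⟩ := hb.disj hC hb' hxy
  have hFC := (hF j0 hj0).1
  have hpK : ∀ v ∈ K, v ∉ p := by
    intro v hv hv'
    have h1 := hD v ((hpD v).mp hv')
    have h2 := (hb.wt h1.1).mp hv
    obtain ⟨l, hl, hvl⟩ := h2
    exact h1.2 ⟨l, hb.sub.1 hl, hvl⟩
  have hpL : ∀ v ∈ L, v ∉ p := by
    intro v hv hv'
    have h1 := hD v ((hpD v).mp hv')
    have h2 := (hb'.wt h1.1).mp hv
    obtain ⟨l, hl, hvl⟩ := h2
    exact h1.2 ⟨l, hb'.sub.1 hl, hvl⟩
  have sE := s1.ext hps hxa hpn (fun v hv => (hD v ((hpD v).mp hv)).1) hpK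
  have c1 := join0 sE s2 hbx (by
    intro v hv hv'
    rcases List.mem_append.mp hv with hv | hv
    · exact dKL v hv hv'
    · exact hpL v hv' hv)
  obtain ⟨N₁, eN1⟩ : ∃ l, l = K ++ p ++ L.reverse := ⟨_, rfl⟩
  rw [← eN1] at c1
  have m1 : ∀ v, v ∈ N₁ ↔ v ∈ K ∨ v ∈ D ∨ v ∈ L := by
    intro v
    rw [eN1, List.mem_append, List.mem_append, List.mem_reverse, hpD, or_assoc]
  -- vertices of `N₁` are not on `Z'`
  have key : ∀ v ∈ N₁, ¬ On Z' v := by
    rintro v hv ⟨l, hl, hvl⟩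
    have hlC := hFC (hZ' hl)
    rcases (m1 v).mp hv with h1 | h1 | h1
    · rcases hb.mem v h1 with ⟨l', h2, h3⟩ | h2
      · refine hC.disj l hlC l' (hb.sub.1 h2) ?_ v hvl h3
        rintro rfl
        exact disjoint_left.mp hZF h2 (hZ' hl)
      · exact h2 ⟨l, hlC, hvl⟩
    · exact (hD v h1).2 ⟨l, hlC, hvl⟩
    · rcases hb'.mem v h1 with ⟨l', h2, h3⟩ | h2
      · refine hC.disj l hlC l' (hb'.sub.1 h2) ?_ v hvl h3
        rintro rfl
        exact disjoint_left.mp hWF h2 (hZ' hl)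
      · exact h2 ⟨l, hlC, hvl⟩
  have hN1 : N₁ ∉ N' := by
    intro h1
    obtain ⟨v, hv⟩ := List.exists_mem_of_ne_nil _ c1.ine_nil
    exact key v hv (hNo _ h1 v hv)
  have hZZ' : Disjoint (Z ∪ W) Z' := by
    rw [disjoint_union_left]
    exact ⟨disjoint_of_subset_right hZ' hZF, disjoint_of_subset_right hZ' hWF⟩
  refine out_of (Z := Z ∪ W ∪ Z') (N := insert N₁ N') (Y := Z ∪ W) hC hJ hF hd hj0
    ?_ ?_ ?_ ?_ ?_ ?_ ?_ ?_ ?_
  · intro l hl
    rcases mem_union.mp hl with hl | hl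
    · exact mem_union_right _ hl
    · exact mem_union_left _ (hZ' hl)
  · have h1 := card_union_le Z W
    have h2 := hb.sub.2
    have h3 := hb'.sub.2
    omega
  · exact union_subset hb.sub.1 hb'.sub.1
  · intro l hl
    rcases mem_insert.mp hl with rfl | hl
    · exact c1
    · exact hN' l hl
  · intro l hl l' hl' hll v hv hv'
    rcases mem_insert.mp hl with a1 | a1 <;> rcases mem_insert.mp hl' with a2 | a2
    · exact hll (a1.trans a2.symm)
    · rw [a1] at hv
      exact key v hv (hNo _ a2 v hv')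
    · rw [a2] at hv'
      exact key v hv' (hNo _ a1 v hv)
    · exact hNd l a1 l' a2 hll v hv hv'
  · intro l hl v hv
    rcases mem_insert.mp hl with rfl | hl
    · rcases (m1 v).mp hv with h1 | h1 | h1
      · rcases hb.mem v h1 with ⟨l', h2, h3⟩ | h2
        · exact Or.inl ⟨l', mem_union_left _ (mem_union_left _ h2), h3⟩
        · exact Or.inr h2
      · exact Or.inr (hD v h1).2
      · rcases hb'.mem v h1 with ⟨l', h2, h3⟩ | h2
        · exact Or.inl ⟨l', mem_union_left _ (mem_union_right _ h2), h3⟩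
        · exact Or.inr h2
    · obtain ⟨l', h1, h2⟩ := hNo l hl v hv
      exact Or.inl ⟨l', mem_union_right _ h1, h2⟩
  · rw [sum_insert hN1, sum_union hZZ', sum_union dZW, e1, e2, hsum, eN1]
    simp only [ivec_append, ivec_reverse]
    rw [vec_none (l := p) (fun v hv => (hD v ((hpD v).mp hv)).1), s1.vec, s2.vec]
    abel
  · rw [card_insert_of_notMem hN1, card_union_of_disjoint hZZ']
    omega
  · intro v hv
    constructor
    · rintro ⟨l, hl, hvl⟩
      rcases mem_insert.mp hl with rfl | hl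
      · rcases (m1 v).mp hvl with h1 | h1 | h1
        · obtain ⟨l', h2, h3⟩ := (hb.wt hv).mp h1
          exact Or.inl ⟨l', mem_union_left _ (mem_union_left _ h2), h3⟩
        · exact Or.inr h1
        · obtain ⟨l', h2, h3⟩ := (hb'.wt hv).mp h1
          exact Or.inl ⟨l', mem_union_left _ (mem_union_right _ h2), h3⟩
      · obtain ⟨l', h1, h2⟩ := (hWt v hv).mp ⟨l, hl, hvl⟩
        exact Or.inl ⟨l', mem_union_right _ h1, h2⟩
    · rintro (⟨l, hl, hvl⟩ | hvD)
      · rcases mem_union.mp hl with hl | hl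
        · rcases mem_union.mp hl with hl | hl
          · exact ⟨N₁, mem_insert_self _ _, (m1 v).mpr (Or.inl ((hb.wt hv).mpr ⟨l, hl, hvl⟩))⟩
          · exact ⟨N₁, mem_insert_self _ _,
              (m1 v).mpr (Or.inr (Or.inr ((hb'.wt hv).mpr ⟨l, hl, hvl⟩)))⟩
        · obtain ⟨l', h1, h2⟩ := (hWt v hv).mpr ⟨l, hl, hvl⟩
          exact ⟨l', mem_insert_of_mem h1, h2⟩
      · exact ⟨N₁, mem_insert_self _ _, (m1 v).mpr (Or.inr (Or.inl hvD))⟩

/-- every exit is of type A or can be opened -/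
theorem exists_BO {C : Finset (List V)} (hC : Sta G h C) {x : V} (hx : On C x ∨ h x ≠ none)
    (hnl : ∀ l ∈ C, l.getLast? ≠ some x) (hA : ¬ ∃ K z R, K ++ x :: z :: R ∈ C ∧ h z = none) :
    ∃ i K Z, BO h C x i K Z := by
  by_cases hon : On C x
  · obtain ⟨l, hl, hxl⟩ := hon
    obtain ⟨K, R, e⟩ := List.append_of_mem hxl
    cases R with
    | nil =>
      exfalso
      exact hnl l hl (by rw [e]; simp)
    | cons z R =>
      have hz : h z ≠ none := fun hz => hA ⟨K, z, R, by rw [← e]; exact hl, hz⟩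
      obtain ⟨i, hi⟩ := Option.ne_none_iff_exists'.mp hz
      have hR : R = [] := by
        by_contra hR
        obtain ⟨a, b, s, t⟩ := (hC.cn _ hl).cut e
        obtain ⟨w, ew, hw⟩ := t.tail
        apply hz
        apply hw
        refine mem_tail_of (A := R.reverse) (B := [z]) (a := b) ?_ (by simpa using hR) z (by simp)
        rw [← ew]; simp
      subst hR
      exact ⟨i, K ++ [x], {K ++ x :: z :: []}, Or.inl ⟨K, z, rfl, by rw [← e]; exact hl, hi, rfl⟩⟩
  · have h1 : h x ≠ none := by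
      rcases hx with h1 | h1
      · exact absurd h1 hon
      · exact h1
    obtain ⟨i, hi⟩ := Option.ne_none_iff_exists'.mp h1
    exact ⟨i, [x], ∅, Or.inr ⟨hon, hi, rfl, rfl⟩⟩

end Pool.Agent.RamH
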