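import Pool.Agent.Lib.MP_078aef_co_h.InsD

/-! A connector leaving a class of hubs, and the merging exchange. -/

namespace Pool.Agent.RamH

open Finset Pool.Agent.RamseyHam Pool.Agent.RamQ

variable {V : Type*} {G : SimpleGraph V} {m : ℕ} {h : V → Option (Fin m)}

/-- the span of the vectors of the direct connectors of `T` -/
def Dir (h : V → Option (Fin m)) (T : Finset (List V)) : Submodule (ZMod 2) (Fin m → ZMod 2) :=
  Submodule.span (ZMod 2) (vec h '' ((T.filter fun l => l.length = 2 : Finset (List V)) :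
    Set (List V)))

theorem IsCn.iends {l : List V} (hl : IsCn G h l) : ∃ a w b i j, l = a :: (w ++ [b]) ∧
    h a = some i ∧ h b = some j ∧ (∀ v ∈ w, h v = none) ∧
    vec h l = Pi.single i 1 + Pi.single j 1 := by
  obtain ⟨a, w, b, rfl, ha, hb, hw⟩ := hl.shape
  obtain ⟨i, hi⟩ := Option.ne_none_iff_exists'.mp ha
  obtain ⟨j, hj⟩ := Option.ne_none_iff_exists'.mp hb
  refine ⟨a, w, b, i, j, rfl, hi, hj, hw, ?_⟩
  rw [ivec_cons, ivec_append, vec_none hw, ivec_cons, ivec_nil, iev_some hi, iev_some hj]
  simp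

/-- a member of the spanning set `T` that is not direct and starts in the class of `i` -/
theorem exists_leave {T : Finset (List V)} (hT : ∀ l ∈ T, IsCn G h l) (hS : Sp h T) {i j : Fin m}
    (hij : Pi.single i 1 + Pi.single j 1 ∉ Dir h T) :
    ∃ e ∈ T, ∃ (s : Bool) (b w : V) (rest : List V) (k : Fin m),
      (bif s then e else e.reverse) = b :: w :: rest ∧ h w = none ∧ h b = some k ∧
      Pi.single k 1 + Pi.single i 1 ∈ Dir h T := by
  classical
  set Δ : Finset (Fin m) := univ.filter fun k => Pi.single k 1 + Pi.single i 1 ∈ Dir h T with hΔ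
  have hmem : ∀ k, k ∈ Δ ↔ Pi.single k 1 + Pi.single i 1 ∈ Dir h T := by
    intro k; simp [hΔ]
  let φ : (Fin m → ZMod 2) →ₗ[ZMod 2] ZMod 2 := ∑ k ∈ Δ, LinearMap.proj k
  have hφ : ∀ k : Fin m, φ (Pi.single k 1) = if k ∈ Δ then 1 else 0 := by
    intro k
    simp only [φ, LinearMap.sum_apply, LinearMap.proj_apply, Pi.single_apply]
    rw [Finset.sum_ite_eq']
  have hex : ∃ e ∈ T, φ (vec h e) ≠ 0 := by
    by_contra hcon
    push Not at hcon
    have h1 : Submodule.span (ZMod 2) (vec h '' (T : Set (List V))) ≤ LinearMap.ker φ := by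
      rw [Submodule.span_le]
      rintro _ ⟨e, he, rfl⟩
      exact hcon e he
    have h2 := h1 (hS i j)
    rw [LinearMap.mem_ker, map_add, hφ, hφ] at h2
    have h3 : i ∈ Δ := by
      rw [hmem, two_self]
      exact zero_mem _
    have h4 : j ∉ Δ := by
      rw [hmem, add_comm]
      exact hij
    rw [if_pos h3, if_neg h4] at h2
    simp at h2
  obtain ⟨e, he, hne⟩ := hex
  obtain ⟨a, w, b, k, k', rfl, ha, hb, hw, hv⟩ := (hT e he).iends
  rw [hv, map_add, hφ, hφ] at hne
  -- exactly one end in the class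
  have hxor : (k ∈ Δ ∧ k' ∉ Δ) ∨ (k ∉ Δ ∧ k' ∈ Δ) := by
    by_cases h1 : k ∈ Δ <;> by_cases h2 : k' ∈ Δ
    · rw [if_pos h1, if_pos h2] at hne
      exact absurd (by decide) hne
    · exact Or.inl ⟨h1, h2⟩
    · exact Or.inr ⟨h1, h2⟩
    · rw [if_neg h1, if_neg h2] at hne
      exact absurd (by decide) hne
  have hwne : w ≠ [] := by
    rintro rfl
    have h1 : Pi.single k 1 + Pi.single k' 1 ∈ Dir h T := by
      rw [← hv]
      refine Submodule.subset_span ⟨_, ?_, rfl⟩
      rw [mem_coe, mem_filter]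
      exact ⟨he, rfl⟩
    rcases hxor with ⟨h2, h3⟩ | ⟨h2, h3⟩
    · apply h3
      rw [hmem] at h2 ⊢
      have h4 := add_mem h1 h2
      have e1 : (Pi.single k 1 + Pi.single k' 1 : Fin m → ZMod 2) +
          (Pi.single k 1 + Pi.single i 1) = (Pi.single k 1 + Pi.single k 1) +
          (Pi.single k' 1 + Pi.single i 1) := by abel
      rw [e1, two_self, zero_add] at h4
      exact h4
    · apply h2
      rw [hmem] at h3 ⊢
      have h4 := add_mem h1 h3
      have e1 : (Pi.single k 1 + Pi.single k' 1 : Fin m → ZMod 2) +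
          (Pi.single k' 1 + Pi.single i 1) = (Pi.single k' 1 + Pi.single k' 1) +
          (Pi.single k 1 + Pi.single i 1) := by abel
      rw [e1, two_self, zero_add] at h4
      exact h4
  rcases hxor with ⟨h2, h3⟩ | ⟨h2, h3⟩
  · obtain ⟨w1, w', rfl⟩ := List.exists_cons_of_ne_nil hwne
    refine ⟨_, he, true, a, w1, w' ++ [b], k, rfl, hw w1 (by simp), ha, (hmem k).mp h2⟩
  · have hwr : w.reverse ≠ [] := by simpa using hwne
    obtain ⟨w1, w', hw1⟩ := List.exists_cons_of_ne_nil hwr
    refine ⟨_, he, false, b, w1, w' ++ [a], k', ?_, ?_, hb, (hmem k').mp h3⟩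
    · simp only [cond_false, List.reverse_cons, List.reverse_append, List.reverse_nil,
        List.nil_append, List.cons_append, hw1]
    · apply hw
      rw [← List.mem_reverse, hw1]
      exact List.mem_cons_self

variable [DecidableEq V]

theorem bif_mem {l : List V} {s : Bool} {v : V} :
    v ∈ (bif s then l else l.reverse) ↔ v ∈ l := by
  cases s <;> simp

omit [DecidableEq V] in
theorem bif_cn {l : List V} (hl : IsCn G h l) (s : Bool) :
    IsCn G h (bif s then l else l.reverse) := by
  cases s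
  · exact hl.irev
  · exact hl

omit [DecidableEq V] in
theorem bif_vec {l : List V} (s : Bool) :
    vec h (bif s then l else l.reverse) = vec h l := by
  cases s
  · exact ivec_reverse l
  · rfl

/-- case B2: merging two members of a spanning set -/
theorem caseB2 {C : Finset (List V)} {D : Finset V} {J : Finset ℕ}
    {F : ℕ → Finset (List V)} {ρ j0 : ℕ} (hC : Sta G h C)
    (hJ : ρ + 3 ≤ J.card) (hF : ∀ j ∈ J, F j ⊆ C ∧ Sp h (F j))
    (hd : ∀ i ∈ J, ∀ j ∈ J, i ≠ j → Disjoint (F i) (F j)) (hj0 : j0 ∈ J)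
    (hD : ∀ v ∈ D, h v = none ∧ ¬ On C v) {x y : V} {i j : Fin m} {K L : List V}
    {Z W : Finset (List V)} (hb : BO h C x i K Z) (hb' : BO h C y j L W) (hxy : x ≠ y)
    (hp : Pth G D x y) (hZF : Disjoint Z (F j0)) (hWF : Disjoint W (F j0))
    {e f : List V} (he : e ∈ F j0) (hf : f ∈ F j0) (hef : e ≠ f) {s t : Bool} {b w b' w' : V}
    {r r' : List V} {k k' : Fin m} (es : (bif s then e else e.reverse) = b :: w :: r)
    (ft : (bif t then f else f.reverse) = b' :: w' :: r') (hw : h w = none) (hw' : h w' = none)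
    (hbk : h b = some k) (hbk' : h b' = some k') (hk : Pi.single k 1 + Pi.single i 1 ∈ Dir h (F j0))
    (hk' : Pi.single k' 1 + Pi.single j 1 ∈ Dir h (F j0)) (hww : G.Adj w w') :
    ∃ C', Out G h C D ρ C' := by
  have hFC := (hF j0 hj0).1
  have ce := bif_cn (hC.cn e (hFC he)) s
  have cf := bif_cn (hC.cn f (hFC hf)) t
  rw [es] at ce
  rw [ft] at cf
  obtain ⟨a₁, b₁, s₁, t₁⟩ := ce.cut (K := []) (x := b) (z := w) (R := r) rfl
  obtain ⟨a₂, b₂, s₂, t₂⟩ := cf.cut (K := []) (x := b') (z := w') (R := r') rfl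
  have me : ∀ v, v ∈ e ↔ v = b ∨ v ∈ w :: r := by
    intro v; rw [← bif_mem (s := s), es, List.mem_cons]
  have mf : ∀ v, v ∈ f ↔ v = b' ∨ v ∈ w' :: r' := by
    intro v; rw [← bif_mem (s := t), ft, List.mem_cons]
  have dis : ∀ v ∈ e, v ∉ f := hC.disj e (hFC he) f (hFC hf) hef
  have cN := join0 t₁ t₂ hww (by
    intro v hv hv'
    rw [List.mem_reverse] at hv hv'
    exact dis v ((me v).mpr (Or.inr hv)) ((mf v).mpr (Or.inr hv')))
  obtain ⟨N₂, eN⟩ : ∃ l, l = (w :: r).reverse ++ ((w' :: r').reverse).reverse := ⟨_, rfl⟩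
  rw [← eN] at cN
  have mN : ∀ v, v ∈ N₂ ↔ v ∈ w :: r ∨ v ∈ w' :: r' := by
    intro v
    rw [eN, List.mem_append, List.reverse_reverse, List.mem_reverse]
  obtain ⟨J', hJ', hsJ⟩ := span_two _ _ (add_mem hk hk')
  have hlen : ∀ l ∈ J', l.length = 2 := fun l hl => (mem_filter.mp (hJ' hl)).2
  have hr : r ≠ [] := by
    rintro rfl
    have := s₁.hub
    have h1 := t₁.hub
    have h2 : b₁ = w := by
      have := t₁.sg.head
      simp at this
      exact this.symm
    rw [h2] at h1
    exact h1 hw
  have hr' : r' ≠ [] := by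
    rintro rfl
    have h1 := t₂.hub
    have h2 : b₂ = w' := by
      have := t₂.sg.head
      simp at this
      exact this.symm
    rw [h2] at h1
    exact h1 hw'
  have hle : e.length ≠ 2 := by
    have h1 : (bif s then e else e.reverse).length = e.length := by cases s <;> simp
    rw [← h1, es]
    have := List.length_pos_of_ne_nil hr
    simp only [List.length_cons]
    omega
  have hlf : f.length ≠ 2 := by
    have h1 : (bif t then f else f.reverse).length = f.length := by cases t <;> simp
    rw [← h1, ft]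
    have := List.length_pos_of_ne_nil hr'
    simp only [List.length_cons]
    omega
  have heJ : e ∉ J' := fun h1 => hle (hlen e h1)
  have hfJ : f ∉ J' := fun h1 => hlf (hlen f h1)
  refine bstep (Z' := insert e (insert f J')) (N' := {N₂}) hC hJ hF hd hj0 hD hb hb' hxy hp
    hZF hWF ?_ (by simpa using cN) ?_ ?_ ?_ ?_ ?_
  · intro l hl
    rcases mem_insert.mp hl with rfl | hl
    · exact he
    · rcases mem_insert.mp hl with rfl | hl
      · exact hf
      · exact (mem_filter.mp (hJ' hl)).1
  · intro l hl l' hl' hne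
    exact absurd ((mem_singleton.mp hl).trans (mem_singleton.mp hl').symm) hne
  · intro l hl v hv
    rw [mem_singleton.mp hl] at hv
    rcases (mN v).mp hv with h1 | h1
    · exact ⟨e, mem_insert_self _ _, (me v).mpr (Or.inr h1)⟩
    · exact ⟨f, mem_insert_of_mem (mem_insert_self _ _), (mf v).mpr (Or.inr h1)⟩
  · have v1 : vec h e = Pi.single k 1 + vec h (w :: r) := by
      rw [← bif_vec (h := h) (l := e) s, es, ivec_cons b, iev_some hbk]
    have v2 : vec h f = Pi.single k' 1 + vec h (w' :: r') := by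
      rw [← bif_vec (h := h) (l := f) t, ft, ivec_cons b', iev_some hbk']
    have heI : e ∉ insert f J' := by
      rw [mem_insert, not_or]
      exact ⟨hef, heJ⟩
    rw [sum_singleton, sum_insert heI, sum_insert hfJ, hsJ, v1, v2, eN, List.reverse_reverse,
      ivec_append, ivec_reverse]
    have e1 : (Pi.single k 1 + vec h (w :: r) + (Pi.single k' 1 + vec h (w' :: r') +
        (Pi.single k 1 + Pi.single i 1 + (Pi.single k' 1 + Pi.single j 1))) +
        (Pi.single i 1 + Pi.single j 1) : Fin m → ZMod 2) =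
        (Pi.single k 1 + Pi.single k 1) + (Pi.single k' 1 + Pi.single k' 1) +
        (Pi.single i 1 + Pi.single i 1) + (Pi.single j 1 + Pi.single j 1) +
        (vec h (w :: r) + vec h (w' :: r')) := by abel
    rw [e1]
    simp only [two_self, zero_add]
  · rw [card_singleton]
    exact card_pos.mpr ⟨e, mem_insert_self _ _⟩
  · intro v hv
    constructor
    · rintro ⟨l, hl, hvl⟩
      rw [mem_singleton.mp hl] at hvl
      rcases (mN v).mp hvl with h1 | h1
      · exact ⟨e, mem_insert_self _ _, (me v).mpr (Or.inr h1)⟩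
      · exact ⟨f, mem_insert_of_mem (mem_insert_self _ _), (mf v).mpr (Or.inr h1)⟩
    · rintro ⟨l, hl, hvl⟩
      refine ⟨N₂, mem_singleton_self _, (mN v).mpr ?_⟩
      rcases mem_insert.mp hl with rfl | hl
      · rcases (me v).mp hvl with h1 | h1
        · rw [h1, hbk] at hv; cases hv
        · exact Or.inl h1
      · rcases mem_insert.mp hl with rfl | hl
        · rcases (mf v).mp hvl with h1 | h1
          · rw [h1, hbk'] at hv; cases hv
          · exact Or.inr h1
        · exfalso
          obtain ⟨a, w0, c, i0, j0', rfl, ha, hc, -, -⟩ :=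
            (hC.cn l (hFC (mem_filter.mp (hJ' hl)).1)).iends
          have h2 := hlen _ hl
          have h3 : w0 = [] := by
            simp only [List.length_cons, List.length_append, List.length_nil] at h2
            exact List.length_eq_zero_iff.mp (by omega)
          subst h3
          simp only [List.nil_append, List.mem_cons, List.not_mem_nil, or_false] at hvl
          rcases hvl with h4 | h4
          · rw [h4, ha] at hv; cases hv
          · rw [h4, hc] at hv; cases hv

/-- case B1: the parity is corrected by direct connectors -/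
theorem caseB1 {C : Finset (List V)} {D : Finset V} {J : Finset ℕ}
    {F : ℕ → Finset (List V)} {ρ j0 : ℕ} (hC : Sta G h C)
    (hJ : ρ + 3 ≤ J.card) (hF : ∀ j ∈ J, F j ⊆ C ∧ Sp h (F j))
    (hd : ∀ i ∈ J, ∀ j ∈ J, i ≠ j → Disjoint (F i) (F j)) (hj0 : j0 ∈ J)
    (hD : ∀ v ∈ D, h v = none ∧ ¬ On C v) {x y : V} {i j : Fin m} {K L : List V}
    {Z W : Finset (List V)} (hb : BO h C x i K Z) (hb' : BO h C y j L W) (hxy : x ≠ y)
    (hp : Pth G D x y) (hZF : Disjoint Z (F j0)) (hWF : Disjoint W (F j0))
    (hij : Pi.single i 1 + Pi.single j 1 ∈ Dir h (F j0)) :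
    ∃ C', Out G h C D ρ C' := by
  have hFC := (hF j0 hj0).1
  obtain ⟨J', hJ', hsJ⟩ := span_two _ _ hij
  refine bstep (Z' := J') (N' := ∅) hC hJ hF hd hj0 hD hb hb' hxy hp
    hZF hWF (fun l hl => (mem_filter.mp (hJ' hl)).1) (by simp) (by simp) (by simp) ?_ (by simp) ?_
  · rw [sum_empty, hsJ, two_self]
  · intro v hv
    constructor
    · rintro ⟨l, hl, -⟩
      simp at hl
    · rintro ⟨l, hl, hvl⟩
      exfalso
      obtain ⟨a, w0, c, i0, j0', rfl, ha, hc, -, -⟩ :=
        (hC.cn l (hFC (mem_filter.mp (hJ' hl)).1)).iends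
      have h2 := (mem_filter.mp (hJ' hl)).2
      have h3 : w0 = [] := by
        simp only [List.length_cons, List.length_append, List.length_nil] at h2
        exact List.length_eq_zero_iff.mp (by omega)
      subst h3
      simp only [List.nil_append, List.mem_cons, List.not_mem_nil, or_false] at hvl
      rcases hvl with h4 | h4
      · rw [h4, ha] at hv; cases hv
      · rw [h4, hc] at hv; cases hv

end Pool.Agent.RamH
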