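import Pool.Agent.Lib.MP_078aef_co_h.InsE

/-! The insertion lemma. -/

namespace Pool.Agent.RamH

open Finset Pool.Agent.RamseyHam Pool.Agent.RamQ

variable {V : Type*} [Fintype V] [DecidableEq V] {G : SimpleGraph V} {m : ℕ}
  {h : V → Option (Fin m)}

/-- more than `α(W)` vertices of `W` are not independent -/
theorem exists_adj {w : ℕ} (hw : al G (Wt h) ≤ w) {S : Finset V} (hS : ∀ v ∈ S, h v = none)
    (hc : w + 1 ≤ S.card) : ∃ u ∈ S, ∃ v ∈ S, G.Adj u v := by
  by_contra hcon
  push Not at hcon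
  have h1 : Ind G S := fun x hx y hy => hcon x hx y hy
  have h2 := h1.card_le_al (D := Wt h) (fun v hv => mem_Wt.mpr (hS v hv))
  omega

/-- insertion when no exit is the last vertex of a connector -/
theorem ins1 {w ρ : ℕ} (hw : al G (Wt h) ≤ w)
    {C : Finset (List V)} (hC : Sta G h C) (hR : Rob h C (ρ + 3)) {D X : Finset V}
    (hD : ∀ v ∈ D, h v = none ∧ ¬ On C v) (hDne : D.Nonempty)
    (hX : 5 * w + 2 ≤ X.card) (hXo : ∀ x ∈ X, On C x ∨ h x ≠ none)
    (hnl : ∀ x ∈ X, ∀ l ∈ C, l.getLast? ≠ some x)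
    (hp : ∀ x ∈ X, ∀ y ∈ X, x ≠ y → Pth G D x y) :
    ∃ C', Out G h C D ρ C' := by
  classical
  obtain ⟨J, F, hJ, hF, hd⟩ := hR
  have hw1 : 1 ≤ w := by
    have h1 := al_pos (G := G) hDne
    have h2 : al G D ≤ al G (Wt h) := al_mono (fun v hv => mem_Wt.mpr (hD v hv).1)
    omega
  by_contra hno
  -- type A exits
  set XA := X.filter fun x => ∃ K z R, K ++ x :: z :: R ∈ C ∧ h z = none with hXA
  have hAc : XA.card ≤ w := by
    by_contra hcon
    have hch : ∀ x ∈ XA, ∃ z, ∃ K R, K ++ x :: z :: R ∈ C ∧ h z = none := by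
      intro x hx
      obtain ⟨K, z, R, h1, h2⟩ := (mem_filter.mp hx).2
      exact ⟨z, K, R, h1, h2⟩
    choose! z hz using hch
    have hinj : Set.InjOn z XA := by
      intro x hx y hy hxy
      obtain ⟨K, R, h1, -⟩ := hz x hx
      obtain ⟨K', R', h1', -⟩ := hz y hy
      by_contra hne
      have hl : K ++ x :: z x :: R = K' ++ y :: z y :: R' := by
        by_contra hll
        refine hC.disj _ h1 _ h1' hll (z x) (by simp) ?_
        rw [hxy]; simp
      have hn := (hC.cn _ h1).nodup
      have e1 : (K ++ [x]) ++ z x :: R = (K' ++ [y]) ++ z x :: R' := by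
        rw [← hxy] at hl
        simpa using hl
      have hn1 : ((K ++ [x]) ++ z x :: R).Nodup := by simpa using hn
      have hn2 : ((K' ++ [y]) ++ z x :: R').Nodup := by rw [← e1]; exact hn1
      rw [List.nodup_append] at hn1 hn2
      have e2 : K ++ [x] = K' ++ [y] := by
        rcases List.append_eq_append_iff.mp e1 with ⟨M, e3, e4⟩ | ⟨M, e3, e4⟩
        · cases M with
          | nil => simpa using e3.symm
          | cons k M =>
            rw [List.cons_append, List.cons.injEq] at e4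
            exfalso
            refine hn2.2.2 (z x) ?_ (z x) (by simp) rfl
            rw [e3, e4.1]; simp
        · cases M with
          | nil => simpa using e3
          | cons k M =>
            rw [List.cons_append, List.cons.injEq] at e4
            exfalso
            refine hn1.2.2 (z x) ?_ (z x) (by simp) rfl
            rw [e3, e4.1]; simp
      have e5 := List.append_inj_right' e2 rfl
      rw [List.cons.injEq] at e5
      exact hne e5.1
    have himc : (XA.image z).card = XA.card := card_image_of_injOn hinj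
    obtain ⟨u, hu, v, hv, huv⟩ := exists_adj (G := G) hw (S := XA.image z) (by
      intro v hv
      obtain ⟨x, hx, rfl⟩ := mem_image.mp hv
      obtain ⟨K, R, -, h2⟩ := hz x hx
      exact h2) (by omega)
    obtain ⟨x, hx, rfl⟩ := mem_image.mp hu
    obtain ⟨y, hy, rfl⟩ := mem_image.mp hv
    obtain ⟨K, R, h1, -⟩ := hz x hx
    obtain ⟨K', R', h1', -⟩ := hz y hy
    have hxy : x ≠ y := by
      rintro rfl
      exact G.loopless.irrefl _ huv
    have hxX := (mem_filter.mp hx).1
    have hyX := (mem_filter.mp hy).1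
    exact hno (caseA hC hJ hF hd hD h1 h1' hxy huv (hp x hxX y hyX hxy) (hp y hyX x hxX hxy.symm))
  -- type B exits
  set XB := X \ XA with hXB
  have hBc : 4 * w + 2 ≤ XB.card := by
    have h1 : XB.card = X.card - XA.card := card_sdiff_of_subset (filter_subset _ _)
    omega
  have hB : ∀ x ∈ XB, ∃ i K Z, BO h C x i K Z := by
    intro x hx
    obtain ⟨hxX, hxA⟩ := mem_sdiff.mp hx
    refine exists_BO hC (hXo x hxX) (hnl x hxX) ?_
    intro hcon
    exact hxA (mem_filter.mpr ⟨hxX, hcon⟩)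
  have hne0 : (XB).Nonempty := card_pos.mp (by omega)
  obtain ⟨x0, hx0⟩ := hne0
  obtain ⟨i0, -, -, -⟩ := hB x0 hx0
  have : Nonempty (Fin m) := ⟨i0⟩
  choose! iX KX ZX hBO using hB
  -- the choice of the spanning set
  obtain ⟨j1, hj1, j2, hj2, hj12⟩ : ∃ j1 ∈ J, ∃ j2 ∈ J, j1 ≠ j2 := by
    obtain ⟨a, ha, b, hb, hab⟩ := one_lt_card.mp (show 1 < J.card by omega)
    exact ⟨a, ha, b, hb, hab⟩
  obtain ⟨j0, hj0, hj0c⟩ : ∃ j0 ∈ J, 2 * w + 1 ≤ (XB.filter fun x => Disjoint (ZX x) (F j0)).card := by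
    by_contra hcon
    push Not at hcon
    have h1 := hcon j1 hj1
    have h2 := hcon j2 hj2
    have h3 : XB ⊆ (XB.filter fun x => Disjoint (ZX x) (F j1)) ∪
        (XB.filter fun x => Disjoint (ZX x) (F j2)) := by
      intro x hx
      rw [mem_union, mem_filter, mem_filter]
      by_contra hc
      push Not at hc
      have h4 := hc.1 hx
      have h5 := hc.2 hx
      rw [not_disjoint_iff] at h4 h5
      obtain ⟨a, ha, ha'⟩ := h4
      obtain ⟨b, hb, hb'⟩ := h5
      have h6 : a = b := card_le_one.mp (hBO x hx).sub.2 a ha b hb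
      rw [← h6] at hb'
      exact disjoint_left.mp (hd j1 hj1 j2 hj2 hj12) ha' hb'
    have h4 := (card_le_card h3).trans (card_union_le _ _)
    omega
  set XC := XB.filter fun x => Disjoint (ZX x) (F j0) with hXC
  have hCB : ∀ x ∈ XC, x ∈ XB ∧ Disjoint (ZX x) (F j0) := fun x hx => mem_filter.mp hx
  have hCX : ∀ x ∈ XC, x ∈ X := fun x hx => (mem_sdiff.mp (hCB x hx).1).1
  have hB1 : ∀ x ∈ XC, ∀ y ∈ XC, x ≠ y →
      Pi.single (iX x) 1 + Pi.single (iX y) 1 ∉ Dir h (F j0) := by
    intro x hx y hy hxy hmem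
    exact hno (caseB1 hC hJ hF hd hj0 hD (hBO x (hCB x hx).1) (hBO y (hCB y hy).1) hxy
      (hp x (hCX x hx) y (hCX y hy) hxy) (hCB x hx).2 (hCB y hy).2 hmem)
  have hlv : ∀ x ∈ XC, ∃ e ∈ F j0, ∃ (s : Bool) (b w : V) (rest : List V) (k : Fin m),
      (bif s then e else e.reverse) = b :: w :: rest ∧ h w = none ∧ h b = some k ∧
      Pi.single k 1 + Pi.single (iX x) 1 ∈ Dir h (F j0) := by
    intro x hx
    obtain ⟨y, hy, hyx⟩ : ∃ y ∈ XC, y ≠ x := exists_mem_ne (by omega) x
    exact exists_leave (fun l hl => hC.cn l ((hF j0 hj0).1 hl)) (hF j0 hj0).2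
      (hB1 x hx y hy hyx.symm)
  have : Nonempty V := ⟨x0⟩
  have : Inhabited V := ⟨x0⟩
  choose! E hE S b u r k hS hu hb hk using hlv
  -- at most two exits share a member of the spanning set
  have hinj : Set.InjOn (fun x => (E x, S x)) XC := by
    intro x hx y hy hxy
    simp only [Prod.mk.injEq] at hxy
    by_contra hne
    have e1 := hS x hx
    have e2 := hS y hy
    rw [hxy.1, hxy.2, e2] at e1
    rw [List.cons.injEq] at e1
    have e3 : k x = k y := by
      have h1 := hb x hx
      have h2 := hb y hy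
      rw [← e1.1, h2] at h1
      exact (Option.some.inj h1).symm
    refine hB1 x hx y hy hne ?_
    have h3 := add_mem (hk x hx) (hk y hy)
    rw [e3] at h3
    have e4 : (Pi.single (k y) 1 + Pi.single (iX x) 1 : Fin m → ZMod 2) +
        (Pi.single (k y) 1 + Pi.single (iX y) 1) = (Pi.single (k y) 1 + Pi.single (k y) 1) +
        (Pi.single (iX x) 1 + Pi.single (iX y) 1) := by abel
    rw [e4, two_self, zero_add] at h3
    exact h3
  have himg : XC.card ≤ 2 * (XC.image E).card := by
    have h1 : (XC.image fun x => (E x, S x)).card = XC.card := card_image_of_injOn hinj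
    have h2 : (XC.image fun x => (E x, S x)) ⊆ (XC.image E) ×ˢ (univ : Finset Bool) := by
      intro q hq
      obtain ⟨x, hx, rfl⟩ := mem_image.mp hq
      exact mem_product.mpr ⟨mem_image_of_mem _ hx, mem_univ _⟩
    have h3 := card_le_card h2
    rw [card_product, h1] at h3
    simp only [card_univ, Fintype.card_bool] at h3
    omega
  -- a section
  have hsec : ∀ e ∈ XC.image E, ∃ x ∈ XC, E x = e := fun e he => by
    obtain ⟨x, hx, h1⟩ := mem_image.mp he
    exact ⟨x, hx, h1⟩
  choose! σ hσ1 hσ2 using hsec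
  have humem : ∀ x ∈ XC, u x ∈ E x := by
    intro x hx
    rw [← bif_mem (s := S x), hS x hx]
    simp
  have hinj2 : Set.InjOn (fun e => u (σ e)) (XC.image E : Finset (List V)) := by
    intro e he f hf hef
    by_contra hne
    have h1 := humem _ (hσ1 e he)
    have h2 := humem _ (hσ1 f hf)
    rw [hσ2 e he] at h1
    rw [hσ2 f hf] at h2
    have hef' : u (σ e) = u (σ f) := hef
    rw [← hef'] at h2
    have h3 : e ∈ F j0 := by
      have := hE _ (hσ1 e he)
      rwa [hσ2 e he] at this
    have h4 : f ∈ F j0 := by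
      have := hE _ (hσ1 f hf)
      rwa [hσ2 f hf] at this
    exact hC.disj e ((hF j0 hj0).1 h3) f ((hF j0 hj0).1 h4) hne _ h1 h2
  have himc : ((XC.image E).image fun e => u (σ e)).card = (XC.image E).card :=
    card_image_of_injOn hinj2
  obtain ⟨p, hpm, q, hqm, hpq⟩ := exists_adj (G := G) hw
    (S := (XC.image E).image fun e => u (σ e)) (by
      intro v hv
      obtain ⟨e, he, rfl⟩ := mem_image.mp hv
      exact hu _ (hσ1 e he)) (by omega)
  obtain ⟨e, he, rfl⟩ := mem_image.mp hpm
  obtain ⟨f, hf, rfl⟩ := mem_image.mp hqm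
  have hx := hσ1 e he
  have hy := hσ1 f hf
  have hne : σ e ≠ σ f := by
    intro hc
    have hpq' : G.Adj (u (σ e)) (u (σ f)) := hpq
    rw [hc] at hpq'
    exact G.loopless.irrefl _ hpq'
  have hEne : E (σ e) ≠ E (σ f) := by
    rw [hσ2 e he, hσ2 f hf]
    rintro rfl
    exact hne rfl
  exact hno (caseB2 hC hJ hF hd hj0 hD (hBO _ (hCB _ hx).1) (hBO _ (hCB _ hy).1) hne
    (hp _ (hCX _ hx) _ (hCX _ hy) hne) (hCB _ hx).2 (hCB _ hy).2 (hE _ hx) (hE _ hy) hEne
    (hS _ hx) (hS _ hy) (hu _ hx) (hu _ hy) (hb _ hx) (hb _ hy) (hk _ hx) (hk _ hy) hpq)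

end Pool.Agent.RamH
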