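import Pool.Agent.Lib.MP_078aef_co_h.InsF

/-! Reversing all connectors, and the insertion lemma in general. -/

namespace Pool.Agent.RamH

open Finset Pool.Agent.RamseyHam Pool.Agent.RamQ

variable {V : Type*} [DecidableEq V] {G : SimpleGraph V} {m : ℕ} {h : V → Option (Fin m)}

theorem on_rev {C : Finset (List V)} {v : V} : On (C.image List.reverse) v ↔ On C v := by
  constructor
  · rintro ⟨l, hl, hv⟩
    obtain ⟨l', hl', rfl⟩ := mem_image.mp hl
    exact ⟨l', hl', List.mem_reverse.mp hv⟩
  · rintro ⟨l, hl, hv⟩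
    exact ⟨l.reverse, mem_image_of_mem _ hl, List.mem_reverse.mpr hv⟩

theorem sta_rev {C : Finset (List V)} (hC : Sta G h C) : Sta G h (C.image List.reverse) := by
  refine ⟨?_, ?_, ?_⟩
  · intro l hl
    obtain ⟨l', hl', rfl⟩ := mem_image.mp hl
    exact (hC.cn l' hl').irev
  · intro l hl l' hl' hne v hv hv'
    obtain ⟨k, hk, rfl⟩ := mem_image.mp hl
    obtain ⟨k', hk', rfl⟩ := mem_image.mp hl'
    refine hC.disj k hk k' hk' ?_ v (List.mem_reverse.mp hv) (List.mem_reverse.mp hv')
    rintro rfl
    exact hne rfl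
  · rw [sum_image (fun x _ y _ hxy => List.reverse_injective hxy)]
    simp only [ivec_reverse]
    exact hC.even

theorem sp_rev {S : Finset (List V)} (hS : Sp h S) : Sp h (S.image List.reverse) := by
  intro i j
  have h1 : vec h '' ((S.image List.reverse : Finset (List V)) : Set (List V)) =
      vec h '' (S : Set (List V)) := by
    ext x
    constructor
    · rintro ⟨l, hl, rfl⟩
      obtain ⟨l', hl', rfl⟩ := mem_image.mp (mem_coe.mp hl)
      exact ⟨l', mem_coe.mpr hl', (ivec_reverse l').symm⟩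
    · rintro ⟨l, hl, rfl⟩
      exact ⟨l.reverse, mem_coe.mpr (mem_image_of_mem _ (mem_coe.mp hl)), ivec_reverse l⟩
  rw [h1]
  exact hS i j

theorem rob_rev {C : Finset (List V)} {ρ : ℕ} (hR : Rob h C ρ) :
    Rob h (C.image List.reverse) ρ := by
  obtain ⟨J, F, hJ, hF, hd⟩ := hR
  refine ⟨J, fun j => (F j).image List.reverse, hJ, ?_, ?_⟩
  · intro j hj
    exact ⟨image_subset_image (hF j hj).1, sp_rev (hF j hj).2⟩
  · intro i hi j hj hij
    rw [disjoint_image List.reverse_injective]
    exact hd i hi j hj hij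

omit [DecidableEq V] in
theorem Rob.mono {C : Finset (List V)} {ρ ρ' : ℕ} (hR : Rob h C ρ) (hρ : ρ' ≤ ρ) :
    Rob h C ρ' := by
  obtain ⟨J, F, hJ, hF, hd⟩ := hR
  exact ⟨J, F, hρ.trans hJ, hF, hd⟩

/-- the insertion lemma -/
theorem insertion [Fintype V] {w ρ : ℕ} (hw : al G (Wt h) ≤ w)
    {C : Finset (List V)} (hC : Sta G h C) (hR : Rob h C (ρ + 3)) {D X : Finset V}
    (hD : ∀ v ∈ D, h v = none ∧ ¬ On C v) (hDne : D.Nonempty)
    (hX : 10 * w + 4 ≤ X.card) (hXo : ∀ x ∈ X, On C x ∨ h x ≠ none)
    (hp : ∀ x ∈ X, ∀ y ∈ X, x ≠ y → Pth G D x y) :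
    ∃ C', Out G h C D ρ C' := by
  classical
  set X1 := X.filter fun x => ∀ l ∈ C, l.getLast? ≠ some x with hX1
  set X2 := X.filter fun x => ¬ ∀ l ∈ C, l.getLast? ≠ some x with hX2
  have hcard : X1.card + X2.card = X.card := card_filter_add_card_filter_not _
  rcases Nat.lt_or_ge X1.card (5 * w + 2) with h1 | h1
  · have h2 : 5 * w + 2 ≤ X2.card := by omega
    obtain ⟨C', hC'⟩ := ins1 (X := X2) hw (sta_rev hC) (rob_rev hR)
      (fun v hv => ⟨(hD v hv).1, fun hon => (hD v hv).2 (on_rev.mp hon)⟩) hDne h2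
      (fun x hx => by
        rcases hXo x (mem_filter.mp hx).1 with h3 | h3
        · exact Or.inl (on_rev.mpr h3)
        · exact Or.inr h3)
      (by
        intro x hx l hl hlast
        obtain ⟨l', hl', rfl⟩ := mem_image.mp hl
        rw [List.getLast?_reverse] at hlast
        have h3 := (mem_filter.mp hx).2
        push Not at h3
        obtain ⟨k, hk, hkx⟩ := h3
        have hx1 : x ∈ l' := List.mem_of_mem_head? hlast
        have hx2 : x ∈ k := List.mem_of_getLast? hkx
        have hlk : l' = k := by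
          by_contra hne
          exact hC.disj l' hl' k hk hne x hx1 hx2
        subst hlk
        obtain ⟨a, u, b, e, -⟩ := (hC.cn l' hl').shape
        have hn := (hC.cn l' hl').nodup
        rw [e] at hlast hkx hn
        simp only [List.head?_cons, Option.some.injEq] at hlast
        rw [← List.cons_append, List.getLast?_concat, Option.some.injEq] at hkx
        rw [List.nodup_cons] at hn
        apply hn.1
        rw [hlast, ← hkx]
        simp)
      (fun x hx y hy hxy => hp x (mem_filter.mp hx).1 y (mem_filter.mp hy).1 hxy)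
    refine ⟨C', hC'.sta, hC'.rob, ?_, ?_⟩
    · have h3 := hC'.card
      have h4 : (C.image List.reverse).card ≤ C.card := card_image_le
      omega
    · intro v hv
      rw [hC'.on v hv, on_rev]
  · exact ins1 (X := X1) hw hC hR hD hDne h1 (fun x hx => hXo x (mem_filter.mp hx).1)
      (fun x hx => (mem_filter.mp hx).2)
      (fun x hx y hy hxy => hp x (mem_filter.mp hx).1 y (mem_filter.mp hy).1 hxy)

end Pool.Agent.RamH
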