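import Pool.Agent.Lib.MP_078aef_co_h.InsG
import Pool.Agent.Lib.MP_078aef_co_q.HamConn

/-! Exits of an item and the insertion of a list of items. -/

namespace Pool.Agent.RamH

open Finset Pool.Agent.RamseyHam Pool.Agent.RamQ

variable {V : Type*} [Fintype V] [DecidableEq V] {G : SimpleGraph V} {m : ℕ}
  {h : V → Option (Fin m)}

/-- a tough graph has no small cut -/
theorem Tough.cuts {K : ℕ} (hT : Tough G K) : Cuts G K := by
  intro P Q hP hQ hd hn
  have h1 := hT 1 (univ \ (P ∪ Q)) (fun i => if i = 0 then P else Q)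
    (by
      intro i
      fin_cases i
      · exact hP
      · exact hQ)
    (by
      intro i j hij
      fin_cases i <;> fin_cases j
      · exact absurd rfl hij
      · exact hd
      · exact hd.symm
      · exact absurd rfl hij)
    (by
      intro i j hij
      fin_cases i <;> fin_cases j
      · exact absurd rfl hij
      · exact hn
      · exact hn.symm
      · exact absurd rfl hij)
    (by
      intro v
      by_cases h1 : v ∈ P
      · exact Or.inr ⟨0, h1⟩
      · by_cases h2 : v ∈ Q
        · exact Or.inr ⟨1, h2⟩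
        · exact Or.inl (mem_sdiff.mpr ⟨mem_univ _, by rw [mem_union]; tauto⟩))
  have h2 : (univ \ (P ∪ Q)).card = Fintype.card V - (P ∪ Q).card := by
    rw [card_sdiff_of_subset (subset_univ _), card_univ]
  have h3 := card_union_of_disjoint hd
  have h4 : (P ∪ Q).card ≤ Fintype.card V := card_le_univ _
  omega

/-- disjoint edges leaving `D` -/
theorem exists_match {K : ℕ} (hT : Tough G K) {D : Finset V} : ∀ N : ℕ, N ≤ D.card →
    N + D.card ≤ Fintype.card V → 2 * N ≤ K →
    ∃ (X : Finset V) (f : V → V), X.card = N ∧ (∀ x ∈ X, x ∉ D ∧ f x ∈ D ∧ G.Adj x (f x)) ∧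
      Set.InjOn f X := by
  classical
  intro N
  induction N with
  | zero =>
    intro _ _ _
    exact ⟨∅, id, rfl, by simp, by simp⟩
  | succ N ih =>
    intro h1 h2 h3
    obtain ⟨X, f, hX, hf, hinj⟩ := ih (by omega) (by omega) (by omega)
    have hXD : Disjoint X D := by
      rw [disjoint_left]
      exact fun x hx => (hf x hx).1
    have himD : X.image f ⊆ D := by
      intro y hy
      obtain ⟨x, hx, rfl⟩ := mem_image.mp hy
      exact (hf x hx).2.1
    have hic : (X.image f).card = N := by rw [card_image_of_injOn hinj, hX]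
    set P := D \ X.image f with hP
    set Q := univ \ (D ∪ X) with hQ
    have hPc : P.card = D.card - N := by rw [hP, card_sdiff_of_subset himD, hic]
    have hQc : Q.card = Fintype.card V - (D.card + N) := by
      rw [hQ, card_sdiff_of_subset (subset_univ _), card_univ, card_union_of_disjoint hXD.symm, hX]
    obtain ⟨u, hu, v, hv, huv⟩ : ∃ u ∈ P, ∃ v ∈ Q, G.Adj u v := by
      by_contra hcon
      push Not at hcon
      have h4 := hT.cuts P Q (card_pos.mp (by omega)) (card_pos.mp (by omega)) (by
        rw [disjoint_left]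
        intro x hx hx'
        exact (mem_sdiff.mp hx').2 (mem_union_left _ (mem_sdiff.mp hx).1)) (fun x hx y hy =>
          hcon x hx y hy)
      omega
    have hvX : v ∉ X := fun h4 => (mem_sdiff.mp hv).2 (mem_union_right _ h4)
    have hvD : v ∉ D := fun h4 => (mem_sdiff.mp hv).2 (mem_union_left _ h4)
    refine ⟨insert v X, Function.update f v u, by rw [card_insert_of_notMem hvX, hX], ?_, ?_⟩
    · intro x hx
      rcases mem_insert.mp hx with h4 | h4
      · rw [h4]
        refine ⟨hvD, ?_, ?_⟩
        · rw [Function.update_self]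
          exact (mem_sdiff.mp hu).1
        · rw [Function.update_self]
          exact huv.symm
      · have hne : x ≠ v := by
          intro e
          exact hvX (e ▸ h4)
        rw [Function.update_of_ne hne]
        exact hf x h4
    · have key : ∀ x ∈ X, f x ≠ u := by
        intro x hx e
        exact (mem_sdiff.mp hu).2 (e ▸ mem_image_of_mem _ hx)
      intro x hx y hy hxy
      rcases mem_insert.mp (mem_coe.mp hx) with h4 | h4 <;>
        rcases mem_insert.mp (mem_coe.mp hy) with h5 | h5
      · rw [h4, h5]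
      · exfalso
        have hne : y ≠ v := by
          rintro rfl
          exact hvX h5
        rw [h4, Function.update_self, Function.update_of_ne hne] at hxy
        exact key y h5 hxy.symm
      · exfalso
        have hne : x ≠ v := by
          rintro rfl
          exact hvX h4
        rw [h5, Function.update_self, Function.update_of_ne hne] at hxy
        exact key x h4 hxy
      · have hne : x ≠ v := by
          rintro rfl
          exact hvX h4
        have hne' : y ≠ v := by
          rintro rfl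
          exact hvX h5
        rw [Function.update_of_ne hne, Function.update_of_ne hne'] at hxy
        exact hinj (mem_coe.mpr h4) (mem_coe.mpr h5) hxy

/-- every item of the list has many exits outside the items that come later -/
def Ex (G : SimpleGraph V) (n : ℕ) : List (Finset V) → Prop
  | [] => True
  | D :: L => (∃ X : Finset V, n ≤ X.card ∧ (∀ x ∈ X, x ∉ D ∧ ∀ D' ∈ L, x ∉ D') ∧
      ∀ x ∈ X, ∀ y ∈ X, x ≠ y → Pth G D x y) ∧ Ex G n L

/-- insertion of a list of items -/
theorem insert_list {w : ℕ} (hw : al G (Wt h) ≤ w) : ∀ (L : List (Finset V))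
    (C : Finset (List V)) (ρ : ℕ), Sta G h C → Rob h C (ρ + 3 * L.length) →
    (∀ D ∈ L, D.Nonempty ∧ ∀ v ∈ D, h v = none ∧ ¬ On C v) → L.Pairwise Disjoint →
    (∀ v, h v = none → On C v ∨ ∃ D ∈ L, v ∈ D) → Ex G (10 * w + 4) L →
    ∃ C', Sta G h C' ∧ Rob h C' ρ ∧ C'.card ≤ C.card + L.length ∧ ∀ v, h v = none → On C' v := by
  intro L
  induction L with
  | nil =>
    intro C ρ hC hR _ _ hcov _
    refine ⟨C, hC, by simpa using hR, by simp, ?_⟩
    intro v hv
    rcases hcov v hv with h1 | ⟨D, hD, -⟩
    · exact h1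
    · simp at hD
  | cons D L ih =>
    intro C ρ hC hR hL hpw hcov hEx
    obtain ⟨⟨X, hXc, hXo, hXp⟩, hEx'⟩ := hEx
    rw [List.pairwise_cons] at hpw
    obtain ⟨hDne, hDW⟩ := hL D List.mem_cons_self
    rw [List.length_cons, show ρ + 3 * (L.length + 1) = (ρ + 3 * L.length) + 3 by ring] at hR
    obtain ⟨C', hC'⟩ := insertion hw hC hR hDW hDne hXc (by
      intro x hx
      by_cases hhx : h x = none
      · rcases hcov x hhx with h1 | ⟨D', hD', hxD'⟩
        · exact Or.inl h1
        · exfalso
          rcases List.mem_cons.mp hD' with rfl | h2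
          · exact (hXo x hx).1 hxD'
          · exact (hXo x hx).2 D' h2 hxD'
      · exact Or.inr hhx) hXp
    obtain ⟨C'', h1, h2, h3, h4⟩ := ih C' ρ hC'.sta hC'.rob (by
      intro D' hD'
      obtain ⟨h1, h2⟩ := hL D' (List.mem_cons_of_mem _ hD')
      refine ⟨h1, fun v hv => ⟨(h2 v hv).1, fun hon => ?_⟩⟩
      rcases (hC'.on v (h2 v hv).1).mp hon with h3 | h3
      · exact (h2 v hv).2 h3
      · exact disjoint_left.mp (hpw.1 D' hD') h3 hv) hpw.2 (by
      intro v hv
      rcases hcov v hv with h1 | ⟨D', hD', hvD'⟩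
      · exact Or.inl ((hC'.on v hv).mpr (Or.inl h1))
      · rcases List.mem_cons.mp hD' with rfl | h2
        · exact Or.inl ((hC'.on v hv).mpr (Or.inr hvD'))
        · exact Or.inr ⟨D', h2, hvD'⟩) hEx'
    refine ⟨C'', h1, h2, ?_, h4⟩
    have := hC'.card
    rw [List.length_cons]
    omega

/-- a robust set is a region -/
theorem Rb.reg {D : Finset V} {τ : ℕ} (hD : Rb G D τ) (hτ : al G D < τ) : Reg G D :=
  fun W _ hWc P Q hPQ hd hn => hD.2 W (by omega) P Q hPQ hd hn

/-- exits of a large item -/
theorem ex_big {K w g : ℕ} (hT : Tough G K) (hw : al G (Wt h) ≤ w) {D S1 : Finset V}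
    (hDW : ∀ v ∈ D, h v = none) (hD : Rb G D (w + 1)) (hg : g ≤ D.card) (hgK : 2 * g ≤ K)
    (hout : g + D.card ≤ Fintype.card V) (n : ℕ) (hn : n + S1.card ≤ g) :
    ∃ X : Finset V, n ≤ X.card ∧ (∀ x ∈ X, x ∉ D ∧ x ∉ S1 ∧ ∃ d ∈ D, G.Adj d x) ∧
      ∀ x ∈ X, ∀ y ∈ X, x ≠ y → Pth G D x y := by
  obtain ⟨X, f, hX, hf, hinj⟩ := exists_match hT (D := D) g hg hout hgK
  refine ⟨X \ S1, ?_, ?_, ?_⟩
  · have := le_card_sdiff S1 X
    omega
  · intro x hx
    obtain ⟨h1, h2⟩ := mem_sdiff.mp hx
    exact ⟨(hf x h1).1, h2, f x, (hf x h1).2.1, (hf x h1).2.2.symm⟩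
  · intro x hx y hy hxy
    have hxX := (mem_sdiff.mp hx).1
    have hyX := (mem_sdiff.mp hy).1
    have hne : f x ≠ f y := fun e => hxy (hinj (mem_coe.mpr hxX) (mem_coe.mpr hyX) e)
    have hal : al G D ≤ al G (Wt h) := al_mono (fun v hv => mem_Wt.mpr (hDW v hv))
    obtain ⟨l, hl, hln, hlD⟩ := hamConn (hD.reg (by omega)) (hf x hxX).2.1 (hf y hyX).2.1 hne
    exact ⟨l, f x, f y, hl, hln, hlD, (hf x hxX).2.2, (hf y hyX).2.2.symm⟩

/-- exits of a single vertex -/
theorem ex_one {K : ℕ} (hT : Tough G K) (hK : K < Fintype.card V) {u : V} {S : Finset V} (n : ℕ)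
    (hn : n + S.card ≤ K) :
    ∃ X : Finset V, n ≤ X.card ∧ (∀ x ∈ X, x ≠ u ∧ x ∉ S) ∧
      ∀ x ∈ X, ∀ y ∈ X, x ≠ y → Pth G {u} x y := by
  have hdeg : K ≤ (nb G u).card := by
    by_cases hne : (univ \ insert u (nb G u)).Nonempty
    · have h1 := hT.cuts {u} (univ \ insert u (nb G u)) (by simp) hne (by
        rw [disjoint_left]
        intro x hx hx'
        rw [mem_singleton] at hx
        exact (mem_sdiff.mp hx').2 (hx ▸ mem_insert_self _ _)) (by
        intro x hx y hy hxy
        rw [mem_singleton] at hx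
        subst hx
        exact (mem_sdiff.mp hy).2 (mem_insert_of_mem (mem_nb.mpr hxy)))
      have h2 : (univ \ insert u (nb G u)).card = Fintype.card V - (insert u (nb G u)).card := by
        rw [card_sdiff_of_subset (subset_univ _), card_univ]
      have h3 := card_insert_le u (nb G u)
      have h4 : (insert u (nb G u)).card ≤ Fintype.card V := card_le_univ _
      rw [card_singleton] at h1
      omega
    · rw [not_nonempty_iff_eq_empty, sdiff_eq_empty_iff_subset] at hne
      have h1 := card_le_card hne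
      have h2 := card_insert_le u (nb G u)
      rw [card_univ] at h1
      omega
  refine ⟨nb G u \ S, ?_, ?_, ?_⟩
  · have := le_card_sdiff S (nb G u)
    omega
  · intro x hx
    obtain ⟨h1, h2⟩ := mem_sdiff.mp hx
    exact ⟨(mem_nb.mp h1).ne', h2⟩
  · intro x hx y hy _
    have h1 := mem_nb.mp (mem_sdiff.mp hx).1
    have h2 := mem_nb.mp (mem_sdiff.mp hy).1
    exact ⟨[u], u, u, Seg.single u, List.nodup_singleton u, by simp, h1.symm, h2⟩

end Pool.Agent.RamH
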