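import Pool.Agent.Lib.MP_078aef_co_h.Hax
import Pool.Agent.Lib.MP_078aef_co_h.Euler
import Pool.Agent.Lib.MP_078aef_co_q.HamConn

/-! Disjoint spanning sets of connectors (sections 2a and 2c). -/

namespace Pool.Agent.RamH

open Finset Pool.Agent.RamseyHam Pool.Agent.RamQ

variable {V : Type*} [Fintype V] [DecidableEq V] {G : SimpleGraph V}

/-- one step inside `S` -/
private def stp (G : SimpleGraph V) (S : Finset V) (x y : V) : Prop := x ∈ S ∧ y ∈ S ∧ G.Adj x y

omit [Fintype V] [DecidableEq V] in
private theorem stp_symm {S : Finset V} {x y : V} (h : stp G S x y) : stp G S y x :=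
  ⟨h.2.1, h.1, h.2.2.symm⟩

omit [Fintype V] [DecidableEq V] in
private theorem rt_symm {S : Finset V} {x y : V} (h : Relation.ReflTransGen (stp G S) x y) :
    Relation.ReflTransGen (stp G S) y x := by
  induction h with
  | refl => exact Relation.ReflTransGen.refl
  | tail _ hbc ih => exact Relation.ReflTransGen.head (stp_symm hbc) ih

omit [Fintype V] in
/-- a shortest path inside `S` -/
private theorem short_path {S : Finset V} {u v : V} (hu : u ∈ S)
    (h : (inG G S).Reachable u v) :
    ∃ l : List V, Seg G u l v ∧ l.Nodup ∧ (∀ x ∈ l, x ∈ S) ∧ l.length ≤ 2 * al G S := by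
  classical
  by_cases huv : u = v
  · subst huv
    refine ⟨[u], Seg.single u, by simp, by simpa using hu, ?_⟩
    have := al_pos (G := G) ⟨u, hu⟩
    simp only [List.length_cons, List.length_nil]
    omega
  have hex : ∃ n, ∃ l : List V, Seg G u l v ∧ l.Nodup ∧ (∀ x ∈ l, x ∈ S) ∧ l.length = n := by
    obtain ⟨w, hw, hwn, hwR⟩ := inG_seg h
    exact ⟨_, w, hw, hwn, fun x hx => inG_mem hu (hwR x hx), rfl⟩
  obtain ⟨l, hl, hln, hlS, hlen⟩ := Nat.find_spec hex
  have hmin : ∀ l' : List V, Seg G u l' v → l'.Nodup → (∀ x ∈ l', x ∈ S) →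
      l.length ≤ l'.length := by
    intro l' h1 h2 h3
    rw [hlen]
    exact Nat.find_min' hex ⟨l', h1, h2, h3, rfl⟩
  refine ⟨l, hl, hln, hlS, ?_⟩
  obtain ⟨c, hc, hcl⟩ := Seg.toPF hl hln huv
  obtain ⟨m, hm⟩ : ∃ m, m = l.length := ⟨_, rfl⟩
  rw [← hm] at hc hcl hmin ⊢
  have hcS : ∀ i < m, c i ∈ S := fun i hi => hlS _ ((hcl _).2 ⟨i, hi, rfl⟩)
  have hchord : ∀ i j, i + 1 < j → j < m → ¬ G.Adj (c i) (c j) := by
    intro i j hij hj hadj
    have s1 := hc.seg_Seg (show 0 < i + 1 by omega) (show i + 1 ≤ m by omega)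
    have s2 := hc.seg_Seg hj le_rfl
    rw [show i + 1 - 1 = i by omega, hc.first] at s1
    rw [hc.last] at s2
    have h1 := hmin _ (s1.append s2 hadj) (by
      rw [List.nodup_append]
      refine ⟨hc.seg_nodup (by omega), hc.seg_nodup le_rfl, ?_⟩
      intro x hx y hy hxy
      obtain ⟨a, -, ha, rfl⟩ := mem_seg.mp hx
      obtain ⟨b, hb, hb', rfl⟩ := mem_seg.mp hy
      have := hc.inj a b (by omega) hb' hxy
      omega) (by
      intro x hx
      rw [List.mem_append] at hx
      rcases hx with hx | hx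
      · obtain ⟨a, -, ha, rfl⟩ := mem_seg.mp hx
        exact hcS a (by omega)
      · obtain ⟨b, -, hb, rfl⟩ := mem_seg.mp hx
        exact hcS b hb)
    rw [List.length_append, seg_length, seg_length] at h1
    omega
  have hI : Ind G ((range ((m + 1) / 2)).image fun i => c (2 * i)) := by
    intro x hx y hy hadj
    rw [mem_image] at hx hy
    obtain ⟨a, ha, rfl⟩ := hx
    obtain ⟨b, hb, rfl⟩ := hy
    rw [mem_range] at ha hb
    rcases lt_trichotomy a b with hab | hab | hab
    · exact hchord (2 * a) (2 * b) (by omega) (by omega) hadj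
    · subst hab
      exact G.loopless.irrefl _ hadj
    · exact hchord (2 * b) (2 * a) (by omega) (by omega) hadj.symm
  have hcard : ((range ((m + 1) / 2)).image fun i => c (2 * i)).card = (m + 1) / 2 := by
    rw [card_image_of_injOn, card_range]
    intro a ha b hb hab
    rw [coe_range, Set.mem_Iio] at ha hb
    have := hc.inj (2 * a) (2 * b) (by omega) (by omega) hab
    omega
  have h1 := hI.card_le_al (D := S) (by
    intro x hx
    rw [mem_image] at hx
    obtain ⟨a, ha, rfl⟩ := hx
    rw [mem_range] at ha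
    exact hcS _ (by omega))
  rw [hcard] at h1
  omega

omit [Fintype V] [DecidableEq V] in
private theorem rt_reach {S : Finset V} {x y : V} (hx : x ∈ S)
    (h : Relation.ReflTransGen (stp G S) x y) : y ∈ S ∧ (inG G S).Reachable x y := by
  induction h with
  | refl => exact ⟨hx, SimpleGraph.Reachable.refl _⟩
  | tail _ hbc ih =>
    have h1 : (inG G S).Adj _ _ := ⟨hbc.2.2, hbc.1, hbc.2.1⟩
    exact ⟨hbc.2.1, ih.2.trans h1.reachable⟩

/-- a connector from an inner path -/
private theorem mk_cn {m : ℕ} {h : V → Option (Fin m)} {a b u v : V} {l : List V}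
    (hs : Seg G u l v) (hn : l.Nodup) (hl : ∀ x ∈ l, h x = none) (ha : h a ≠ none)
    (hb : h b ≠ none) (hab : a ≠ b) (h1 : G.Adj a u) (h2 : G.Adj v b) :
    IsCn G h (a :: (l ++ [b])) := by
  have hal : a ∉ l := fun h3 => ha (hl a h3)
  have hbl : b ∉ l := fun h3 => hb (hl b h3)
  have hseg : Seg G a ([a] ++ (l ++ [b])) b :=
    (Seg.single a).append (hs.append (Seg.single b) h2) h1
  refine ⟨hseg.chain, ?_, a, l, b, rfl, ha, hb, hl⟩
  rw [List.nodup_cons]
  refine ⟨?_, ?_⟩
  · rw [List.mem_append]
    rintro (h3 | h3)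
    · exact hal h3
    · rw [List.mem_singleton] at h3
      exact hab h3
  · rw [List.nodup_append]
    refine ⟨hn, by simp, ?_⟩
    intro x hx y hy hxy
    rw [List.mem_singleton] at hy
    subst hxy
    subst hy
    exact hbl hx

omit [Fintype V] in
private theorem mk_cn2 {m : ℕ} {h : V → Option (Fin m)} {a b : V}
    (ha : h a ≠ none) (hb : h b ≠ none) (hab : a ≠ b) (h1 : G.Adj a b) :
    IsCn G h [a, b] := by
  refine ⟨?_, ?_, a, [], b, rfl, ha, hb, by simp⟩
  · simp [h1]
  · simp [hab]

/-- piece T1 -/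
theorem hit {m : ℕ} {h : V → Option (Fin m)} {K t w : ℕ} (hT : Tough G K)
    (hB : ∀ i, Rb G (Hb h i) t) (hw : al G (Wt h) ≤ w) (hKt : K * m < t) {c : ℕ}
    (rep : Fin (c + 1) → Fin m) (cl : Fin m → Fin (c + 1)) (hrep : ∀ i, cl (rep i) = i)
    (X : Finset V) (hX : X.card < K * c) :
    ∃ l a b i j, IsCn G h l ∧ l.length ≤ 2 * w + 2 ∧ l.head? = some a ∧ l.getLast? = some b ∧
      h a = some i ∧ h b = some j ∧ cl i ≠ cl j ∧ ∀ v ∈ l, v ∉ X := by
  classical
  by_contra hcon
  push Not at hcon
  set S : Finset V := Wt h \ X with hS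
  have hSal : al G S ≤ w := (al_mono sdiff_subset).trans hw
  -- direct connectors
  have hdir : ∀ a b i j, a ∉ X → b ∉ X → h a = some i → h b = some j → G.Adj a b → cl i = cl j := by
    intro a b i j ha hb hi hj hadj
    by_contra hne
    have hab : a ≠ b := hadj.ne
    obtain ⟨v, hv, hvX⟩ := hcon [a, b] a b i j (mk_cn2 (by rw [hi]; simp) (by rw [hj]; simp) hab hadj)
      (by simp) rfl rfl hi hj hne
    rw [List.mem_cons, List.mem_singleton] at hv
    rcases hv with rfl | rfl
    · exact ha hvX
    · exact hb hvX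
  -- longer connectors
  have hlong : ∀ a b i j u v, a ∉ X → b ∉ X → h a = some i → h b = some j → G.Adj a u → u ∈ S →
      Relation.ReflTransGen (stp G S) u v → G.Adj v b → cl i = cl j := by
    intro a b i j u v ha hb hi hj hau hu huv hvb
    by_contra hne
    have hab : a ≠ b := by
      rintro rfl
      rw [hi] at hj
      exact hne (by rw [Option.some.inj hj])
    obtain ⟨l, hl1, hl2, hl3, hl4⟩ := short_path hu (rt_reach hu huv).2
    have hlW : ∀ x ∈ l, h x = none := fun x hx => mem_Wt.mp (mem_sdiff.mp (hl3 x hx)).1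
    obtain ⟨z, hz, hzX⟩ := hcon (a :: (l ++ [b])) a b i j
      (mk_cn hl1 hl2 hlW (by rw [hi]; simp) (by rw [hj]; simp) hab hau hvb)
      (by simp only [List.length_cons, List.length_append, List.length_nil]; omega) rfl
      (by rw [← List.cons_append, List.getLast?_append]; rfl) hi hj hne
    rw [List.mem_cons, List.mem_append, List.mem_singleton] at hz
    rcases hz with rfl | hz | rfl
    · exact ha hzX
    · exact (mem_sdiff.mp (hl3 z hz)).2 hzX
    · exact hb hzX
  -- reachable vertices
  set rch : Fin (c + 1) → V → Prop := fun κ v => ∃ a i u, a ∉ X ∧ h a = some i ∧ cl i = κ ∧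
    G.Adj a u ∧ u ∈ S ∧ Relation.ReflTransGen (stp G S) u v with hrch
  have huniq : ∀ κ κ' v, rch κ v → rch κ' v → κ = κ' := by
    rintro κ κ' v ⟨a, i, u, h1, h2, h3, h4, h5, h6⟩ ⟨b, j, u', g1, g2, g3, g4, g5, g6⟩
    rw [← h3, ← g3]
    exact hlong a b i j u u' h1 g1 h2 g2 h4 h5 (h6.trans (rt_symm g6)) g4.symm
  have hext : ∀ κ v v', rch κ v → v' ∈ S → G.Adj v v' → rch κ v' := by
    rintro κ v v' ⟨a, i, u, h1, h2, h3, h4, h5, h6⟩ hv' hadj
    exact ⟨a, i, u, h1, h2, h3, h4, h5, h6.tail ⟨(rt_reach h5 h6).1, hv', hadj⟩⟩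
  set lab : V → Fin (c + 1) := fun v => match h v with
    | some i => cl i
    | none => if hr : ∃ κ, rch κ v then hr.choose else 0 with hlab
  have hlab1 : ∀ v i, h v = some i → lab v = cl i := by
    intro v i hv
    simp only [hlab, hv]
  have hlab2 : ∀ v κ, h v = none → rch κ v → lab v = κ := by
    intro v κ hv hr
    simp only [hlab, hv]
    have hex : ∃ κ, rch κ v := ⟨κ, hr⟩
    rw [dif_pos hex]
    exact huniq _ _ v hex.choose_spec hr
  have hlab3 : ∀ v, h v = none → (¬ ∃ κ, rch κ v) → lab v = 0 := by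
    intro v hv hr
    simp only [hlab, hv]
    rw [dif_neg hr]
  have hnone : ∀ v, v ∉ X → h v = none → v ∈ S := fun v hv hv' =>
    mem_sdiff.mpr ⟨mem_Wt.mpr hv', hv⟩
  -- the main step
  have hhw : ∀ x y, x ∉ X → y ∉ X → G.Adj x y → (∃ i, h x = some i) → h y = none →
      lab x = lab y := by
    rintro x y hx hy hadj ⟨i, hi⟩ hy0
    rw [hlab1 x i hi]
    symm
    exact hlab2 y (cl i) hy0 ⟨x, i, y, hx, hi, rfl, hadj, hnone y hy hy0,
      Relation.ReflTransGen.refl⟩
  have hmain : ∀ x y, x ∉ X → y ∉ X → G.Adj x y → lab x = lab y := by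
    intro x y hx hy hadj
    rcases hhx : h x with _ | i
    · rcases hhy : h y with _ | j
      · by_cases hr : ∃ κ, rch κ x
        · obtain ⟨κ, hκ⟩ := hr
          rw [hlab2 x κ hhx hκ, hlab2 y κ hhy (hext κ x y hκ (hnone y hy hhy) hadj)]
        · by_cases hr' : ∃ κ, rch κ y
          · obtain ⟨κ, hκ⟩ := hr'
            exact absurd ⟨κ, hext κ y x hκ (hnone x hx hhx) hadj.symm⟩ hr
          · rw [hlab3 x hhx hr, hlab3 y hhy hr']
      · exact (hhw y x hy hx hadj.symm ⟨j, hhy⟩ hhx).symm
    · rcases hhy : h y with _ | j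
      · exact hhw x y hx hy hadj ⟨i, hhx⟩ hhy
      · rw [hlab1 x i hhx, hlab1 y j hhy]
        exact hdir x y i j hx hy hhx hhy hadj
  -- toughness
  have hcm : c + 1 ≤ m := by
    have hinj : Function.Injective rep := fun i j hij => by
      rw [← hrep i, ← hrep j, hij]
    have := Fintype.card_le_of_injective rep hinj
    simpa using this
  have hle := hT c X (fun κ => univ.filter (fun v => v ∉ X ∧ lab v = κ)) ?_ ?_ ?_ ?_
  · omega
  · intro κ
    have h1 : X.card < (Hb h (rep κ)).card := by
      have h2 := (hB (rep κ)).1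
      have h3 : K * c ≤ K * m := Nat.mul_le_mul_left _ (by omega)
      omega
    obtain ⟨v, hv, hvX⟩ := exists_mem_notMem_of_card_lt_card h1
    refine ⟨v, ?_⟩
    rw [mem_filter]
    refine ⟨mem_univ _, hvX, ?_⟩
    rw [hlab1 v _ (mem_Hb.mp hv), hrep]
  · intro i j hij
    rw [disjoint_left]
    intro v hv hv'
    rw [mem_filter] at hv hv'
    exact hij (hv.2.2.symm.trans hv'.2.2)
  · intro i j hij x hx y hy hadj
    rw [mem_filter] at hx hy
    apply hij
    rw [← hx.2.2, ← hy.2.2]
    exact hmain x y hx.2.1 hy.2.1 hadj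
  · intro v
    by_cases hv : v ∈ X
    · exact Or.inl hv
    · right
      refine ⟨lab v, ?_⟩
      rw [mem_filter]
      exact ⟨mem_univ _, hv, rfl⟩

/-- the number of classes of a subspace -/
private theorem classes {m : ℕ} (W : Submodule (ZMod 2) (Fin m → ZMod 2)) (hm : 1 ≤ m) :
    ∃ (c : ℕ) (rep : Fin (c + 1) → Fin m) (cl : Fin m → Fin (c + 1)),
      (∀ i, cl (rep i) = i) ∧
      (∀ i j, Pi.single i 1 + Pi.single j 1 ∈ W → cl i = cl j) ∧
      m ≤ c + 1 + Module.finrank (ZMod 2) W := by
  classical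
  have two : ∀ x : Fin m → ZMod 2, x + x = 0 := fun x => by
    funext i
    exact CharTwo.add_self_eq_zero (x i)
  let st : Setoid (Fin m) :=
    { r := fun i j => (Pi.single i 1 + Pi.single j 1 : Fin m → ZMod 2) ∈ W
      iseqv :=
        { refl := fun i => by rw [two]; exact W.zero_mem
          symm := fun {i j} h => by rw [add_comm]; exact h
          trans := fun {i j k} h1 h2 => by
            have h3 := W.add_mem h1 h2
            have h4 : (Pi.single i 1 + Pi.single j 1 + (Pi.single j 1 + Pi.single k 1) :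
                Fin m → ZMod 2) = Pi.single i 1 + Pi.single k 1 := by
              have h5 := two (Pi.single j 1)
              calc (Pi.single i 1 + Pi.single j 1 + (Pi.single j 1 + Pi.single k 1) :
                  Fin m → ZMod 2) = Pi.single i 1 + (Pi.single j 1 + Pi.single j 1) +
                    Pi.single k 1 := by abel
                _ = _ := by rw [h5, add_zero]
            rw [h4] at h3
            exact h3 } }
  have hpos : 0 < Fintype.card (Quotient st) := by
    have : Nonempty (Quotient st) := ⟨Quotient.mk st ⟨0, hm⟩⟩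
    exact Fintype.card_pos
  obtain ⟨c, hc⟩ : ∃ c, Fintype.card (Quotient st) = c + 1 := ⟨_, (Nat.succ_pred_eq_of_pos hpos).symm⟩
  let e : Quotient st ≃ Fin (c + 1) := Fintype.equivFinOfCardEq hc
  refine ⟨c, fun κ => (e.symm κ).out, fun i => e (Quotient.mk st i), ?_, ?_, ?_⟩
  · intro i
    simp
  · intro i j hij
    have : Quotient.mk st i = Quotient.mk st j := Quotient.sound hij
    simp only [this]
  · -- the quotient space is spanned by the classes
    let b : Quotient st → ((Fin m → ZMod 2) ⧸ W) := fun q => W.mkQ (Pi.single q.out 1)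
    have h1 : ∀ i : Fin m, W.mkQ (Pi.single i 1) = b (Quotient.mk st i) := by
      intro i
      have h2 : st.r (Quotient.mk st i).out i := Quotient.exact (Quotient.out_eq (Quotient.mk st i))
      have h3 : (Pi.single (Quotient.mk st i).out 1 + Pi.single i 1 : Fin m → ZMod 2) ∈ W := h2
      have h4 : W.mkQ (Pi.single (Quotient.mk st i).out 1 + Pi.single i 1) = 0 := by
        rw [Submodule.mkQ_apply, Submodule.Quotient.mk_eq_zero]
        exact h3
      rw [map_add] at h4
      have h5 : W.mkQ (Pi.single i 1) + W.mkQ (Pi.single i 1) = 0 := by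
        rw [← map_add, two, map_zero]
      have h6 := h4.trans h5.symm
      exact (add_right_cancel h6).symm
    have hspan : Submodule.span (ZMod 2) (Set.range b) = ⊤ := by
      rw [eq_top_iff]
      rintro x -
      obtain ⟨y, rfl⟩ := W.mkQ_surjective x
      have h2 : y = ∑ i, y i • (Pi.single i 1 : Fin m → ZMod 2) := by
        funext j
        rw [Finset.sum_apply, Finset.sum_eq_single j]
        · simp
        · intro i _ hij
          simp [Pi.single_eq_of_ne (Ne.symm hij)]
        · simp
      rw [h2, map_sum]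
      refine Submodule.sum_mem _ fun i _ => ?_
      rw [map_smul, h1]
      exact Submodule.smul_mem _ _ (Submodule.subset_span ⟨_, rfl⟩)
    have h3 := finrank_range_le_card (R := ZMod 2) b
    rw [Set.finrank, hspan, finrank_top, hc] at h3
    have h4 := Submodule.finrank_quotient_add_finrank W
    rw [Module.finrank_fintype_fun_eq_card, Fintype.card_fin] at h4
    omega

/-- the colour `j` part of a span -/
private theorem proj_mem {m r : ℕ} {h : V → Option (Fin m)} (I : Finset (List V × Fin r))
    (x : Fin r → Fin m → ZMod 2)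
    (hx : x ∈ Submodule.span (ZMod 2)
      ((fun e : List V × Fin r => (Pi.single e.2 (vec h e.1) : Fin r → Fin m → ZMod 2)) ''
        (I : Set (List V × Fin r)))) (j : Fin r) :
    x j ∈ Submodule.span (ZMod 2) (vec h '' {l | (l, j) ∈ I}) := by
  have h1 : x j ∈ (Submodule.span (ZMod 2)
      ((fun e : List V × Fin r => (Pi.single e.2 (vec h e.1) : Fin r → Fin m → ZMod 2)) ''
        (I : Set (List V × Fin r)))).map (LinearMap.proj j) := ⟨x, hx, rfl⟩
  rw [Submodule.map_span] at h1
  refine Submodule.span_le.mpr ?_ h1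
  rintro y ⟨z, ⟨e, he, rfl⟩, rfl⟩
  simp only [LinearMap.proj_apply]
  by_cases hej : e.2 = j
  · subst hej
    rw [Pi.single_eq_same]
    exact Submodule.subset_span ⟨e.1, he, rfl⟩
  · rw [Pi.single_eq_of_ne (Ne.symm hej)]
    exact Submodule.zero_mem _

/-- the vectors with even coordinates in every colour -/
private noncomputable def sumL (m r : ℕ) : (Fin r → Fin m → ZMod 2) →ₗ[ZMod 2] (Fin r → ZMod 2) where
  toFun x := fun j => ∑ i, x j i
  map_add' x y := by
    funext j
    simp only [Pi.add_apply, Finset.sum_add_distrib]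
  map_smul' c x := by
    funext j
    simp only [Pi.smul_apply, smul_eq_mul, Finset.mul_sum, RingHom.id_apply]

private theorem finrank_ker_sumL {m : ℕ} (hm : 1 ≤ m) (r : ℕ) :
    Module.finrank (ZMod 2) (LinearMap.ker (sumL m r)) = r * (m - 1) := by
  have hsurj : LinearMap.range (sumL m r) = ⊤ := by
    rw [LinearMap.range_eq_top]
    intro y
    refine ⟨fun j => Pi.single ⟨0, hm⟩ (y j), ?_⟩
    funext j
    show ∑ i, (Pi.single (⟨0, hm⟩ : Fin m) (y j) : Fin m → ZMod 2) i = y j
    rw [Finset.sum_pi_single']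
    simp
  have h1 := LinearMap.finrank_range_add_finrank_ker (sumL m r)
  rw [hsurj, finrank_top, Module.finrank_fintype_fun_eq_card, Fintype.card_fin,
    Module.finrank_pi_fintype] at h1
  simp only [Module.finrank_fintype_fun_eq_card, Fintype.card_fin, Finset.sum_const,
    Finset.card_univ, smul_eq_mul] at h1
  have h2 : r * m = r + r * (m - 1) := by
    obtain ⟨k, rfl⟩ : ∃ k, m = k + 1 := ⟨m - 1, by omega⟩
    rw [Nat.add_sub_cancel]
    ring
  omega

private theorem finrank_W_le {m r : ℕ} {h : V → Option (Fin m)} (I : Finset (List V × Fin r))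
    (j : Fin r) : Module.finrank (ZMod 2) (Submodule.span (ZMod 2) (vec h '' {l | (l, j) ∈ I})) ≤
      (I.filter (fun e => e.2 = j)).card := by
  classical
  have h1 : vec h '' {l | (l, j) ∈ I} =
      (((I.filter (fun e => e.2 = j)).image (fun e => vec h e.1) : Finset (Fin m → ZMod 2)) :
        Set (Fin m → ZMod 2)) := by
    ext x
    simp only [Set.mem_image, coe_image, coe_filter]
    constructor
    · rintro ⟨l, hl, rfl⟩
      exact ⟨(l, j), ⟨hl, rfl⟩, rfl⟩
    · rintro ⟨⟨l, k⟩, ⟨hl, hk⟩, rfl⟩
      simp only at hk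
      subst hk
      exact ⟨l, hl, rfl⟩
  rw [h1]
  exact (finrank_span_finset_le_card _).trans card_image_le

private theorem vec_of_ends {m : ℕ} {h : V → Option (Fin m)} {l : List V} {a b : V} {i j : Fin m}
    (hl : IsCn G h l) (h1 : l.head? = some a) (h2 : l.getLast? = some b) (h3 : h a = some i)
    (h4 : h b = some j) : vec h l = Pi.single i 1 + Pi.single j 1 := by
  obtain ⟨a', b', i', j', g1, g2, g3, g4, g5⟩ := hl.ends
  rw [h1] at g1
  rw [h2] at g2
  obtain rfl := Option.some.inj g1
  obtain rfl := Option.some.inj g2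
  rw [h3] at g3
  rw [h4] at g4
  obtain rfl := Option.some.inj g3
  obtain rfl := Option.some.inj g4
  exact g5

/-- piece T2 -/
theorem trees {m : ℕ} {h : V → Option (Fin m)} {K t w r : ℕ} (hm : 1 ≤ m) (hT : Tough G K)
    (hB : ∀ i, Rb G (Hb h i) t) (hw : al G (Wt h) ≤ w) (hKt : K * m < t)
    (hr : r * (4 * w + 3) ≤ K) :
    ∃ T : ℕ → Finset (List V), (∀ j < r, ∀ l ∈ T j, IsCn G h l) ∧
      (∀ i < r, ∀ j < r, ∀ l ∈ T i, ∀ l' ∈ T j, (i ≠ j ∨ l ≠ l') → ∀ v ∈ l, v ∉ l') ∧
      ∀ j < r, Sp h (T j) ∧ (T j).card ≤ m := by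
  classical
  set Ls : Finset (List V) :=
    ((List.finite_length_le V (2 * w + 2)).toFinset).filter (fun l => IsCn G h l) with hLs
  have hLs' : ∀ l, l ∈ Ls ↔ l.length ≤ 2 * w + 2 ∧ IsCn G h l := by
    intro l
    rw [hLs, mem_filter, Set.Finite.mem_toFinset]
    rfl
  set E : Finset (List V × Fin r) := Ls ×ˢ univ with hE
  have hE' : ∀ e, e ∈ E ↔ e.1 ∈ Ls := by
    intro e
    rw [hE, mem_product]
    exact and_iff_left (mem_univ _)
  set vt : List V × Fin r → Finset V := fun e => e.1.toFinset with hvt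
  set vc : List V × Fin r → (Fin r → Fin m → ZMod 2) :=
    fun e => Pi.single e.2 (vec h e.1) with hvc
  obtain ⟨I, hIE, hdisj, hlin, hcard⟩ := haxell (F := ZMod 2) E vt vc (2 * w + 2) (r * (m - 1))
    (by
      intro e he
      exact (List.toFinset_card_le _).trans ((hLs' _).mp ((hE' e).mp he)).1)
    (by
      intro I hIE _ _ hcard X hX
      have hrpos : 0 < r := by
        rcases Nat.eq_zero_or_pos r with h0 | h0
        · subst h0
          simp at hcard
        · exact h0
      have : NeZero r := ⟨hrpos.ne'⟩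
      choose c rep cl h1 h2 h3 using fun j : Fin r =>
        classes (Submodule.span (ZMod 2) (vec h '' {l | (l, j) ∈ I})) hm
      have hsum : ∑ j : Fin r, (I.filter (fun e => e.2 = j)).card = I.card := by
        rw [card_eq_sum_card_fiberwise (f := fun e : List V × Fin r => e.2) (t := univ)
          (fun _ _ => by simp)]
      have h4 : ∀ j : Fin r, m - 1 ≤ c j + (I.filter (fun e => e.2 = j)).card := by
        intro j
        have h5 := h3 j
        have h6 := finrank_W_le (h := h) I j
        omega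
      have h5 : r * (m - 1) ≤ ∑ j : Fin r, c j + I.card := by
        have h6 := Finset.sum_le_sum (s := univ) fun (j : Fin r) _ => h4 j
        rw [Finset.sum_add_distrib, hsum, Finset.sum_const, card_univ, Fintype.card_fin,
          smul_eq_mul] at h6
        exact h6
      obtain ⟨j, hj⟩ : ∃ j : Fin r, r * (m - 1) - I.card ≤ r * c j := by
        by_contra hcon
        push Not at hcon
        have h6 := Finset.sum_lt_sum_of_nonempty (s := (univ : Finset (Fin r)))
          univ_nonempty fun j _ => hcon j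
        rw [← Finset.mul_sum, Finset.sum_const, card_univ, Fintype.card_fin, smul_eq_mul] at h6
        have h7 := Nat.lt_of_mul_lt_mul_left h6
        omega
      have hXc : X.card < K * c j := by
        set y := r * (m - 1) - I.card with hy
        have hy1 : 1 ≤ y := by omega
        have h6 : (2 * (2 * w + 2) - 1) * (y - 1) < (4 * w + 3) * y := by
          have h7 : 2 * (2 * w + 2) - 1 = 4 * w + 3 := by omega
          rw [h7]
          exact Nat.mul_lt_mul_of_pos_left (by omega) (by omega)
        have h7 : (4 * w + 3) * y ≤ (4 * w + 3) * (r * c j) := Nat.mul_le_mul_left _ hj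
        have h8 : (4 * w + 3) * (r * c j) = (r * (4 * w + 3)) * c j := by ring
        have h9 : (r * (4 * w + 3)) * c j ≤ K * c j := Nat.mul_le_mul_right _ hr
        omega
      obtain ⟨l, a, b, i, i', g1, g2, g3, g4, g5, g6, g7, g8⟩ :=
        hit hT hB hw hKt (rep j) (cl j) (h1 j) X hXc
      refine ⟨(l, j), (hE' _).mpr ((hLs' _).mpr ⟨g2, g1⟩), ?_, ?_⟩
      · intro hmem
        have h6 := proj_mem (h := h) I _ hmem j
        rw [hvc] at h6
        simp only [Pi.single_eq_same] at h6
        rw [vec_of_ends g1 g3 g4 g5 g6] at h6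
        exact g7 (h2 j i i' h6)
      · rw [disjoint_left]
        intro v hv
        exact g8 v (List.mem_toFinset.mp hv))
  -- the span
  have hcn : ∀ e ∈ I, IsCn G h e.1 := fun e he => ((hLs' _).mp ((hE' e).mp (hIE he))).2
  have hspan : Submodule.span (ZMod 2) (vc '' (I : Set (List V × Fin r))) =
      LinearMap.ker (sumL m r) := by
    apply Submodule.eq_of_le_of_finrank_eq
    · refine Submodule.span_le.mpr ?_
      rintro x ⟨e, he, rfl⟩
      obtain ⟨a, b, i, j, -, -, -, -, h5⟩ := (hcn e he).ends
      show sumL m r (Pi.single e.2 (vec h e.1)) = 0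
      funext k
      show ∑ i, (Pi.single e.2 (vec h e.1) : Fin r → Fin m → ZMod 2) k i = 0
      by_cases hk : k = e.2
      · subst hk
        rw [Pi.single_eq_same, h5]
        simp only [Pi.add_apply, Finset.sum_add_distrib, Finset.sum_pi_single']
        simp only [mem_univ, if_true]
        exact CharTwo.add_self_eq_zero 1
      · rw [Pi.single_eq_of_ne hk]
        simp
    · rw [finrank_ker_sumL hm, ← hcard]
      have h1 := finrank_span_eq_card (R := ZMod 2) hlin
      have h2 : Fintype.card (↑(I : Set (List V × Fin r)) : Type _) = I.card := by simp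
      rw [h2] at h1
      rw [← h1, Set.image_eq_range]
  have hsp : ∀ j : Fin r, ∀ i i' : Fin m, (Pi.single i 1 + Pi.single i' 1 : Fin m → ZMod 2) ∈
      Submodule.span (ZMod 2) (vec h '' {l | (l, j) ∈ I}) := by
    intro j i i'
    have h1 : (Pi.single j (Pi.single i 1 + Pi.single i' 1) : Fin r → Fin m → ZMod 2) ∈
        Submodule.span (ZMod 2) (vc '' (I : Set (List V × Fin r))) := by
      rw [hspan, LinearMap.mem_ker]
      funext k
      show ∑ a, (Pi.single j (Pi.single i 1 + Pi.single i' 1) : Fin r → Fin m → ZMod 2) k a = 0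
      by_cases hk : k = j
      · subst hk
        rw [Pi.single_eq_same]
        simp only [Pi.add_apply, Finset.sum_add_distrib, Finset.sum_pi_single']
        simp only [mem_univ, if_true]
        exact CharTwo.add_self_eq_zero 1
      · rw [Pi.single_eq_of_ne hk]
        simp
    have h2 := proj_mem (h := h) I _ h1 j
    rwa [Pi.single_eq_same] at h2
  have hnj : ∀ j : Fin r, m - 1 ≤ (I.filter (fun e => e.2 = j)).card := by
    intro j
    obtain ⟨c, rep, cl, h1, h2, h3⟩ :=
      classes (Submodule.span (ZMod 2) (vec h '' {l | (l, j) ∈ I})) hm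
    have h4 : c = 0 := by
      have h5 := h2 (rep 0) (rep (Fin.last c)) (hsp j _ _)
      rw [h1, h1] at h5
      have h6 := congrArg Fin.val h5
      simp at h6
      exact h6.symm
    have h6 := finrank_W_le (h := h) I j
    omega
  have hsum : ∑ j : Fin r, (I.filter (fun e => e.2 = j)).card = I.card := by
    rw [card_eq_sum_card_fiberwise (f := fun e : List V × Fin r => e.2) (t := univ)
      (fun _ _ => by simp)]
  have hnj' : ∀ j : Fin r, (I.filter (fun e => e.2 = j)).card ≤ m - 1 := by
    intro j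
    rw [← Finset.add_sum_erase univ _ (mem_univ j), hcard] at hsum
    have h1 : (r - 1) * (m - 1) ≤
        ∑ k ∈ univ.erase j, (I.filter (fun e => e.2 = k)).card := by
      have h2 := Finset.sum_le_sum (s := univ.erase j) fun (k : Fin r) _ => hnj k
      rw [Finset.sum_const, card_erase_of_mem (mem_univ j), card_univ, Fintype.card_fin,
        smul_eq_mul] at h2
      exact h2
    have hrpos : 0 < r := lt_of_le_of_lt (Nat.zero_le _) j.2
    have h2 : r * (m - 1) = (r - 1) * (m - 1) + (m - 1) := by
      obtain ⟨k, rfl⟩ : ∃ k, r = k + 1 := ⟨r - 1, by omega⟩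
      rw [Nat.add_sub_cancel]
      ring
    omega
  refine ⟨fun j => if hj : j < r then (I.filter (fun e => e.2 = ⟨j, hj⟩)).image Prod.fst else ∅,
    ?_, ?_, ?_⟩
  · intro j hj l hl
    simp only [dif_pos hj] at hl
    rw [mem_image] at hl
    obtain ⟨e, he, rfl⟩ := hl
    exact hcn e (mem_filter.mp he).1
  · intro i hi j hj l hl l' hl' hne v hv hv'
    simp only [dif_pos hi] at hl
    simp only [dif_pos hj] at hl'
    rw [mem_image] at hl hl'
    obtain ⟨e, he, rfl⟩ := hl
    obtain ⟨f, hf, rfl⟩ := hl'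
    rw [mem_filter] at he hf
    have hef : e ≠ f := by
      rintro rfl
      rcases hne with hne | hne
      · have := he.2.symm.trans hf.2
        exact hne (congrArg Fin.val this)
      · exact hne rfl
    have h1 := hdisj e he.1 f hf.1 hef
    exact (disjoint_left.mp h1) (List.mem_toFinset.mpr hv) (List.mem_toFinset.mpr hv')
  · intro j hj
    simp only [dif_pos hj]
    refine ⟨?_, ?_⟩
    · intro i i'
      have h1 := hsp ⟨j, hj⟩ i i'
      refine Submodule.span_mono ?_ h1
      rintro x ⟨l, hl, rfl⟩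
      refine ⟨l, ?_, rfl⟩
      rw [coe_image]
      exact ⟨(l, ⟨j, hj⟩), by simpa using hl, rfl⟩
    · refine card_image_le.trans ((hnj' ⟨j, hj⟩).trans (Nat.sub_le _ _))

end Pool.Agent.RamH
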