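import Pool.Agent.Lib.MP_078aef_co_h.Items
import Pool.Agent.Lib.MP_078aef_co_h.Dec
import Pool.Agent.Lib.MP_078aef_co_h.Tree
import Pool.Agent.Lib.MP_078aef_co_h.Asm

/-! Theorem G. -/

namespace Pool.Agent.RamH

open Finset Pool.Agent.RamseyHam Pool.Agent.RamQ

variable {V : Type*} [Fintype V] [DecidableEq V] {G : SimpleGraph V} {m : ℕ}
  {h : V → Option (Fin m)}

/-- every sum of parity vectors of connectors is in the span of a spanning set -/
theorem sum_mem_span {S T : Finset (List V)} (hS : ∀ l ∈ S, IsCn G h l) (hT : Sp h T) :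
    ∑ l ∈ S, vec h l ∈ Submodule.span (ZMod 2) (vec h '' (T : Set (List V))) := by
  refine sum_mem fun l hl => ?_
  obtain ⟨a, w, b, i, j, -, -, -, -, hv⟩ := (hS l hl).iends
  rw [hv]
  exact hT i j

/-- the first state: `r` disjoint spanning sets with the parity corrected in the last one -/
theorem start {r N : ℕ} (T : ℕ → Finset (List V)) (hT : ∀ j < r + 1, ∀ l ∈ T j, IsCn G h l)
    (hd : ∀ i < r + 1, ∀ j < r + 1, ∀ l ∈ T i, ∀ l' ∈ T j, (i ≠ j ∨ l ≠ l') → ∀ v ∈ l, v ∉ l')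
    (hS : ∀ j < r + 1, Sp h (T j) ∧ (T j).card ≤ N) :
    ∃ C : Finset (List V), Sta G h C ∧ Rob h C r ∧ C.card ≤ (r + 1) * N := by
  classical
  set U := (range (r + 1)).biUnion T with hU
  have hmemU : ∀ l, l ∈ U ↔ ∃ j < r + 1, l ∈ T j := by
    intro l; simp [hU]
  have hUcn : ∀ l ∈ U, IsCn G h l := by
    intro l hl
    obtain ⟨j, hj, hlj⟩ := (hmemU l).mp hl
    exact hT j hj l hlj
  obtain ⟨J, hJ, hsJ⟩ := span_two _ _ (sum_mem_span hUcn (hS r (by omega)).1)
  have hJU : J ⊆ U := fun l hl => (hmemU l).mpr ⟨r, by omega, hJ hl⟩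
  have hUc : U.card ≤ (r + 1) * N := by
    have := card_biUnion_le_card_mul (range (r + 1)) T N (fun j hj => (hS j (mem_range.mp hj)).2)
    rwa [card_range] at this
  refine ⟨U \ J, ⟨?_, ?_, ?_⟩, ?_, (card_le_card sdiff_subset).trans hUc⟩
  · intro l hl
    exact hUcn l (mem_sdiff.mp hl).1
  · intro l hl l' hl' hne
    obtain ⟨j, hj, hlj⟩ := (hmemU l).mp (mem_sdiff.mp hl).1
    obtain ⟨j', hj', hlj'⟩ := (hmemU l').mp (mem_sdiff.mp hl').1
    exact hd j hj j' hj' l hlj l' hlj' (Or.inr hne)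
  · have h1 := sum_sdiff (f := vec h) hJU
    rw [hsJ] at h1
    have h2 : (∑ l ∈ U \ J, vec h l) + (∑ l ∈ U, vec h l) + (∑ l ∈ U, vec h l) =
        (∑ l ∈ U, vec h l) + (∑ l ∈ U, vec h l) := by rw [h1]
    rw [add_assoc, two_self, add_zero] at h2
    exact h2
  · refine ⟨range r, T, by simp, ?_, ?_⟩
    · intro j hj
      rw [mem_range] at hj
      refine ⟨fun l hl => mem_sdiff.mpr ⟨(hmemU l).mpr ⟨j, by omega, hl⟩, fun hlJ => ?_⟩,
        (hS j (by omega)).1⟩
      obtain ⟨v, hv⟩ := List.exists_mem_of_ne_nil _ (hT j (by omega) l hl).ine_nil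
      exact hd j (by omega) r (by omega) l hl l (hJ hlJ) (Or.inl (by omega)) v hv hv
    · intro i hi j hj hij
      rw [mem_range] at hi hj
      rw [disjoint_left]
      intro l hl hl'
      obtain ⟨v, hv⟩ := List.exists_mem_of_ne_nil _ (hT i (by omega) l hl).ine_nil
      exact hd i (by omega) j (by omega) l hl l hl' (Or.inl hij) v hv hv

/-- exits for the single vertices -/
theorem ex_singles {K n : ℕ} (hT : Tough G K) (hK : K < Fintype.card V) {S : Finset V}
    (hn : n + S.card ≤ K) : ∀ L : List V, L.Nodup → (∀ u ∈ L, u ∈ S) →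
    Ex G n (L.map fun u => {u}) := by
  intro L
  induction L with
  | nil => intro _ _; trivial
  | cons u L ih =>
    intro hL hLS
    rw [List.nodup_cons] at hL
    obtain ⟨X, h1, h2, h3⟩ := ex_one (G := G) hT hK (u := u) (S := S) n hn
    refine ⟨⟨X, h1, ?_, h3⟩, ih hL.2 (fun v hv => hLS v (List.mem_cons_of_mem _ hv))⟩
    intro x hx
    obtain ⟨h4, h5⟩ := h2 x hx
    refine ⟨by simpa using h4, ?_⟩
    intro D' hD' hxD'
    obtain ⟨v, hv, rfl⟩ := List.mem_map.mp hD'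
    rw [mem_singleton] at hxD'
    subst hxD'
    exact h5 (hLS x (List.mem_cons_of_mem _ hv))

/-- exits for all items -/
theorem ex_all {K w g n : ℕ} (hT : Tough G K) (hw : al G (Wt h) ≤ w) (hgK : 2 * g ≤ K)
    {Ds : Finset (Finset V)} {S1 S2 : Finset V}
    (h1 : ∀ D ∈ Ds, (∀ v ∈ D, h v = none) ∧ g ≤ D.card ∧ Rb G D (w + 1))
    (h2 : ∀ D ∈ Ds, ∀ D' ∈ Ds, D ≠ D' → Disjoint D D' ∧ Non G D D')
    (h3 : ∀ D ∈ Ds, Disjoint D S1 ∧ Disjoint D S2 ∧ Non G D S2)
    (hout : ∀ D ∈ Ds, g + D.card ≤ Fintype.card V) (hn : n + S1.card ≤ g)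
    {L' : List (Finset V)} (hL' : Ex G n L') (hLS : ∀ D ∈ L', D ⊆ S1 ∪ S2) :
    ∀ L : List (Finset V), L.Nodup → (∀ D ∈ L, D ∈ Ds) → Ex G n (L ++ L') := by
  intro L
  induction L with
  | nil => intro _ _; exact hL'
  | cons D L ih =>
    intro hL hLD
    rw [List.nodup_cons] at hL
    have hD := hLD D List.mem_cons_self
    obtain ⟨X, e1, e2, e3⟩ := ex_big (G := G) hT hw (h1 D hD).1 (h1 D hD).2.2 (h1 D hD).2.1 hgK
      (hout D hD) (S1 := S1) n hn
    refine ⟨⟨X, e1, ?_, e3⟩, ih hL.2 (fun v hv => hLD v (List.mem_cons_of_mem _ hv))⟩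
    intro x hx
    obtain ⟨h4, h5, d, hd, hdx⟩ := e2 x hx
    refine ⟨h4, ?_⟩
    intro D' hD' hxD'
    rcases List.mem_append.mp hD' with h6 | h6
    · have hne : D ≠ D' := by
        rintro rfl
        exact hL.1 h6
      exact (h2 D hD D' (hLD D' (List.mem_cons_of_mem _ h6)) hne).2 d hd x hxD' hdx
    · rcases mem_union.mp (hLS D' h6 hxD') with h7 | h7
      · exact h5 h7
      · exact (h3 D hD).2.2 d hd x h7 hdx

theorem num1 {w K : ℕ} (hw : 1 ≤ w) (hK : 350 * w ^ 4 ≤ K) :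
    ∃ r, (3 * (w ^ 2 + w * (w ^ 2 + 10 * w + 4)) + 2) * (4 * w + 3) ≤ K ∧
      r = 3 * (w ^ 2 + w * (w ^ 2 + 10 * w + 4)) + 1 ∧ r + 1 ≤ K ∧
      2 * (w ^ 2 + 10 * w + 4) ≤ K ∧ 10 * w + 4 + (w ^ 2 + w * (w ^ 2 + 10 * w + 4)) ≤ K := by
  refine ⟨_, ?_, rfl, ?_, ?_, ?_⟩
  all_goals
    obtain ⟨u, rfl⟩ : ∃ u, w = u + 1 := ⟨w - 1, by omega⟩
    refine le_trans ?_ hK
    ring_nf
    nlinarith [Nat.zero_le (u ^ 4), Nat.zero_le (u ^ 3), Nat.zero_le (u ^ 2), Nat.zero_le u]

/-- Theorem G -/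
theorem thmG {K A w : ℕ} (hw : 1 ≤ w) (hK : 350 * w ^ 4 ≤ K) (hKA : K ≤ A) (hT : Tough G K)
    (hA : al G univ ≤ A) (hn : 2 * A ^ 6 < Fintype.card V)
    (hL : ∀ I : Finset V, Ind G I → (∀ v ∈ I, (nb G v).card < 3 * A ^ 6) → I.card ≤ w) :
    ∃ l, Cyc G l ∧ l.length = Fintype.card V := by
  classical
  have hA350 : 350 ≤ A := by
    have : 1 ≤ w ^ 4 := Nat.one_le_pow _ _ hw
    omega
  obtain ⟨r, hr1, hr2, hr3, hg, hs⟩ := num1 hw hK
  obtain ⟨m, h, hm1, hmA, hB, hdeg⟩ := hubs G (t := A ^ 5) (A := A)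
    (Nat.one_le_pow _ _ (by omega)) hA (by
      have : 2 * A * A ^ 5 = 2 * A ^ 6 := by ring
      omega)
  have hwW : al G (Wt h) ≤ w := by
    obtain ⟨I, hI, hi, hc⟩ := exists_al G (Wt h)
    rw [← hc]
    refine hL I hi ?_
    intro v hv
    have h1 := hdeg v (mem_Wt.mp (hI hv))
    have : 3 * A * A ^ 5 = 3 * A ^ 6 := by ring
    omega
  have hA2 : A ^ 2 ≤ A ^ 5 := Nat.pow_le_pow_right (by omega) (by norm_num)
  have hKm : K * m < A ^ 5 := by
    have h1 : K * m ≤ A ^ 2 := by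
      rw [sq]
      exact Nat.mul_le_mul hKA hmA
    have h2 : A ^ 2 < A ^ 5 := Nat.pow_lt_pow_right (by omega) (by norm_num)
    omega
  obtain ⟨T, hT1, hT2, hT3⟩ := trees (r := r + 1) hm1 hT hB hwW hKm (by
    rw [hr2]; exact hr1)
  obtain ⟨C, hC, hR, hCc⟩ := start T hT1 hT2 hT3
  -- the uncovered vertices
  set U := (Wt h).filter (fun v => ¬ On C v) with hU
  have halU : al G U ≤ w := (al_mono (filter_subset _ _)).trans hwW
  obtain ⟨Ds, S1, S2, d1, d2, d3, d4, d5, d6, d7, d8, d9⟩ :=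
    decomp G (τ := w + 1) (g := w ^ 2 + 10 * w + 4) (by omega) (by nlinarith) U
  have hUmem : ∀ v ∈ U, h v = none ∧ ¬ On C v := by
    intro v hv
    obtain ⟨e1, e2⟩ := mem_filter.mp hv
    exact ⟨mem_Wt.mp e1, e2⟩
  have hS1 : S1.card ≤ (w - 1) * w := by
    refine d8.trans ?_
    rw [Nat.add_sub_cancel]
    exact Nat.mul_le_mul_right _ (by omega)
  have hS2 : S2.card ≤ w * (w ^ 2 + 10 * w + 3) := by
    refine d9.trans ?_
    rw [show w ^ 2 + 10 * w + 4 - 1 = w ^ 2 + 10 * w + 3 by omega]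
    exact Nat.mul_le_mul_right _ halU
  have hS1' : S1.card + w ≤ w ^ 2 := by
    have : (w - 1) * w + w = w ^ 2 := by
      obtain ⟨u, rfl⟩ : ∃ u, w = u + 1 := ⟨w - 1, by omega⟩
      rw [Nat.add_sub_cancel]
      ring
    omega
  have hSS : (S1 ∪ S2).card + w ≤ w ^ 2 + w * (w ^ 2 + 10 * w + 3) := by
    have := card_union_le S1 S2
    omega
  set L := Ds.toList ++ ((S1 ∪ S2).toList.map fun u => ({u} : Finset V)) with hLdef
  have hLlen : L.length ≤ w ^ 2 + w * (w ^ 2 + 10 * w + 4) := by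
    have e1 : L.length = Ds.card + (S1 ∪ S2).card := by
      rw [hLdef, List.length_append, List.length_map, length_toList, length_toList]
    have e2 : Ds.card ≤ w := d7.trans halU
    have e3 : w * (w ^ 2 + 10 * w + 3) ≤ w * (w ^ 2 + 10 * w + 4) :=
      Nat.mul_le_mul_left _ (by omega)
    omega
  have hVbig : ∀ D ∈ Ds, w ^ 2 + 10 * w + 4 + D.card ≤ Fintype.card V := by
    intro D hD
    have i0 : Fin m := ⟨0, by omega⟩
    have e1 : Disjoint D (Hb h i0) := by
      rw [disjoint_left]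
      intro v hv hv'
      rw [mem_Hb, (hUmem v ((d1 D hD).1 hv)).1] at hv'
      cases hv'
    have e2 : (D ∪ Hb h i0).card ≤ Fintype.card V := card_le_univ _
    rw [card_union_of_disjoint e1] at e2
    have e3 := (hB i0).1
    have e4 : A ≤ A ^ 5 := by
      calc A = A ^ 1 := (pow_one A).symm
        _ ≤ A ^ 5 := Nat.pow_le_pow_right (by omega) (by norm_num)
    omega
  have hDne : ∀ D ∈ Ds, D.Nonempty := fun D hD => card_pos.mp (by
    have := (d1 D hD).2.1
    omega)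
  have hKV : K < Fintype.card V := by
    have e4 : A ≤ A ^ 6 := by
      calc A = A ^ 1 := (pow_one A).symm
        _ ≤ A ^ 6 := Nat.pow_le_pow_right (by omega) (by norm_num)
    omega
  have hEx : Ex G (10 * w + 4) L := by
    refine ex_all (h := h) (K := K) (w := w) (g := w ^ 2 + 10 * w + 4) (S1 := S1) (S2 := S2) hT
      hwW hg ?_ d2 d3 hVbig (by omega) ?_ ?_ Ds.toList (nodup_toList _)
      (fun D hD => mem_toList.mp hD)
    · intro D hD
      exact ⟨fun v hv => (hUmem v ((d1 D hD).1 hv)).1, (d1 D hD).2.1, (d1 D hD).2.2⟩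
    · refine ex_singles hT hKV (S := S1 ∪ S2) ?_ _ (nodup_toList _)
        (fun u hu => mem_toList.mp hu)
      have e3 : w * (w ^ 2 + 10 * w + 3) ≤ w * (w ^ 2 + 10 * w + 4) :=
        Nat.mul_le_mul_left _ (by omega)
      omega
    · intro D hD
      obtain ⟨u, hu, rfl⟩ := List.mem_map.mp hD
      rw [singleton_subset_iff]
      exact mem_toList.mp hu
  have hR' : Rob h C (1 + 3 * L.length) := hR.mono (by omega)
  obtain ⟨C', f1, f2, f3, f4⟩ := insert_list hwW L C 1 hC hR' (by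
    intro D hD
    rcases List.mem_append.mp hD with hD | hD
    · have hD' := mem_toList.mp hD
      exact ⟨hDne D hD', fun v hv => hUmem v ((d1 D hD').1 hv)⟩
    · obtain ⟨u, hu, rfl⟩ := List.mem_map.mp hD
      refine ⟨singleton_nonempty u, ?_⟩
      intro v hv
      rw [mem_singleton] at hv
      subst hv
      rcases mem_union.mp (mem_toList.mp hu) with e1 | e1
      · exact hUmem v (d4 e1)
      · exact hUmem v (d5 e1)) (by
    rw [hLdef, List.pairwise_append]
    refine ⟨?_, ?_, ?_⟩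
    · refine (nodup_toList Ds).imp_of_mem ?_
      intro D D' hD hD' hne
      exact (d2 D (mem_toList.mp hD) D' (mem_toList.mp hD') hne).1
    · rw [List.pairwise_map]
      refine (nodup_toList (S1 ∪ S2)).imp ?_
      intro u v huv
      simpa using huv
    · intro D hD D' hD'
      obtain ⟨u, hu, rfl⟩ := List.mem_map.mp hD'
      rw [disjoint_singleton_right]
      intro huD
      rcases mem_union.mp (mem_toList.mp hu) with e1 | e1
      · exact disjoint_left.mp (d3 D (mem_toList.mp hD)).1 huD e1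
      · exact disjoint_left.mp (d3 D (mem_toList.mp hD)).2.1 huD e1) (by
    intro v hv
    by_cases hon : On C v
    · exact Or.inl hon
    · right
      have hvU : v ∈ U := mem_filter.mpr ⟨mem_Wt.mpr hv, hon⟩
      rcases d6 v hvU with e1 | e1 | ⟨D, hD, hvD⟩
      · exact ⟨{v}, List.mem_append.mpr (Or.inr (List.mem_map.mpr
          ⟨v, mem_toList.mpr (mem_union_left _ e1), rfl⟩)), mem_singleton_self _⟩
      · exact ⟨{v}, List.mem_append.mpr (Or.inr (List.mem_map.mpr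
          ⟨v, mem_toList.mpr (mem_union_right _ e1), rfl⟩)), mem_singleton_self _⟩
      · exact ⟨D, List.mem_append.mpr (Or.inl (mem_toList.mpr hD)), hvD⟩) hEx
  have hSp : Sp h C' := by
    obtain ⟨J, F, hJ, hF, -⟩ := f2
    obtain ⟨j, hj⟩ := card_pos.mp (show 0 < J.card by omega)
    intro i i'
    exact Submodule.span_mono (Set.image_mono (coe_subset.mpr (hF j hj).1)) ((hF j hj).2 i i')
  refine assemble (A := A) (t := A ^ 5) hm1 hB hA f1 hSp f4 ?_
  -- the number of connectors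
  have g1 : C.card ≤ K * A := by
    refine hCc.trans ?_
    exact Nat.mul_le_mul hr3 hmA
  have g2 : K * A ≤ A ^ 2 := by
    rw [sq]
    exact Nat.mul_le_mul_right _ hKA
  have g3 : C'.card + 1 ≤ 2 * A ^ 2 := by
    have g4 : 350 * A ≤ A ^ 2 := by
      rw [sq]
      exact Nat.mul_le_mul_right _ hA350
    omega
  calc (C'.card + 1) * (2 * A + 2) + A + 2 ≤ 2 * A ^ 2 * (3 * A) + A + 2 := by
        have := Nat.mul_le_mul g3 (show 2 * A + 2 ≤ 3 * A by omega)
        omega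
    _ ≤ 350 * 350 * A ^ 3 := by
        have g5 : A ≤ A ^ 3 := by
          calc A = A ^ 1 := (pow_one A).symm
            _ ≤ A ^ 3 := Nat.pow_le_pow_right (by omega) (by norm_num)
        have : 2 * A ^ 2 * (3 * A) = 6 * A ^ 3 := by ring
        omega
    _ ≤ A * A * A ^ 3 := Nat.mul_le_mul_right _ (Nat.mul_le_mul hA350 hA350)
    _ = A ^ 5 := by ring

end Pool.Agent.RamH
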